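import Pool.Agent.TH291.NW.Slab
import Pool.Agent.H974R2.Infinite

/-!
Connection events of the infinite model in a bounded domain.
-/

set_option maxHeartbeats 1000000

namespace TH291.NW

open H974 H12S Finset MeasureTheory

/-- `u` and `v` are joined by an open edge whose segment lies in `D`. -/
def OpenIn (D : Set (ℝ × ℝ)) (δ : ℝ) (ω : sqLattice.edgeSet → Bool) (u v : ℤ × ℤ) : Prop :=
  (openGraph ω).Adj u v ∧ segment ℝ (pt δ u) (pt δ v) ⊆ D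

/-- An open path in `D` joins `I` and `J`. -/
def ConnE (D : Set (ℝ × ℝ)) (δ : ℝ) (I J : Set (ℤ × ℤ)) : Set (sqLattice.edgeSet → Bool) :=
  {ω | ∃ u ∈ I, ∃ v ∈ J, Relation.ReflTransGen (OpenIn D δ ω) u v}

theorem mem_SE_of_seg {D : Set (ℝ × ℝ)} {δ : ℝ} (hδ : 0 < δ) {N : ℕ}
    (hN : ∀ x ∈ D, |x.1| ≤ δ * N - δ ∧ |x.2| ≤ δ * N - δ) {e : Edg}
    (hin : segment ℝ (pt δ (src e)) (pt δ (tgt e)) ⊆ D) : e ∈ SE D δ N := by
  rw [mem_SE]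
  refine ⟨?_, hin⟩
  have e1 := hN _ (hin (left_mem_segment ℝ _ _))
  have e2 := hN _ (hin (right_mem_segment ℝ _ _))
  have key : ∀ z : ℤ, |δ * (z:ℝ)| ≤ δ * N - δ → |z| ≤ (N:ℤ) - 1 := by
    intro z hz
    rw [abs_mul, abs_of_pos hδ, ← mul_sub_one] at hz
    have := le_of_mul_le_mul_left hz hδ
    have h3 : ((|z| : ℤ) : ℝ) ≤ ((N : ℤ) - 1 : ℤ) := by push_cast; exact this
    exact_mod_cast h3
  have a1 := key _ e1.1
  have a2 := key _ e1.2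
  have a3 := key _ e2.1
  have a4 := key _ e2.2
  obtain ⟨x, y, _ | _⟩ := e
  · rw [mem_RE_false]
    simp only [src, tgt_false, abs_le] at a1 a2 a3 a4
    omega
  · rw [mem_RE_true]
    simp only [src, tgt_true, abs_le] at a1 a2 a3 a4
    omega

theorem openIn_iff {D : Set (ℝ × ℝ)} {δ : ℝ} (hδ : 0 < δ) {N : ℕ}
    (hN : ∀ x ∈ D, |x.1| ≤ δ * N - δ ∧ |x.2| ≤ δ * N - δ) (ω : sqLattice.edgeSet → Bool)
    (u v : ℤ × ℤ) : OpenIn D δ ω u v ↔ H974.Adj (↑(FF (SE D δ N) ω) : Set Edg) u v := by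
  unfold OpenIn
  rw [openGraph_adj]
  constructor
  · rintro ⟨⟨e, he, hc⟩, hs⟩
    refine ⟨e, ?_, hc⟩
    rw [mem_coe, mem_FF]
    refine ⟨mem_SE_of_seg hδ hN ?_, he⟩
    rcases hc with ⟨e1, e2⟩ | ⟨e1, e2⟩
    · rw [e1, e2]; exact hs
    · rw [e1, e2, segment_symm]; exact hs
  · rintro ⟨e, he, hc⟩
    rw [mem_coe, mem_FF] at he
    refine ⟨⟨e, he.2, hc⟩, ?_⟩
    have hs := (mem_SE.mp he.1).2
    rcases hc with ⟨e1, e2⟩ | ⟨e1, e2⟩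
    · rw [e1, e2] at hs; exact hs
    · rw [e1, e2, segment_symm] at hs; exact hs

theorem conn_law {D : Set (ℝ × ℝ)} {δ : ℝ} (hδ : 0 < δ) {N : ℕ}
    (hN : ∀ x ∈ D, |x.1| ≤ δ * N - δ ∧ |x.2| ≤ δ * N - δ) (I J : Set (ℤ × ℤ))
    (p : unitInterval) : (bondLaw p).real (ConnE D δ I J) =
      Pr (fun _ => (p:ℝ)) (SE D δ N) (fun F => Cn I J (↑F : Set Edg)) := by
  rw [← law_event p (SE D δ N)]
  congr 1
  ext ω
  have : OpenIn D δ ω = H974.Adj (↑(FF (SE D δ N) ω) : Set Edg) := by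
    funext u v
    exact propext (openIn_iff hδ hN ω u v)
  unfold ConnE
  rw [Set.mem_ofPred_eq, Set.mem_ofPred_eq, this]
  rfl

/-- **Near-critical stability in planar domains.** -/
theorem dom_stab' (ρ M s A : ℝ) (hM : 0 ≤ M) (hs0 : 0 ≤ s) (hs : s < 3/2) (hA : 0 ≤ A) :
    ∃ C : ℝ, 0 < C ∧ ∀ D : Set (ℝ × ℝ), (∀ x ∈ D, |x.1| ≤ ρ ∧ |x.2| ≤ ρ) →
      Cov (frontier D) M s → ∀ δ : ℝ, 0 < δ → δ ≤ 1 → ∀ I J : Set (ℤ × ℤ),
      (∀ v ∈ I ∪ J, ∃ x ∈ frontier D, dist x (pt δ v) ≤ A * δ) → ∀ p : unitInterval,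
      |(bondLaw p).real (ConnE D δ I J) - (bondLaw hlf).real (ConnE D δ I J)| ≤
        C * |(p:ℝ) - 1/2| * δ ^ (-(3/4 : ℝ)) := by
  obtain ⟨C, hC, h⟩ := dom_stab stU ρ M s A hM hs0 hs hA
  refine ⟨C, hC, ?_⟩
  intro D hD hcov δ hδ hδ1 I J hIJ p
  obtain ⟨N, hN⟩ := exists_nat_ge ((ρ + δ) / δ)
  rw [div_le_iff₀ hδ] at hN
  have hN' : ∀ x ∈ D, |x.1| ≤ δ * N - δ ∧ |x.2| ≤ δ * N - δ := fun x hx =>
    ⟨(hD x hx).1.trans (by linarith), (hD x hx).2.trans (by linarith)⟩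
  rw [conn_law hδ hN' I J p, conn_law hδ hN' I J hlf]
  exact h D (frontier D) (Set.Subset.refl _) hD hcov δ hδ hδ1 N (by linarith) I J hIJ p p.2.1 p.2.2

end TH291.NW
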