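import Pool.Agent.TH291.NW.Car
import Pool.Agent.H863R4.Package
import Pool.Agent.H31C.Main

/-!
Cardy's formula in the slit strips in the near-critical window.
-/

set_option maxHeartbeats 1000000

namespace TH291.NW.Car

open Pool.Agent.H988R2.Perc hiding X
open Finset MeasureTheory Filter Topology Pool.Agent.H863R4

theorem car_lim {α β : ℝ} (hα : 0 < α) (hβ : 0 < β) (δ : ℕ → ℝ) (a b : ℕ → ℕ)
    (p : ℕ → unitInterval) (hδ0 : ∀ n, 0 < δ n) (hδ : Tendsto δ atTop (𝓝 0))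
    (ha : Tendsto (fun n => δ n * a n) atTop (𝓝 α)) (hb : Tendsto (fun n => δ n * b n) atTop (𝓝 β))
    (hp : Tendsto (fun n => |(p n : ℝ) - 1/2| * (δ n) ^ (-(3/4 : ℝ))) atTop (𝓝 0)) :
    Tendsto (fun n => (H974.bondLaw (p n)).real (CrossM (a n) (b n))) atTop
      (𝓝 (cardyF (α / (α + β)))) := by
  have hlim := (cardy_slit Pool.Agent.H31C.exact_cardy Pool.Agent.H31C.limit_cardy hα hβ).2
    δ a b hδ0 hδ ha hb
  have hdiff : Tendsto (fun n => (H974.bondLaw (p n)).real (CrossM (a n) (b n)) -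
      perc.real (SCross (a n) (b n))) atTop (𝓝 0) := by
    rw [Metric.tendsto_atTop]
    intro ε hε
    have hr0 : (0:ℝ) ≤ 1 - (1/2 : ℝ)^188 := by
      have : ((1:ℝ)/2)^188 ≤ 1 := pow_le_one₀ (by norm_num) (by norm_num)
      linarith
    have hr1 : 1 - (1/2 : ℝ)^188 < 1 := by
      have : (0:ℝ) < (1/2 : ℝ)^188 := by positivity
      linarith
    obtain ⟨L, hL⟩ := exists_pow_lt_of_lt_one (show (0:ℝ) < ε / 8 by positivity) hr1
    obtain ⟨C, hC, hst⟩ := strip_stab L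
    have hpow : (1 - (1/2 : ℝ)^188)^(L + 1) < ε / 8 := by
      refine lt_of_le_of_lt ?_ hL
      exact pow_le_pow_of_le_one hr0 hr1.le (Nat.le_succ L)
    -- the size of the strip
    have hs : Tendsto (fun n => (δ n * a n + δ n * b n + δ n) ^ (3/4 : ℝ)) atTop
        (𝓝 ((α + β + 0) ^ (3/4 : ℝ))) :=
      ((ha.add hb).add hδ).rpow_const (Or.inr (by norm_num))
    have hprod := (hp.mul hs).const_mul C
    rw [zero_mul, mul_zero] at hprod
    rw [Metric.tendsto_atTop] at hprod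
    obtain ⟨n0, hn0⟩ := hprod (ε / 2) (by positivity)
    refine ⟨n0, fun n hn => ?_⟩
    have h1 := hn0 n hn
    rw [Real.dist_eq, sub_zero] at h1 ⊢
    have h2 := (le_abs_self _).trans_lt h1
    have h3 := hst (a n) (b n) (p n)
    have e : |(p n : ℝ) - 1/2| * ((a n + b n + 1 : ℕ) : ℝ) ^ (3/4 : ℝ) =
        |(p n : ℝ) - 1/2| * (δ n) ^ (-(3/4 : ℝ)) *
          (δ n * a n + δ n * b n + δ n) ^ (3/4 : ℝ) := by
      have e1 : δ n * a n + δ n * b n + δ n = δ n * ((a n + b n + 1 : ℕ) : ℝ) := by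
        push_cast; ring
      rw [e1, Real.mul_rpow (hδ0 n).le (Nat.cast_nonneg _), Real.rpow_neg (hδ0 n).le]
      have : (δ n) ^ (3/4 : ℝ) ≠ 0 := (Real.rpow_pos_of_pos (hδ0 n) _).ne'
      field_simp
    rw [mul_assoc, e] at h3
    linarith
  have h := hdiff.add hlim
  rw [zero_add] at h
  refine h.congr (fun n => ?_)
  ring

end TH291.NW.Car
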