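import Pool.Agent.TH291.NW.Slab

/-!
The scaling window of the crossing probabilities of rectangles, upper bound.
-/

set_option maxHeartbeats 1000000

namespace TH291.NW

open H974 H12S H973N H973N.WHX Finset

/-- The rectangle `[-1/2, w + 1/2] × [-1/2, h + 1/2]` at mesh `1/w`. -/
def Dr (w h : ℕ) : Set (ℝ × ℝ) :=
  {x | (-(1/2 : ℝ) < w * x.1 ∧ w * x.1 < w + 1/2) ∧ (-(1/2 : ℝ) < w * x.2 ∧ w * x.2 < h + 1/2)}

/-- Its sides. -/
def Br (w h : ℕ) : Set (ℝ × ℝ) :=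
  {x | ((w * x.1 = -(1/2 : ℝ) ∨ w * x.1 = (w:ℝ) + 1/2) ∧
      (-(1/2 : ℝ) ≤ w * x.2 ∧ w * x.2 ≤ h + 1/2)) ∨
    ((w * x.2 = -(1/2 : ℝ) ∨ w * x.2 = (h:ℝ) + 1/2) ∧
      (-(1/2 : ℝ) ≤ w * x.1 ∧ w * x.1 ≤ w + 1/2))}

theorem fr_Dr (w h : ℕ) : frontier (Dr w h) ⊆ Br w h := by
  intro x hx
  have cu : Continuous fun x : ℝ × ℝ => (w:ℝ) * x.1 := by fun_prop
  have cv : Continuous fun x : ℝ × ℝ => (w:ℝ) * x.2 := by fun_prop
  have hcl : x ∈ {x : ℝ × ℝ | (-(1/2 : ℝ) ≤ w * x.1 ∧ w * x.1 ≤ w + 1/2) ∧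
      (-(1/2 : ℝ) ≤ w * x.2 ∧ w * x.2 ≤ h + 1/2)} := by
    have hclosed : IsClosed {x : ℝ × ℝ | (-(1/2 : ℝ) ≤ w * x.1 ∧ w * x.1 ≤ w + 1/2) ∧
        (-(1/2 : ℝ) ≤ w * x.2 ∧ w * x.2 ≤ h + 1/2)} :=
      ((isClosed_le continuous_const cu).inter (isClosed_le cu continuous_const)).inter
        ((isClosed_le continuous_const cv).inter (isClosed_le cv continuous_const))
    refine closure_minimal ?_ hclosed hx.1
    rintro y ⟨⟨k1, k2⟩, ⟨k3, k4⟩⟩
    exact ⟨⟨k1.le, k2.le⟩, ⟨k3.le, k4.le⟩⟩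
  obtain ⟨⟨k1, k2⟩, k3, k4⟩ := hcl
  by_contra hB
  unfold Br at hB
  rw [Set.mem_ofPred_eq] at hB
  push Not at hB
  obtain ⟨b1, b2⟩ := hB
  have s1 : -(1/2 : ℝ) < w * x.1 := lt_of_le_of_ne k1 (fun e => by
    have := b1 (Or.inl e.symm) k3
    linarith)
  have s2 : w * x.1 < (w:ℝ) + 1/2 := lt_of_le_of_ne k2 (fun e => by
    have := b1 (Or.inr e) k3
    linarith)
  have s3 : -(1/2 : ℝ) < w * x.2 := lt_of_le_of_ne k3 (fun e => by
    have := b2 (Or.inl e.symm) k1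
    linarith)
  have s4 : w * x.2 < (h:ℝ) + 1/2 := lt_of_le_of_ne k4 (fun e => by
    have := b2 (Or.inr e) k1
    linarith)
  apply hx.2
  have hopen : IsOpen (Dr w h) :=
    ((isOpen_lt continuous_const cu).inter (isOpen_lt cu continuous_const)).inter
      ((isOpen_lt continuous_const cv).inter (isOpen_lt cv continuous_const))
  rw [hopen.interior_eq]
  exact ⟨⟨s1, s2⟩, ⟨s3, s4⟩⟩

theorem cov_Br {w h K : ℕ} (hw : 1 ≤ w) (hhw : h ≤ K * w) :
    Cov (Br w h) (4 * (K + 3)) 1 := by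
  have hwr : (1:ℝ) ≤ w := by exact_mod_cast hw
  have hw0 : (0:ℝ) < w := by linarith
  have hhr : (h:ℝ) ≤ K * w := by exact_mod_cast hhw
  have hKr : (0:ℝ) ≤ K := Nat.cast_nonneg K
  have lv : ∀ c : ℝ, ∀ s t : ℝ, dist (((c, s) : ℝ × ℝ)) (c, t) ≤ |s - t| := by
    intro c s t
    rw [Prod.dist_eq, max_le_iff, Real.dist_eq, Real.dist_eq]
    simp only [sub_self, abs_zero]
    exact ⟨abs_nonneg _, le_rfl⟩
  have lh : ∀ c : ℝ, ∀ s t : ℝ, dist (((s, c) : ℝ × ℝ)) (t, c) ≤ |s - t| := by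
    intro c s t
    rw [Prod.dist_eq, max_le_iff, Real.dist_eq, Real.dist_eq]
    simp only [sub_self, abs_zero]
    exact ⟨le_rfl, abs_nonneg _⟩
  have lw : 1 / (w:ℝ) ≤ 1 := by rw [div_le_iff₀ hw0]; linarith
  have s1 : ∀ c : ℝ, Cov ((fun t => ((c, t) : ℝ × ℝ)) ''
      Set.Icc (-(1/2 : ℝ) / w) (((h:ℝ) + 1/2) / w)) (((K:ℝ) + 2) + 1) 1 := fun c =>
    cov_param (lv c) (by
      rw [← sub_div, div_le_iff₀ hw0]
      nlinarith) (by linarith)
  have s2 : ∀ c : ℝ, Cov ((fun t => ((t, c) : ℝ × ℝ)) ''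
      Set.Icc (-(1/2 : ℝ) / w) (((w:ℝ) + 1/2) / w)) (((K:ℝ) + 2) + 1) 1 := fun c =>
    cov_param (lh c) (by
      rw [← sub_div, div_le_iff₀ hw0]
      nlinarith) (by linarith)
  have hall := (((s1 (-(1/2 : ℝ) / w)).union (s1 (((w:ℝ) + 1/2) / w))).union
    (s2 (-(1/2 : ℝ) / w))).union (s2 (((h:ℝ) + 1/2) / w))
  refine hall.mono ?_ (by ring_nf; exact le_rfl)
  have ex : ∀ y z : ℝ, (w:ℝ) * y = z → y = z / w := by
    intro y z e
    rw [← e]; field_simp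
  have mm : ∀ y z z' : ℝ, z ≤ w * y → w * y ≤ z' → y ∈ Set.Icc (z / w) (z' / w) := by
    intro y z z' e1 e2
    constructor
    · rw [div_le_iff₀ hw0]; linarith
    · rw [le_div_iff₀ hw0]; linarith
  rintro x (⟨g | g, g1, g2⟩ | ⟨g | g, g1, g2⟩)
  · exact Or.inl (Or.inl (Or.inl ⟨x.2, mm _ _ _ g1 g2, by rw [← ex _ _ g]⟩))
  · exact Or.inl (Or.inl (Or.inr ⟨x.2, mm _ _ _ g1 g2, by rw [← ex _ _ g]⟩))
  · exact Or.inl (Or.inr ⟨x.1, mm _ _ _ g1 g2, by rw [← ex _ _ g]⟩)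
  · exact Or.inr ⟨x.1, mm _ _ _ g1 g2, by rw [← ex _ _ g]⟩

theorem SE_Dr {w h N : ℕ} (hw : 1 ≤ w) (n1 : w ≤ N) (n2 : h ≤ N) :
    SE (Dr w h) (1 / w) N = RE 0 w 0 h := by
  have hwr : (1:ℝ) ≤ w := by exact_mod_cast hw
  have hw0 : (0:ℝ) < w := by linarith
  have hp : ∀ v : ℤ × ℤ, (w:ℝ) * (pt (1 / w) v).1 = v.1 ∧ (w:ℝ) * (pt (1 / w) v).2 = v.2 := by
    intro v
    unfold pt
    simp only
    constructor <;> field_simp
  have hin : ∀ v : ℤ × ℤ, pt (1 / w) v ∈ Dr w h ↔ (0 ≤ v.1 ∧ v.1 ≤ w) ∧ (0 ≤ v.2 ∧ v.2 ≤ h) := by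
    intro v
    unfold Dr
    rw [Set.mem_ofPred_eq, (hp v).1, (hp v).2]
    have a1 : -(1/2 : ℝ) < (v.1:ℝ) ↔ 0 ≤ v.1 := by
      have := lt_half (a := 0) (b := v.1)
      rw [Int.cast_zero, zero_sub] at this
      exact this
    have a2 : -(1/2 : ℝ) < (v.2:ℝ) ↔ 0 ≤ v.2 := by
      have := lt_half (a := 0) (b := v.2)
      rw [Int.cast_zero, zero_sub] at this
      exact this
    have a3 : (v.1:ℝ) < (w:ℝ) + 1/2 ↔ v.1 ≤ w := by
      have := lt_half' (a := v.1) (b := w)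
      rw [Int.cast_natCast] at this
      exact this
    have a4 : (v.2:ℝ) < (h:ℝ) + 1/2 ↔ v.2 ≤ h := by
      have := lt_half' (a := v.2) (b := h)
      rw [Int.cast_natCast] at this
      exact this
    rw [a1, a2, a3, a4]
  have hconv : Convex ℝ (Dr w h) := by
    have e : Dr w h = {x : ℝ × ℝ | -(1/2 : ℝ) < w * x.1} ∩ {x : ℝ × ℝ | w * x.1 < (w:ℝ) + 1/2} ∩
        ({x : ℝ × ℝ | -(1/2 : ℝ) < w * x.2} ∩ {x : ℝ × ℝ | w * x.2 < (h:ℝ) + 1/2}) := rfl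
    rw [e]
    have l1 : IsLinearMap ℝ (fun x : ℝ × ℝ => (w:ℝ) * x.1) :=
      ⟨fun x y => by simp only [Prod.fst_add]; ring,
        fun c x => by simp only [Prod.smul_fst, smul_eq_mul]; ring⟩
    have l2 : IsLinearMap ℝ (fun x : ℝ × ℝ => (w:ℝ) * x.2) :=
      ⟨fun x y => by simp only [Prod.snd_add]; ring,
        fun c x => by simp only [Prod.smul_snd, smul_eq_mul]; ring⟩
    exact ((convex_halfSpace_gt l1 _).inter (convex_halfSpace_lt l1 _)).inter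
      ((convex_halfSpace_gt l2 _).inter (convex_halfSpace_lt l2 _))
  ext e
  rw [mem_SE]
  have hseg : segment ℝ (pt (1 / w) (src e)) (pt (1 / w) (tgt e)) ⊆ Dr w h ↔
      pt (1 / w) (src e) ∈ Dr w h ∧ pt (1 / w) (tgt e) ∈ Dr w h := by
    constructor
    · intro g
      exact ⟨g (left_mem_segment ℝ _ _), g (right_mem_segment ℝ _ _)⟩
    · rintro ⟨g1, g2⟩
      exact hconv.segment_subset g1 g2
  rw [hseg, hin, hin]
  obtain ⟨x, y, _ | _⟩ := e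
  · rw [mem_RE_false, mem_RE_false, src_mk, tgt_false]
    simp only
    omega
  · rw [mem_RE_true, mem_RE_true, src_mk, tgt_true]
    simp only
    omega

/-- The crossing probabilities of rectangles move by at most `C |q - 1/2| w^(3/4)`. -/
theorem cross_up (K : ℕ) : ∃ C : ℝ, 0 < C ∧ ∀ w h : ℕ, 1 ≤ w → h ≤ K * w → ∀ q : ℝ, 0 ≤ q →
    q ≤ 1 → |hh q w h - hh (1/2) w h| ≤ C * |q - 1/2| * (w:ℝ) ^ (3/4 : ℝ) := by
  obtain ⟨C, hC, hst⟩ := dom_stab stU ((K:ℝ) + 2) (4 * (K + 3)) 1 1 (by positivity)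
    (by norm_num) (by norm_num) (by norm_num)
  refine ⟨C, hC, ?_⟩
  intro w h hw hhw q h0 h1
  have hwr : (1:ℝ) ≤ w := by exact_mod_cast hw
  have hw0 : (0:ℝ) < w := by linarith
  have hw1 : (1:ℝ) / w ≤ 1 := by rw [div_le_iff₀ hw0]; linarith
  have hhr : (h:ℝ) ≤ K * w := by exact_mod_cast hhw
  have hKr : (0:ℝ) ≤ K := Nat.cast_nonneg K
  have hmain := hst (Dr w h) (Br w h) (fr_Dr w h) ?_ (cov_Br hw hhw) (1 / w) (by positivity) hw1
    ((K + 3) * w) ?_ (lsd 0 0 h) (lsd w 0 h) ?_ q h0 h1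
  · rw [SE_Dr hw (Nat.le_mul_of_pos_left _ (by omega))
      (hhw.trans (Nat.mul_le_mul_right _ (by omega)))] at hmain
    have e : ((1:ℝ) / w) ^ (-(3/4 : ℝ)) = (w:ℝ) ^ (3/4 : ℝ) := by
      rw [one_div, Real.inv_rpow hw0.le, Real.rpow_neg hw0.le, inv_inv]
    rw [e] at hmain
    have e2 : ∀ q : ℝ, Pr (fun _ => q) (RE 0 (w:ℤ) 0 h)
        (fun F => Cn (lsd 0 0 h) (lsd w 0 h) (↑F : Set Edg)) = hh q w h := by
      intro q
      have e3 := pr_LRc q (LRE_subset_RE (a := 0) (b := (w:ℤ)) (c := 0) (d := (h:ℤ)))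
      rw [sub_zero, sub_zero] at e3
      rw [← e3]
      apply Pr_congr
      intro F hF
      exact cn_lr (by omega) hF
    rw [e2, e2] at hmain
    exact hmain
  · rintro x ⟨⟨k1, k2⟩, k3, k4⟩
    constructor
    · rw [abs_le]
      constructor <;> nlinarith
    · rw [abs_le]
      constructor <;> nlinarith
  · push_cast
    have : (1:ℝ) / w * ((K + 3) * w) = K + 3 := by field_simp
    rw [this]
    linarith
  · have hw0' : (w:ℝ) ≠ 0 := hw0.ne'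
    rintro v (⟨g1, g2, g3⟩ | ⟨g1, g2, g3⟩)
    · refine ⟨(-(1/2 : ℝ) / w, v.2 / w), ?_, ?_⟩
      · left
        simp only
        have m1 : (w:ℝ) * (-(1/2 : ℝ) / w) = -(1/2) := by field_simp
        have m2 : (w:ℝ) * ((v.2:ℝ) / w) = v.2 := by field_simp
        rw [m1, m2]
        have m3 : (0:ℝ) ≤ v.2 := by exact_mod_cast g2
        have m4 : (v.2:ℝ) ≤ h := by exact_mod_cast g3
        exact ⟨Or.inl rfl, by linarith, by linarith⟩
      · rw [dist_pt, one_mul, g1]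
        simp only
        constructor
        · rw [Int.cast_zero, mul_zero, sub_zero, abs_div, abs_of_pos hw0,
            div_le_div_iff_of_pos_right hw0, abs_neg, abs_of_pos (by norm_num)]
          norm_num
        · have : (v.2:ℝ) / w - 1 / w * v.2 = 0 := by field_simp; ring
          rw [this, abs_zero]
          positivity
    · refine ⟨(((w:ℝ) + 1/2) / w, v.2 / w), ?_, ?_⟩
      · left
        simp only
        have m1 : (w:ℝ) * (((w:ℝ) + 1/2) / w) = w + 1/2 := by field_simp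
        have m2 : (w:ℝ) * ((v.2:ℝ) / w) = v.2 := by field_simp
        rw [m1, m2]
        have m3 : (0:ℝ) ≤ v.2 := by exact_mod_cast g2
        have m4 : (v.2:ℝ) ≤ h := by exact_mod_cast g3
        exact ⟨Or.inr rfl, by linarith, by linarith⟩
      · rw [dist_pt, one_mul, g1]
        simp only
        constructor
        · have : ((w:ℝ) + 1/2) / w - 1 / w * ((w:ℤ):ℝ) = 1/2 * (1 / w) := by
            rw [Int.cast_natCast]; field_simp; ring
          rw [this, abs_of_pos (by positivity)]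
          have : 0 < 1 / (w:ℝ) := by positivity
          linarith
        · have : (v.2:ℝ) / w - 1 / w * v.2 = 0 := by field_simp; ring
          rw [this, abs_zero]
          positivity

/-- The scaling window of the crossing probabilities of rectangles. -/
theorem cross_window (K : ℕ) (hK : 1 ≤ K) : ∃ c C : ℝ, 0 < c ∧ 0 < C ∧
    ∀ w h : ℕ, 1 ≤ w → 1 ≤ h → w ≤ K * h → h ≤ K * w → ∀ q : ℝ, 0 ≤ q → q ≤ 1 →
      c * min 1 (|q - 1/2| * (w:ℝ) ^ (3/4 : ℝ)) ≤ |hh q w h - hh (1/2) w h| ∧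
      |hh q w h - hh (1/2) w h| ≤ C * min 1 (|q - 1/2| * (w:ℝ) ^ (3/4 : ℝ)) := by
  obtain ⟨c, hc, hlow⟩ := cross_low K hK
  obtain ⟨C, hC, hup⟩ := cross_up K
  refine ⟨c, max C 1, hc, by positivity, ?_⟩
  intro w h hw hh1 hwh hhw q h0 h1
  refine ⟨hlow w h hw hh1 hwh hhw q h0 h1, ?_⟩
  have a1 := hh_nonneg h0 h1 (w:ℤ) h
  have a2 := hh_le_one h0 h1 (w:ℤ) h
  have a3 := hh_nonneg (q := 1/2) (by norm_num) (by norm_num) (w:ℤ) h
  have a4 := hh_le_one (q := 1/2) (by norm_num) (by norm_num) (w:ℤ) h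
  have hle : |hh q w h - hh (1/2) w h| ≤ 1 := by
    rw [abs_le]
    constructor <;> linarith
  have hx : 0 ≤ |q - 1/2| * (w:ℝ) ^ (3/4 : ℝ) := by positivity
  rcases le_total 1 (|q - 1/2| * (w:ℝ) ^ (3/4 : ℝ)) with g | g
  · rw [min_eq_left g, mul_one]
    exact hle.trans (le_max_right _ _)
  · rw [min_eq_right g]
    refine (hup w h hw hhw q h0 h1).trans ?_
    rw [mul_assoc]
    exact mul_le_mul_of_nonneg_right (le_max_left _ _) hx

end TH291.NW
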