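import Pool.Agent.TH291.NW.Slab
import Pool.Agent.H974R2.Infinite
import Pool.Agent.H980R4.Rect

/-!
Crossing probabilities of the slit strip in the near-critical window.
-/

set_option maxHeartbeats 1000000

namespace TH291.NW.Car

open Pool.Agent.H988R2.Perc hiding X
open H12S TH291.NW Finset MeasureTheory Relation
open Pool.Agent.H980R2.Unif.U3 Pool.Agent.H863R4 Pool.Agent.H980R4.Rect

/-- The step of a path of the slit strip. -/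
def Stp (a b : ℕ) (ω : H974.sqLattice.edgeSet → Bool) (x y : ℤ × ℤ) : Prop :=
  (H974.openGraph ω).Adj x y ∧
    (-(a:ℤ) ≤ x.1 - x.2 ∧ x.1 - x.2 ≤ b + 1) ∧ (-(a:ℤ) ≤ y.1 - y.2 ∧ y.1 - y.2 ≤ b + 1) ∧
    ¬ (0 ≤ x.1 + x.2 ∧ 0 ≤ y.1 + y.2 ∧
      ((x.1 - x.2 ≤ 0 ∧ 0 < y.1 - y.2) ∨ (y.1 - y.2 ≤ 0 ∧ 0 < x.1 - x.2)))

/-- The left bank of the slit is joined to the right wall. -/
def CrossM (a b : ℕ) : Set (H974.sqLattice.edgeSet → Bool) :=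
  {ω | ∃ x y : ℤ × ℤ, x.1 - x.2 = 0 ∧ 0 ≤ x.1 + x.2 ∧ y.1 - y.2 = b + 1 ∧
    ReflTransGen (Stp a b ω) x y}

/-- The change of coding of the configurations. -/
def Ph (ω : H974.sqLattice.edgeSet → Bool) : Conf := fun g => ω (H974.toE (g.1, g.2.1, !g.2.2))

theorem tB_Ph (U : Finset H974.Edg) (ω : H974.sqLattice.edgeSet → Bool) :
    tB U (Ph ω) = H974.FF U ω := by
  ext e
  rw [H974.mem_FF]
  unfold tB
  rw [mem_filter]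
  unfold Ph eB
  simp only [Bool.not_not, Prod.mk.eta]

theorem openAdj_iff (ω : Conf) (p r : ℤ × ℤ) :
    OpenAdj ω p r ↔ H974.Adj {e : H974.Edg | ω (eB e) = true} p r := by
  constructor
  · rintro (⟨e, h⟩ | ⟨e, h⟩ | ⟨e, h⟩ | ⟨e, h⟩)
    · refine ⟨(p.1, p.2, true), h, Or.inl ⟨rfl, ?_⟩⟩
      rw [e]; rfl
    · refine ⟨(r.1, r.2, true), h, Or.inr ⟨rfl, ?_⟩⟩
      rw [e]; rfl
    · refine ⟨(p.1, p.2, false), h, Or.inl ⟨rfl, ?_⟩⟩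
      rw [e]; rfl
    · refine ⟨(r.1, r.2, false), h, Or.inr ⟨rfl, ?_⟩⟩
      rw [e]; rfl
  · rintro ⟨⟨u, v, t⟩, he, h⟩
    have he' : ω (eB (u, v, t)) = true := he
    cases t with
    | true =>
      have h1 : ω (u, v, false) = true := he'
      rcases h with ⟨rfl, rfl⟩ | ⟨rfl, rfl⟩
      · exact Or.inl ⟨rfl, h1⟩
      · exact Or.inr (Or.inl ⟨rfl, h1⟩)
    | false =>
      have h1 : ω (u, v, true) = true := he'
      rcases h with ⟨rfl, rfl⟩ | ⟨rfl, rfl⟩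
      · exact Or.inr (Or.inr (Or.inl ⟨rfl, h1⟩))
      · exact Or.inr (Or.inr (Or.inr ⟨rfl, h1⟩))

theorem openAdj_Ph (ω : H974.sqLattice.edgeSet → Bool) (p r : ℤ × ℤ) :
    OpenAdj (Ph ω) p r ↔ (H974.openGraph ω).Adj p r := by
  rw [H974.openGraph_adj, openAdj_iff]
  have : {e : H974.Edg | Ph ω (eB e) = true} = H974.opn ω := by
    ext e
    unfold Ph eB
    simp only [Bool.not_not, Prod.mk.eta]
    rfl
  rw [this]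

theorem stp_iff (a b : ℕ) (ω : H974.sqLattice.edgeSet → Bool) (p r : ℤ × ℤ) :
    Stp a b ω p r ↔ SAdj a b (Ph ω) p r := by
  unfold Stp SAdj
  rw [openAdj_Ph]
  tauto

theorem crossM_iff (a b : ℕ) (ω : H974.sqLattice.edgeSet → Bool) :
    ω ∈ CrossM a b ↔ Ph ω ∈ SCross a b := by
  have : Stp a b ω = SAdj a b (Ph ω) := by
    funext p r
    exact propext (stp_iff a b ω p r)
  unfold CrossM SCross
  rw [Set.mem_ofPred_eq, Set.mem_ofPred_eq, this]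

/-- The edges of the finite domain. -/
noncomputable def Sd (W N : ℕ) (c1 c2 h1 h2 σ η : ℤ) : Finset H974.Edg :=
  SE (Dm W c1 c2 h1 h2 σ η) (1 / W) N

theorem adj_Sd {W N : ℕ} (hW : 1 ≤ W) {c1 c2 h1 h2 σ η : ℤ} (n1 : -(N:ℤ) ≤ c1) (n2 : c2 ≤ N)
    (n3 : -(N:ℤ) ≤ h1) (n4 : h2 ≤ N) (ω : Conf) (p r : ℤ × ℤ) :
    H974.Adj (↑(tB (Sd W N c1 c2 h1 h2 σ η) ω) : Set H974.Edg) p r ↔
      OpenAdj ω p r ∧ InS c1 c2 h1 h2 p ∧ InS c1 c2 h1 h2 r ∧ ¬ Slit σ η p r := by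
  have hs : ∀ u v : ℤ × ℤ, Slit σ η u v ↔ Slit σ η v u := by
    intro u v
    unfold Slit
    omega
  rw [openAdj_iff]
  constructor
  · rintro ⟨e, he, hc⟩
    rw [mem_coe] at he
    unfold tB at he
    rw [mem_filter] at he
    have h1 := (mem_SE_Dm hW n1 n2 n3 n4 e).mp he.1
    refine ⟨⟨e, he.2, hc⟩, ?_⟩
    rcases hc with ⟨e1, e2⟩ | ⟨e1, e2⟩
    · rw [e1, e2] at h1; exact h1
    · rw [e1, e2] at h1
      exact ⟨h1.2.1, h1.1, fun k => h1.2.2 ((hs _ _).mp k)⟩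
  · rintro ⟨⟨e, he, hc⟩, h1, h2, h3⟩
    refine ⟨e, ?_, hc⟩
    rw [mem_coe]
    unfold tB
    rw [mem_filter]
    refine ⟨(mem_SE_Dm hW n1 n2 n3 n4 e).mpr ?_, he⟩
    rcases hc with ⟨e1, e2⟩ | ⟨e1, e2⟩
    · rw [e1, e2]; exact ⟨h1, h2, h3⟩
    · rw [e1, e2]; exact ⟨h2, h1, fun k => h3 ((hs _ _).mp k)⟩

/-- A step changes the column and the height by one. -/
theorem step_one {ω : Conf} {p r : ℤ × ℤ} (h : OpenAdj ω p r) :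
    (r.1 - r.2 = p.1 - p.2 + 1 ∨ r.1 - r.2 = p.1 - p.2 - 1) ∧
    (r.1 + r.2 = p.1 + p.2 + 1 ∨ r.1 + r.2 = p.1 + p.2 - 1) := by
  unfold OpenAdj at h
  rcases h with ⟨e, -⟩ | ⟨e, -⟩ | ⟨e, -⟩ | ⟨e, -⟩ <;> rw [e] <;> simp only <;> omega

/-- The arcs of the slit rectangle. -/
def I1 (H : ℕ) : Set (ℤ × ℤ) := {v | v.1 - v.2 = 0 ∧ 0 ≤ v.1 + v.2 ∧ v.1 + v.2 ≤ H}

def J1 (b H : ℕ) : Set (ℤ × ℤ) := {v | v.1 - v.2 = b + 1 ∧ -(H:ℤ) ≤ v.1 + v.2 ∧ v.1 + v.2 ≤ H}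

theorem scrossH_iff {W N : ℕ} (hW : 1 ≤ W) {a b H : ℕ} (n1 : a ≤ N) (n2 : b + 1 ≤ N) (n3 : H ≤ N)
    (ω : Conf) : ω ∈ SCrossH a b H ↔
      Cn (I1 H) (J1 b H) (↑(tB (Sd W N (-(a:ℤ)) (b + 1) (-(H:ℤ)) H 0 0) ω) : Set H974.Edg) := by
  have hrel : ∀ p r : ℤ × ℤ, (SAdj a b ω p r ∧ |p.1 + p.2| ≤ (H:ℤ) ∧ |r.1 + r.2| ≤ (H:ℤ)) ↔
      H974.Adj (↑(tB (Sd W N (-(a:ℤ)) (b + 1) (-(H:ℤ)) H 0 0) ω) : Set H974.Edg) p r := by
    intro p r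
    rw [adj_Sd hW (by omega) (by omega) (by omega) (by omega)]
    unfold SAdj InS Slit
    rw [abs_le, abs_le]
    constructor
    · rintro ⟨⟨k1, k2, k3, k4, k5, k6⟩, k7, k8⟩
      refine ⟨k1, ⟨⟨k2, k3⟩, k7⟩, ⟨⟨k4, k5⟩, k8⟩, ?_⟩
      rintro ⟨hs, hη1, hη2⟩
      apply k6
      refine ⟨hη1, hη2, ?_⟩
      omega
    · rintro ⟨k1, ⟨⟨k2, k3⟩, k7⟩, ⟨⟨k4, k5⟩, k8⟩, k6⟩
      refine ⟨⟨k1, k2, k3, k4, k5, ?_⟩, k7, k8⟩
      rintro ⟨g1, g2, g3⟩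
      apply k6
      have := step_one k1
      refine ⟨?_, g1, g2⟩
      omega
  have hrel' : (fun p r : ℤ × ℤ => SAdj a b ω p r ∧ |p.1 + p.2| ≤ (H:ℤ) ∧ |r.1 + r.2| ≤ (H:ℤ)) =
      H974.Adj (↑(tB (Sd W N (-(a:ℤ)) (b + 1) (-(H:ℤ)) H 0 0) ω) : Set H974.Edg) := by
    funext p r
    exact propext (hrel p r)
  constructor
  · rintro ⟨x, y, hx1, hx2, hx3, hy, hr⟩
    rw [hrel'] at hr
    refine ⟨x, ⟨hx1, hx2, hx3⟩, y, ⟨hy, ?_⟩, hr⟩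
    rcases ReflTransGen.cases_tail hr with h | ⟨z, -, h⟩
    · rw [h] at hy
      omega
    · rw [← hrel] at h
      exact abs_le.mp h.2.2
  · rintro ⟨x, ⟨hx1, hx2, hx3⟩, y, ⟨hy, -⟩, hr⟩
    refine ⟨x, y, hx1, hx2, hx3, hy, ?_⟩
    rw [hrel']
    exact hr

/-- The arcs of the rectangle for the vertical crossings. -/
def I2 (c0 : ℤ) (L : ℕ) (s : ℤ) : Set (ℤ × ℤ) :=
  {v | (c0 ≤ v.1 - v.2 ∧ v.1 - v.2 ≤ c0 + L) ∧ v.1 + v.2 = s}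

theorem vert_iff {W N : ℕ} (hW : 1 ≤ W) {c0 : ℤ} {L : ℕ} {s t : ℤ} (hst : s < t)
    (n1 : -(N:ℤ) ≤ c0) (n2 : c0 + L ≤ N) (n3 : -(N:ℤ) ≤ s) (n4 : t ≤ N) (ω : Conf) :
    ω ∈ Vert c0 L s t ↔
      Cn (I2 c0 L s) (I2 c0 L t) (↑(tB (Sd W N c0 (c0 + L) s t 0 (t + 1)) ω) : Set H974.Edg) := by
  have hrel : ∀ p r : ℤ × ℤ,
      H974.Adj (↑(tB (Sd W N c0 (c0 + L) s t 0 (t + 1)) ω) : Set H974.Edg) p r ↔
      (OpenAdj ω p r ∧ c0 ≤ p.1 - p.2 ∧ p.1 - p.2 ≤ c0 + L ∧ c0 ≤ r.1 - r.2 ∧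
        r.1 - r.2 ≤ c0 + L) ∧ (s ≤ p.1 + p.2 ∧ p.1 + p.2 ≤ t) ∧ (s ≤ r.1 + r.2 ∧ r.1 + r.2 ≤ t) := by
    intro p r
    rw [adj_Sd hW n1 n2 n3 n4]
    unfold InS Slit
    constructor
    · rintro ⟨k1, ⟨⟨k2, k3⟩, k4⟩, ⟨⟨k5, k6⟩, k7⟩, -⟩
      exact ⟨⟨k1, k2, k3, k5, k6⟩, k4, k7⟩
    · rintro ⟨⟨k1, k2, k3, k5, k6⟩, k4, k7⟩
      exact ⟨k1, ⟨⟨k2, k3⟩, k4⟩, ⟨⟨k5, k6⟩, k7⟩, fun k => by omega⟩
  obtain ⟨G, hG⟩ : ∃ G : Set H974.Edg, G = ↑(tB (Sd W N c0 (c0 + L) s t 0 (t + 1)) ω) := ⟨_, rfl⟩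
  rw [← hG] at hrel ⊢
  constructor
  · rintro ⟨x, y, hx, hy, hr⟩
    -- cutting
    have key : (s ≤ x.1 + x.2 ∧ x.1 + x.2 ≤ t → (∃ w : ℤ × ℤ, w.1 + w.2 = t ∧ H974.Reach G x w) ∨
        ∃ u w : ℤ × ℤ, u.1 + u.2 = s ∧ w.1 + w.2 = t ∧ H974.Reach G u w) ∧
        (x.1 + x.2 < s → ∃ u w : ℤ × ℤ, u.1 + u.2 = s ∧ w.1 + w.2 = t ∧ H974.Reach G u w) := by
      clear hx
      induction hr using ReflTransGen.head_induction_on with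
      | refl =>
        constructor
        · rintro ⟨-, h2⟩
          exact Or.inl ⟨y, le_antisymm h2 hy, H974.Reach.refl _ _⟩
        · intro h
          omega
      | head h1 h2 ih =>
        rename_i p r
        have hst1 := (step_one h1.1).2
        constructor
        · rintro ⟨g1, g2⟩
          rcases eq_or_lt_of_le g2 with g3 | g3
          · exact Or.inl ⟨p, g3, H974.Reach.refl _ _⟩
          · by_cases g4 : s ≤ r.1 + r.2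
            · have hadj : H974.Adj G p r :=
                (hrel p r).mpr ⟨h1, ⟨g1, g2⟩, g4, by omega⟩
              rcases ih.1 ⟨g4, by omega⟩ with ⟨w, hw1, hw2⟩ | h
              · exact Or.inl ⟨w, hw1, hadj.reach.trans hw2⟩
              · exact Or.inr h
            · exact Or.inr (ih.2 (by omega))
        · intro g1
          by_cases g4 : s ≤ r.1 + r.2
          · rcases ih.1 ⟨g4, by omega⟩ with ⟨w, hw1, hw2⟩ | h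
            · exact ⟨r, w, by omega, hw1, hw2⟩
            · exact h
          · exact ih.2 (by omega)
    obtain ⟨u, w, hu, hw, huw⟩ : ∃ u w : ℤ × ℤ, u.1 + u.2 = s ∧ w.1 + w.2 = t ∧
        H974.Reach G u w := by
      rcases eq_or_lt_of_le hx with g | g
      · rcases key.1 ⟨by omega, by omega⟩ with ⟨w, hw1, hw2⟩ | h
        · exact ⟨x, w, g, hw1, hw2⟩
        · exact h
      · exact key.2 g
    refine ⟨u, ⟨?_, hu⟩, w, ⟨?_, hw⟩, huw⟩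
    · rcases ReflTransGen.cases_head huw with h | ⟨z, h, -⟩
      · rw [h] at hu; omega
      · have := (hrel u z).mp h
        exact ⟨this.1.2.1, this.1.2.2.1⟩
    · rcases ReflTransGen.cases_tail huw with h | ⟨z, -, h⟩
      · rw [← h] at hu; omega
      · have := (hrel z w).mp h
        exact ⟨this.1.2.2.2.1, this.1.2.2.2.2⟩
  · rintro ⟨u, ⟨-, hu⟩, w, ⟨-, hw⟩, huw⟩
    refine ⟨u, w, hu.le, hw.ge, ?_⟩
    refine ReflTransGen.mono ?_ _ _ huw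
    intro p r h
    exact ((hrel p r).mp h).1

/-- The finite events in the two models. -/
theorem perc_Sd (S : Finset H974.Edg) (P : Finset H974.Edg → Prop) :
    perc.real {ω | P (tB S ω)} = H974.Pr (fun _ => (1/2 : ℝ)) S P := by
  have h := perc_tB S P
  have h0 : 0 ≤ H974.Pr (fun _ => (1/2 : ℝ)) S P :=
    H974.Pr_nonneg (H974.okq (by norm_num) (by norm_num)) _ _
  rw [measureReal_def, h, ENNReal.toReal_ofReal h0]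

theorem law_Sd (p : unitInterval) (S : Finset H974.Edg) (P : Finset H974.Edg → Prop) :
    (H974.bondLaw p).real {ω | P (tB S (Ph ω))} = H974.Pr (fun _ => (p:ℝ)) S P := by
  rw [← H974.law_event p S P]
  congr 1
  ext ω
  rw [Set.mem_ofPred_eq, Set.mem_ofPred_eq, tB_Ph]

/-- Near-critical stability of the crossing probability of the slit strip. -/
theorem strip_stab (L : ℕ) : ∃ C : ℝ, 0 < C ∧ ∀ (a b : ℕ) (p : unitInterval),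
    |(H974.bondLaw p).real (CrossM a b) - perc.real (SCross a b)| ≤
      C * |(p:ℝ) - 1/2| * ((a + b + 1 : ℕ) : ℝ) ^ (3/4 : ℝ) + 4 * (1 - (1/2 : ℝ)^188)^(L + 1) := by
  obtain ⟨C, hC, hst⟩ := slab_stab (100 * (L + 1) + 1)
  refine ⟨3 * C, by positivity, ?_⟩
  intro a b p
  obtain ⟨W, hWd⟩ : ∃ W : ℕ, W = a + b + 1 := ⟨_, rfl⟩
  have hW : 1 ≤ W := by omega
  obtain ⟨H, hH⟩ : ∃ H : ℕ, H = 100 * (L + 1) * W := ⟨_, rfl⟩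
  have hHpos : 1 ≤ H := by
    rw [hH]
    exact Nat.mul_pos (by omega) (by omega)
  obtain ⟨N, hN⟩ : ∃ N : ℕ, N = (100 * (L + 1) + 1 + 2) * W := ⟨_, rfl⟩
  have hLW : (100 * (L + 1) + 1) * W = H + W := by rw [hH]; ring
  have hNH : N = H + 3 * W := by rw [hN, hH]; ring
  have h0 : (0:ℝ) ≤ p := p.2.1
  have h1 : (p:ℝ) ≤ 1 := p.2.2
  rw [← hWd]
  obtain ⟨x, hx⟩ : ∃ x : ℝ, x = C * |(p:ℝ) - 1/2| * (W:ℝ) ^ (3/4 : ℝ) := ⟨_, rfl⟩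
  obtain ⟨ρ, hρ⟩ : ∃ ρ : ℝ, ρ = (1 - (1/2 : ℝ)^188)^(L + 1) := ⟨_, rfl⟩
  have hLWz : (((100 * (L + 1) + 1) * W : ℕ) : ℤ) = H + W := by exact_mod_cast hLW
  have hWz : (W:ℤ) = a + b + 1 := by exact_mod_cast hWd
  -- the three events
  have st1 := hst W hW (-(a:ℤ)) (b + 1) (-(H:ℤ)) H 0 0 (by rw [hLWz]; omega)
    (by rw [hLWz]; omega) (by rw [hLWz]; omega) (by rw [hLWz]; omega) (I1 H) (J1 b H) (by
      rintro v (⟨g1, g2, g3⟩ | ⟨g1, g2, g3⟩)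
      · refine ⟨⟨⟨by omega, by omega⟩, by omega, by omega⟩, by omega⟩
      · refine ⟨⟨⟨by omega, by omega⟩, by omega, by omega⟩, by omega⟩) p h0 h1
  have st2 := hst W hW (-(a:ℤ)) (-(a:ℤ) + W) 0 H 0 ((H:ℤ) + 1) (by rw [hLWz]; omega)
    (by rw [hLWz]; omega) (by rw [hLWz]; omega) (by rw [hLWz]; omega)
    (I2 (-(a:ℤ)) W 0) (I2 (-(a:ℤ)) W H) (by
      rintro v (⟨⟨g1, g2⟩, g3⟩ | ⟨⟨g1, g2⟩, g3⟩)
      · refine ⟨⟨⟨by omega, by omega⟩, by omega, by omega⟩, by omega⟩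
      · refine ⟨⟨⟨by omega, by omega⟩, by omega, by omega⟩, by omega⟩) p h0 h1
  have st3 := hst W hW (-(a:ℤ)) (-(a:ℤ) + W) (-(H:ℤ)) 0 0 ((0:ℤ) + 1) (by rw [hLWz]; omega)
    (by rw [hLWz]; omega) (by rw [hLWz]; omega) (by rw [hLWz]; omega)
    (I2 (-(a:ℤ)) W (-(H:ℤ))) (I2 (-(a:ℤ)) W 0) (by
      rintro v (⟨⟨g1, g2⟩, g3⟩ | ⟨⟨g1, g2⟩, g3⟩)
      · refine ⟨⟨⟨by omega, by omega⟩, by omega, by omega⟩, by omega⟩
      · refine ⟨⟨⟨by omega, by omega⟩, by omega, by omega⟩, by omega⟩) p h0 h1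
  rw [← hN, ← hx] at st1 st2 st3
  -- translation
  have m1 : ∀ ω : Conf, ω ∈ SCrossH a b H ↔ Cn (I1 H) (J1 b H)
      (↑(tB (SE (Dm W (-(a:ℤ)) (b + 1) (-(H:ℤ)) H 0 0) (1 / W) N) ω) : Set H974.Edg) := fun ω =>
    scrossH_iff hW (by omega) (by omega) (by omega) ω
  have m2 : ∀ ω : Conf, ω ∈ Vert (-(a:ℤ)) W 0 H ↔ Cn (I2 (-(a:ℤ)) W 0) (I2 (-(a:ℤ)) W H)
      (↑(tB (SE (Dm W (-(a:ℤ)) (-(a:ℤ) + W) 0 H 0 ((H:ℤ) + 1)) (1 / W) N) ω) : Set H974.Edg) :=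
    fun ω => vert_iff hW (by omega) (by omega) (by omega) (by omega) (by omega) ω
  have m3 : ∀ ω : Conf, ω ∈ Vert (-(a:ℤ)) W (-(H:ℤ)) 0 ↔ Cn (I2 (-(a:ℤ)) W (-(H:ℤ)))
      (I2 (-(a:ℤ)) W 0)
      (↑(tB (SE (Dm W (-(a:ℤ)) (-(a:ℤ) + W) (-(H:ℤ)) 0 0 ((0:ℤ) + 1)) (1 / W) N) ω) :
        Set H974.Edg) :=
    fun ω => vert_iff hW (by omega) (by omega) (by omega) (by omega) (by omega) ω
  have q1 : perc.real (SCrossH a b H) = H974.Pr (fun _ => (1/2 : ℝ))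
      (SE (Dm W (-(a:ℤ)) (b + 1) (-(H:ℤ)) H 0 0) (1 / W) N)
      (fun F => Cn (I1 H) (J1 b H) (↑F : Set H974.Edg)) := by
    rw [← perc_Sd]
    congr 1
    ext ω
    exact m1 ω
  have q2 : perc.real (Vert (-(a:ℤ)) W 0 H) = H974.Pr (fun _ => (1/2 : ℝ))
      (SE (Dm W (-(a:ℤ)) (-(a:ℤ) + W) 0 H 0 ((H:ℤ) + 1)) (1 / W) N)
      (fun F => Cn (I2 (-(a:ℤ)) W 0) (I2 (-(a:ℤ)) W H) (↑F : Set H974.Edg)) := by
    rw [← perc_Sd]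
    congr 1
    ext ω
    exact m2 ω
  have q3 : perc.real (Vert (-(a:ℤ)) W (-(H:ℤ)) 0) = H974.Pr (fun _ => (1/2 : ℝ))
      (SE (Dm W (-(a:ℤ)) (-(a:ℤ) + W) (-(H:ℤ)) 0 0 ((0:ℤ) + 1)) (1 / W) N)
      (fun F => Cn (I2 (-(a:ℤ)) W (-(H:ℤ))) (I2 (-(a:ℤ)) W 0) (↑F : Set H974.Edg)) := by
    rw [← perc_Sd]
    congr 1
    ext ω
    exact m3 ω
  have p1 : (H974.bondLaw p).real {ω | Ph ω ∈ SCrossH a b H} = H974.Pr (fun _ => (p:ℝ))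
      (SE (Dm W (-(a:ℤ)) (b + 1) (-(H:ℤ)) H 0 0) (1 / W) N)
      (fun F => Cn (I1 H) (J1 b H) (↑F : Set H974.Edg)) := by
    rw [← law_Sd]
    congr 1
    ext ω
    exact m1 (Ph ω)
  have p2 : (H974.bondLaw p).real {ω | Ph ω ∈ Vert (-(a:ℤ)) W 0 H} = H974.Pr (fun _ => (p:ℝ))
      (SE (Dm W (-(a:ℤ)) (-(a:ℤ) + W) 0 H 0 ((H:ℤ) + 1)) (1 / W) N)
      (fun F => Cn (I2 (-(a:ℤ)) W 0) (I2 (-(a:ℤ)) W H) (↑F : Set H974.Edg)) := by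
    rw [← law_Sd]
    congr 1
    ext ω
    exact m2 (Ph ω)
  have p3 : (H974.bondLaw p).real {ω | Ph ω ∈ Vert (-(a:ℤ)) W (-(H:ℤ)) 0} =
      H974.Pr (fun _ => (p:ℝ))
      (SE (Dm W (-(a:ℤ)) (-(a:ℤ) + W) (-(H:ℤ)) 0 0 ((0:ℤ) + 1)) (1 / W) N)
      (fun F => Cn (I2 (-(a:ℤ)) W (-(H:ℤ))) (I2 (-(a:ℤ)) W 0) (↑F : Set H974.Edg)) := by
    rw [← law_Sd]
    congr 1
    ext ω
    exact m3 (Ph ω)
  rw [← q1, ← p1] at st1
  rw [← q2, ← p2] at st2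
  rw [← q3, ← p3] at st3
  -- decay at one half
  have hdiv : H / (100 * W) = L + 1 := by
    rw [hH]
    have e : 100 * (L + 1) * W = (100 * W) * (L + 1) := by ring
    rw [e, Nat.mul_div_cancel_left _ (by omega)]
  have d2 := vert_real (-(a:ℤ)) (L := W) hW 0 H
  have d3 := vert_real (-(a:ℤ)) (L := W) hW (-(H:ℤ)) H
  rw [zero_add] at d2
  rw [neg_add_cancel] at d3
  rw [hdiv, ← hρ] at d2 d3
  have d1 := rect_strip a b H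
  rw [← hWd, hdiv, ← hρ] at d1
  -- inclusion
  have hWab : Vert (-(a:ℤ)) (a+b+1) 0 H = Vert (-(a:ℤ)) W 0 H := by rw [hWd]
  have hWab' : Vert (-(a:ℤ)) (a+b+1) (-(H:ℤ)) 0 = Vert (-(a:ℤ)) W (-(H:ℤ)) 0 := by rw [hWd]
  have i1 : {ω | Ph ω ∈ SCrossH a b H} ⊆ CrossM a b := by
    intro ω hω
    rw [crossM_iff]
    exact scrossH_sub a b H hω
  have i2 : CrossM a b ⊆ {ω | Ph ω ∈ SCrossH a b H} ∪
      ({ω | Ph ω ∈ Vert (-(a:ℤ)) W 0 H} ∪ {ω | Ph ω ∈ Vert (-(a:ℤ)) W (-(H:ℤ)) 0}) := by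
    intro ω hω
    rw [crossM_iff] at hω
    by_cases hc : Ph ω ∈ SCrossH a b H
    · exact Or.inl hc
    · right
      have := scrossH_diff a b H ⟨hω, hc⟩
      rw [hWab, hWab'] at this
      exact this
  have j1 := measureReal_mono (μ := H974.bondLaw p) i1
  have j2 : (H974.bondLaw p).real (CrossM a b) ≤
      (H974.bondLaw p).real {ω | Ph ω ∈ SCrossH a b H} +
      ((H974.bondLaw p).real {ω | Ph ω ∈ Vert (-(a:ℤ)) W 0 H} +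
        (H974.bondLaw p).real {ω | Ph ω ∈ Vert (-(a:ℤ)) W (-(H:ℤ)) 0}) :=
    (measureReal_mono i2).trans ((measureReal_union_le _ _).trans
      (add_le_add_right (measureReal_union_le _ _) _))
  have e3 : 3 * C * |(p:ℝ) - 1/2| * (W:ℝ) ^ (3/4 : ℝ) = 3 * x := by rw [hx]; ring
  rw [e3]
  rw [abs_le] at st1 st2 st3 d1 ⊢
  constructor <;> linarith [st1.1, st1.2, st2.1, st2.2, st3.1, st3.2, d1.1, d1.2]

end TH291.NW.Car
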