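import Pool.Agent.TH291.NW.Gen

/-!
Connection events in discretised planar domains: near-critical stability.
-/

set_option maxHeartbeats 1000000

namespace TH291.NW

open H974 H12S H973N H973N.WHX Finset

/-- The point of the plane at the vertex `v`, mesh `δ`. -/
noncomputable def pt (δ : ℝ) (v : ℤ × ℤ) : ℝ × ℝ := (δ * v.1, δ * v.2)

open Classical in
/-- The edges of the box of radius `N` whose segments, at mesh `δ`, lie in `D`. -/
noncomputable def SE (D : Set (ℝ × ℝ)) (δ : ℝ) (N : ℕ) : Finset Edg :=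
  (RE (-N) N (-N) N).filter (fun e => segment ℝ (pt δ (src e)) (pt δ (tgt e)) ⊆ D)

theorem mem_SE {D : Set (ℝ × ℝ)} {δ : ℝ} {N : ℕ} {e : Edg} : e ∈ SE D δ N ↔
    e ∈ RE (-N) N (-N) N ∧ segment ℝ (pt δ (src e)) (pt δ (tgt e)) ⊆ D := by
  classical
  unfold SE
  rw [Finset.mem_filter]

theorem dist_pt {δ : ℝ} {u : ℝ × ℝ} {v : ℤ × ℤ} {m : ℝ} :
    dist u (pt δ v) ≤ m ↔ |u.1 - δ * v.1| ≤ m ∧ |u.2 - δ * v.2| ≤ m := by
  rw [Prod.dist_eq, max_le_iff, Real.dist_eq, Real.dist_eq]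
  rfl

theorem dist_pt_pt {δ : ℝ} (hδ : 0 < δ) {u v : ℤ × ℤ} {m : ℤ} (h1 : |u.1 - v.1| ≤ m)
    (h2 : |u.2 - v.2| ≤ m) : dist (pt δ u) (pt δ v) ≤ δ * m := by
  rw [dist_pt]
  have key : ∀ a b : ℤ, |a - b| ≤ m → |δ * (a:ℝ) - δ * b| ≤ δ * m := by
    intro a b h
    rw [← mul_sub, abs_mul, abs_of_pos hδ]
    apply mul_le_mul_of_nonneg_left _ hδ.le
    exact_mod_cast h
  exact ⟨key _ _ h1, key _ _ h2⟩

/-- The segment between a point of `D` and a point off `D` meets the frontier. -/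
theorem frontier_near {D : Set (ℝ × ℝ)} {a y : ℝ × ℝ} (ha : a ∈ D) (hy : y ∉ D) {m : ℝ}
    (h : dist y a ≤ m) : ∃ x ∈ frontier D, dist x a ≤ m := by
  have hc : IsPreconnected (segment ℝ a y) := (convex_segment a y).isPreconnected
  have hex : (segment ℝ a y ∩ frontier D).Nonempty := by
    by_contra hne
    rw [Set.not_nonempty_iff_eq_empty] at hne
    have hnf : ∀ z ∈ segment ℝ a y, z ∉ frontier D := fun z hz hzf =>
      (Set.mem_empty_iff_false z).mp (hne ▸ ⟨hz, hzf⟩)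
    have hin : ∀ z ∈ segment ℝ a y, z ∈ D → z ∈ interior D := by
      intro z hz hzD
      by_contra hzi
      exact hnf z hz ⟨subset_closure hzD, hzi⟩
    have hout : ∀ z ∈ segment ℝ a y, z ∉ D → z ∈ interior Dᶜ := by
      intro z hz hzD
      by_contra hzi
      apply hnf z hz
      rw [← frontier_compl]
      exact ⟨subset_closure hzD, hzi⟩
    obtain ⟨z, -, hz1, hz2⟩ := hc (interior D) (interior Dᶜ) isOpen_interior isOpen_interior
      (fun z hz => by
        by_cases hzD : z ∈ D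
        · exact Or.inl (hin z hz hzD)
        · exact Or.inr (hout z hz hzD))
      ⟨a, left_mem_segment ℝ a y, hin a (left_mem_segment ℝ a y) ha⟩
      ⟨y, right_mem_segment ℝ a y, hout y (right_mem_segment ℝ a y) hy⟩
    exact interior_subset hz2 (interior_subset hz1)
  obtain ⟨x, hx1, hx2⟩ := hex
  refine ⟨x, hx2, ?_⟩
  have h0 : (0:ℝ) ≤ m := dist_nonneg.trans h
  have hcb : segment ℝ a y ⊆ Metric.closedBall a m :=
    (convex_closedBall a m).segment_subset (Metric.mem_closedBall_self h0)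
      (Metric.mem_closedBall.mpr h)
  exact Metric.mem_closedBall.mp (hcb hx1)

/-- If `g` is not good at scale `k`, then it is near the set `B`, which contains the frontier. -/
theorem near_of_not_good {D B : Set (ℝ × ℝ)} (hB : frontier D ⊆ B) {δ A : ℝ} (hδ : 0 < δ)
    (hA : 0 ≤ A) {N : ℕ} (hN : ∀ x ∈ D, |x.1| ≤ δ * N - δ ∧ |x.2| ≤ δ * N - δ)
    {I J : Set Vtx} (hIJ : ∀ v ∈ I ∪ J, ∃ x ∈ B, dist x (pt δ v) ≤ A * δ)
    {g : Edg} (hg : g ∈ SE D δ N) {k : ℕ} (h : ¬ Good (SE D δ N) I J k g) :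
    ∃ x ∈ B, dist x (pt δ (src g)) ≤ (7 + A) * 2^k * δ := by
  have hρ : 1 ≤ 2^k := Nat.one_le_two_pow
  have hρr : (1:ℝ) ≤ 2^k := by exact_mod_cast hρ
  have hnear := til_near hρ g
  push_cast at hnear
  have hgD : pt δ (src g) ∈ D := (mem_SE.mp hg).2 (left_mem_segment ℝ _ _)
  unfold Good at h
  rw [not_and_or] at h
  rcases h with h | h
  · rw [Finset.not_subset] at h
    obtain ⟨e, he, heS⟩ := h
    -- the end points of `e` are near `g`
    have hb : (|(src e).1 - (src g).1| ≤ 7 * 2^k ∧ |(src e).2 - (src g).2| ≤ 7 * 2^k) ∧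
        (|(tgt e).1 - (src g).1| ≤ 7 * 2^k ∧ |(tgt e).2 - (src g).2| ≤ 7 * 2^k) := by
      unfold blk at he
      obtain ⟨x, y, _ | _⟩ := e
      · rw [mem_RE_false] at he
        push_cast at he
        simp only [src, tgt_false, abs_le]
        omega
      · rw [mem_RE_true] at he
        push_cast at he
        simp only [src, tgt_true, abs_le]
        omega
    have d1 := dist_pt_pt hδ hb.1.1 hb.1.2
    have d2 := dist_pt_pt hδ hb.2.1 hb.2.2
    push_cast at d1 d2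
    have hyex : ∃ y, y ∉ D ∧ dist y (pt δ (src g)) ≤ δ * (7 * 2^k) := by
      by_cases hin : segment ℝ (pt δ (src e)) (pt δ (tgt e)) ⊆ D
      · -- then `e` is outside the big box: impossible
        exfalso
        apply heS
        rw [mem_SE]
        refine ⟨?_, hin⟩
        have e1 := hN _ (hin (left_mem_segment ℝ _ _))
        have e2 := hN _ (hin (right_mem_segment ℝ _ _))
        have key : ∀ z : ℤ, |δ * (z:ℝ)| ≤ δ * N - δ → |z| ≤ (N:ℤ) - 1 := by
          intro z hz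
          rw [abs_mul, abs_of_pos hδ, ← mul_sub_one] at hz
          have := le_of_mul_le_mul_left hz hδ
          have h3 : ((|z| : ℤ) : ℝ) ≤ ((N : ℤ) - 1 : ℤ) := by push_cast; exact this
          exact_mod_cast h3
        have a1 := key _ e1.1
        have a2 := key _ e1.2
        have a3 := key _ e2.1
        have a4 := key _ e2.2
        obtain ⟨x, y, _ | _⟩ := e
        · rw [mem_RE_false]
          simp only [src, tgt_false, abs_le] at a1 a2 a3 a4
          omega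
        · rw [mem_RE_true]
          simp only [src, tgt_true, abs_le] at a1 a2 a3 a4
          omega
      · rw [Set.not_subset] at hin
        obtain ⟨y, hy1, hy2⟩ := hin
        refine ⟨y, hy2, ?_⟩
        have hcb : segment ℝ (pt δ (src e)) (pt δ (tgt e)) ⊆
            Metric.closedBall (pt δ (src g)) (δ * (7 * 2^k)) :=
          (convex_closedBall _ _).segment_subset (Metric.mem_closedBall.mpr d1)
            (Metric.mem_closedBall.mpr d2)
        exact Metric.mem_closedBall.mp (hcb hy1)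
    obtain ⟨y, hy, hyd⟩ := hyex
    obtain ⟨x, hx, hxd⟩ := frontier_near hgD hy hyd
    refine ⟨x, hB hx, hxd.trans ?_⟩
    nlinarith [mul_nonneg (mul_nonneg hA (by positivity : (0:ℝ) ≤ 2^k)) hδ.le]
  · unfold Off at h
    push Not at h
    obtain ⟨v, hv, hv'⟩ := h
    obtain ⟨x, hx, hxd⟩ := hIJ v hv
    refine ⟨x, hx, ?_⟩
    have hb : |v.1 - (src g).1| ≤ 7 * 2^k ∧ |v.2 - (src g).2| ≤ 7 * 2^k := by
      push_cast at hv'
      simp only [src, abs_le]
      omega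
    have d1 := dist_pt_pt hδ hb.1 hb.2
    push_cast at d1
    have d2 := dist_triangle x (pt δ v) (pt δ (src g))
    nlinarith [mul_nonneg (mul_nonneg hA (sub_nonneg.mpr hρr)) hδ.le]

/-- Integers near a real number. -/
theorem card_near (z B : ℝ) (hB : 0 ≤ B) :
    ((Finset.Icc ⌈z - B⌉ ⌊z + B⌋).card : ℝ) ≤ 2 * B + 1 := by
  rw [Int.card_Icc]
  have h1 : (⌊z + B⌋ : ℝ) ≤ z + B := Int.floor_le _
  have h2 : z - B ≤ (⌈z - B⌉ : ℝ) := Int.le_ceil _
  rcases le_or_gt (⌊z + B⌋ + 1 - ⌈z - B⌉) 0 with h | h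
  · rw [Int.toNat_of_nonpos h]
    push_cast
    linarith
  · have h3 : (((⌊z + B⌋ + 1 - ⌈z - B⌉).toNat : ℤ) : ℝ) = (⌊z + B⌋ : ℝ) + 1 - ⌈z - B⌉ := by
      rw [Int.toNat_of_nonneg h.le]
      push_cast
      ring
    have h4 : (((⌊z + B⌋ + 1 - ⌈z - B⌉).toNat : ℕ) : ℝ) = (⌊z + B⌋ : ℝ) + 1 - ⌈z - B⌉ := by
      exact_mod_cast h3
    rw [h4]
    linarith

/-- The integer points `t` with `w t` near the points of `F`. -/
noncomputable def nearPts (F : Finset (ℝ × ℝ)) (w B : ℝ) : Finset (ℤ × ℤ) :=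
  F.biUnion (fun y => Finset.Icc ⌈y.1 / w - B⌉ ⌊y.1 / w + B⌋ ×ˢ
    Finset.Icc ⌈y.2 / w - B⌉ ⌊y.2 / w + B⌋)

theorem card_nearPts (F : Finset (ℝ × ℝ)) (w B : ℝ) (hB : 0 ≤ B) :
    ((nearPts F w B).card : ℝ) ≤ F.card * (2 * B + 1)^2 := by
  classical
  unfold nearPts
  have h1 := Finset.card_biUnion_le (s := F) (t := fun y : ℝ × ℝ =>
    Finset.Icc ⌈y.1 / w - B⌉ ⌊y.1 / w + B⌋ ×ˢ Finset.Icc ⌈y.2 / w - B⌉ ⌊y.2 / w + B⌋)
  have h2 : ((F.biUnion (fun y : ℝ × ℝ => Finset.Icc ⌈y.1 / w - B⌉ ⌊y.1 / w + B⌋ ×ˢ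
      Finset.Icc ⌈y.2 / w - B⌉ ⌊y.2 / w + B⌋)).card : ℝ) ≤
      ((∑ y ∈ F, (Finset.Icc ⌈y.1 / w - B⌉ ⌊y.1 / w + B⌋ ×ˢ
      Finset.Icc ⌈y.2 / w - B⌉ ⌊y.2 / w + B⌋).card : ℕ) : ℝ) := by exact_mod_cast h1
  refine h2.trans ?_
  push_cast
  rw [← nsmul_eq_mul, ← Finset.sum_const]
  apply Finset.sum_le_sum
  intro y _
  rw [Finset.card_product]
  push_cast
  have a1 := card_near (y.1 / w) B hB
  have a2 := card_near (y.2 / w) B hB
  rw [sq]
  exact mul_le_mul a1 a2 (Nat.cast_nonneg _) (by linarith)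

theorem mem_nearPts {F : Finset (ℝ × ℝ)} {w B : ℝ} (hw : 0 < w) {t : ℤ × ℤ} {y : ℝ × ℝ}
    (hy : y ∈ F) (h1 : |w * t.1 - y.1| ≤ w * B) (h2 : |w * t.2 - y.2| ≤ w * B) :
    t ∈ nearPts F w B := by
  classical
  unfold nearPts
  rw [Finset.mem_biUnion]
  refine ⟨y, hy, ?_⟩
  have key : ∀ (z : ℤ) (u : ℝ), |w * z - u| ≤ w * B →
      z ∈ Finset.Icc ⌈u / w - B⌉ ⌊u / w + B⌋ := by
    intro z u h
    rw [abs_le] at h
    rw [Finset.mem_Icc]
    constructor
    · rw [Int.ceil_le, sub_le_iff_le_add, div_le_iff₀ hw]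
      nlinarith
    · rw [Int.le_floor, ← sub_le_iff_le_add, le_div_iff₀ hw]
      nlinarith
  rw [Finset.mem_product]
  exact ⟨key _ _ h1, key _ _ h2⟩

end TH291.NW
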