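import Pool.Agent.H973R3.NC.AsmB

/-!
The sum of the pivotal probabilities of a connection event in an arbitrary finite edge set, by a
Whitney decomposition.
-/

set_option maxHeartbeats 1000000

namespace TH291.NW

open H974 H12S H973N H973N.WHX Finset

/-- The block of size `2 ^ k` around `g` and its neighbourhood lie in the domain and off the
arcs. -/
def Good (S : Finset Edg) (I J : Set Vtx) (k : ℕ) (g : Edg) : Prop :=
  blk (((2 * 2^k : ℕ) : ℤ) * (til (2^k) g).1, ((2 * 2^k : ℕ) : ℤ) * (til (2^k) g).2)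
      (3 * (2 * 2^k)) ⊆ S ∧
    Off (((2 * 2^k : ℕ) : ℤ) * (til (2^k) g).1 - 3 * ((2 * 2^k : ℕ) : ℤ))
      (((2 * 2^k : ℕ) : ℤ) * (til (2^k) g).1 + 3 * ((2 * 2^k : ℕ) : ℤ))
      (((2 * 2^k : ℕ) : ℤ) * (til (2^k) g).2 - 3 * ((2 * 2^k : ℕ) : ℤ))
      (((2 * 2^k : ℕ) : ℤ) * (til (2^k) g).2 + 3 * ((2 * 2^k : ℕ) : ℤ)) I J

theorem CO_empty (I J : Set Vtx) : (fun F : Finset Edg => Cn I J (↑F : Set Edg)) = CO I J ∅ := by
  funext F
  unfold CO
  rw [Set.union_empty]

open Classical in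
theorem gen_sum {q κ : ℝ} {n : ℕ} (h : Win q κ n) (S : Finset Edg) (I J : Set Vtx) (K : ℕ)
    (hK : 4 * 2^K ≤ n) (T : ℕ → Finset (ℤ × ℤ)) (R : Finset Edg)
    (hR : ∀ g ∈ S, ¬ Good S I J 0 g → g ∈ R)
    (hT : ∀ g ∈ S, ∀ k ≤ K, Good S I J k g → (k < K → ¬ Good S I J (k + 1) g) →
      til (2^k) g ∈ T k) :
    ∑ g ∈ S, PQ q S (Pf (CO I J ∅) g) ≤ 3 * Real.sqrt R.card +
      784 * κ⁻¹ ^ 4 * ∑ k ∈ Finset.range (K + 1), (4:ℝ)^k * a4 q (2^k) * Real.sqrt (T k).card := by
  have h0 : 0 ≤ q := by linarith [h.lo]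
  have h1 : q ≤ 1 := by linarith [h.hi]
  have hok : Ok (fun _ : Edg => q) := fun _ => ⟨h0, h1⟩
  obtain ⟨Cl, hCl⟩ : ∃ Cl : ℕ → Finset Edg, Cl = fun k => S.filter (fun g => Good S I J k g ∧
    (k < K → ¬ Good S I J (k + 1) g)) := ⟨_, rfl⟩
  obtain ⟨R', hR'⟩ : ∃ R' : Finset Edg, R' = S.filter (fun g => ¬ Good S I J 0 g) := ⟨_, rfl⟩
  have hcover : ∀ g ∈ S, g ∈ R' ∨ ∃ k ∈ Finset.range (K + 1), g ∈ Cl k := by
    intro g hg
    by_cases hd : Good S I J 0 g
    · right
      obtain ⟨k, hk⟩ : ∃ k : ℕ, k = Nat.findGreatest (fun k => Good S I J k g) K := ⟨_, rfl⟩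
      have hkK : k ≤ K := by rw [hk]; exact Nat.findGreatest_le K
      refine ⟨k, by rw [Finset.mem_range]; omega, ?_⟩
      rw [hCl, Finset.mem_filter]
      refine ⟨hg, ?_, ?_⟩
      · have := Nat.findGreatest_spec (P := fun k => Good S I J k g) (m := 0)
          (Nat.zero_le K) hd
        rw [hk]
        exact this
      · intro hlt
        exact Nat.findGreatest_is_greatest (P := fun k => Good S I J k g)
          (n := K) (k := k + 1) (by omega) (by omega)
    · left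
      rw [hR', Finset.mem_filter]
      exact ⟨hg, hd⟩
  have hsum : ∑ g ∈ S, PQ q S (Pf (CO I J ∅) g) ≤ ∑ g ∈ R', PQ q S (Pf (CO I J ∅) g) +
      ∑ k ∈ Finset.range (K + 1), ∑ g ∈ Cl k, PQ q S (Pf (CO I J ∅) g) := by
    have e1 : ∑ g ∈ R', PQ q S (Pf (CO I J ∅) g) =
        ∑ g ∈ S, if g ∈ R' then PQ q S (Pf (CO I J ∅) g) else 0 := by
      rw [← Finset.sum_filter]
      congr 1
      ext g
      rw [hR']
      exact ⟨fun hg => Finset.mem_filter.mpr ⟨(Finset.mem_filter.mp hg).1, hg⟩,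
        fun hg => (Finset.mem_filter.mp hg).2⟩
    have e2 : ∀ k, ∑ g ∈ Cl k, PQ q S (Pf (CO I J ∅) g) =
        ∑ g ∈ S, if g ∈ Cl k then PQ q S (Pf (CO I J ∅) g) else 0 := by
      intro k
      rw [← Finset.sum_filter]
      congr 1
      ext g
      rw [hCl]
      exact ⟨fun hg => Finset.mem_filter.mpr ⟨(Finset.mem_filter.mp hg).1, hg⟩,
        fun hg => (Finset.mem_filter.mp hg).2⟩
    rw [e1, Finset.sum_congr rfl (fun k _ => e2 k), Finset.sum_comm, ← Finset.sum_add_distrib]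
    apply Finset.sum_le_sum
    intro g hg
    have hp : 0 ≤ PQ q S (Pf (CO I J ∅) g) := Pr_nonneg hok _ _
    have hnn : ∀ k, 0 ≤ (if g ∈ Cl k then PQ q S (Pf (CO I J ∅) g) else 0) := by
      intro k
      split_ifs
      · exact hp
      · exact le_rfl
    rcases hcover g hg with hg' | ⟨k, hk, hgk⟩
    · rw [if_pos hg']
      exact le_add_of_nonneg_right (Finset.sum_nonneg (fun k _ => hnn k))
    · have h5 := Finset.single_le_sum (f := fun k => if g ∈ Cl k then
        PQ q S (Pf (CO I J ∅) g) else 0) (fun k _ => hnn k) hk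
      simp only [if_pos hgk] at h5
      refine h5.trans (le_add_of_nonneg_left ?_)
      split_ifs
      · exact hp
      · exact le_rfl
  have hrest : ∑ g ∈ R', PQ q S (Pf (CO I J ∅) g) ≤ 3 * Real.sqrt R.card := by
    have hRS : R' ⊆ S := by rw [hR']; exact Finset.filter_subset _ _
    have hmono : ∀ F F' : Finset Edg, F ⊆ F' → CO I J ∅ F → CO I J ∅ F' := by
      intro F F' hF h
      refine BS_Cn_mono ?_ h
      exact Set.union_subset_union_left _ (by exact_mod_cast hF)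
    have hE := edge_sum h.lo h.hi hRS (CO I J ∅) hmono
    have hRR : R' ⊆ R := by
      intro g hg
      rw [hR', Finset.mem_filter] at hg
      exact hR g hg.1 hg.2
    refine hE.trans ?_
    have : Real.sqrt (R'.card : ℝ) ≤ Real.sqrt (R.card : ℝ) :=
      Real.sqrt_le_sqrt (by exact_mod_cast Finset.card_le_card hRR)
    linarith
  have hclass : ∀ k ∈ Finset.range (K + 1), ∑ g ∈ Cl k, PQ q S (Pf (CO I J ∅) g) ≤
      784 * κ⁻¹ ^ 4 * ((4:ℝ)^k * a4 q (2^k) * Real.sqrt (T k).card) := by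
    intro k hk
    have hkK : k ≤ K := by rw [Finset.mem_range] at hk; omega
    have hρ : 1 ≤ 2^k := Nat.one_le_two_pow
    have hKk : (2:ℕ)^k ≤ 2^K := Nat.pow_le_pow_right (by norm_num) hkK
    have hcs := class_sum h (O := ∅) (S := S) (Set.empty_disjoint _) (I := I) (J := J) hρ
      (by omega) (Cl k) ?_ ?_ (T k) ?_
    · refine hcs.trans (le_of_eq ?_)
      push_cast
      rw [show (4:ℝ)^k = ((2:ℝ)^k)^2 by
        rw [← pow_mul, mul_comm k 2, pow_mul]; norm_num]
    · intro g hg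
      rw [hCl, Finset.mem_filter] at hg
      exact hg.2.1.1
    · intro g hg
      rw [hCl, Finset.mem_filter] at hg
      exact hg.2.1.2
    · intro g hg
      rw [hCl, Finset.mem_filter] at hg
      exact hT g hg.1 k hkK hg.2.1 hg.2.2
  rw [Finset.mul_sum]
  refine hsum.trans (add_le_add hrest (Finset.sum_le_sum hclass))

end TH291.NW
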