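import Pool.Agent.W424.NC.FarB
import Pool.Agent.W424.NC.Win

/-!
A macroscopic block is pivotal for the crossing of a rectangle with positive probability.
-/

set_option maxHeartbeats 1000000

namespace TH291.NW

open H974 H12S Finset

theorem cn_lr {a b c d : ℤ} (hab : a < b) {F : Finset Edg} (hF : F ⊆ RE a b c d) :
    Cn (lsd a c d) (lsd b c d) (↑F : Set Edg) ↔ LRc a b c d F := by
  constructor
  · rintro ⟨u, hu, v, hv, h⟩
    refine LRc_of_reach hab (h.mono ?_) hu.1 hv.1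
    exact fun e he => ⟨he, Finset.mem_coe.mpr (hF (Finset.mem_coe.mp he))⟩
  · rintro ⟨y, z, hy, hz, h⟩
    exact ⟨(a, y), ⟨rfl, hy.1, hy.2⟩, (b, z), ⟨rfl, hz.1, hz.2⟩, h.mono Set.inter_subset_left⟩

theorem reach_h {G : Set Edg} {x y : ℤ} (n : ℕ)
    (h : ∀ i : ℤ, x ≤ i → i < x + n → ((i, y, true) : Edg) ∈ G) :
    Reach G (x, y) (x + (n : ℤ), y) := by
  induction n with
  | zero =>
    have e : (x + ((0:ℕ):ℤ), y) = (x, y) := by simp
    rw [e]; exact Reach.refl _ _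
  | succ n ih =>
    have h1 := ih (fun i h2 h3 => h i h2 (by push_cast; omega))
    have h2 : (((x + (n:ℤ), y, true)) : Edg) ∈ G := h (x + n) (by omega) (by push_cast; omega)
    have h3 : Adj G (x + (n:ℤ), y) (x + ((n + 1 : ℕ) : ℤ), y) := by
      refine ⟨(x + (n:ℤ), y, true), h2, Or.inl ⟨by simp, ?_⟩⟩
      rw [tgt_true]
      push_cast
      rw [add_assoc]
    exact h1.trans h3.reach

theorem reach_v {G : Set Edg} {x y : ℤ} (n : ℕ)
    (h : ∀ i : ℤ, y ≤ i → i < y + n → ((x, i, false) : Edg) ∈ G) :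
    Reach G (x, y) (x, y + (n : ℤ)) := by
  induction n with
  | zero =>
    have e : (x, y + ((0:ℕ):ℤ)) = (x, y) := by simp
    rw [e]; exact Reach.refl _ _
  | succ n ih =>
    have h1 := ih (fun i h2 h3 => h i h2 (by push_cast; omega))
    have h2 : (((x, y + (n:ℤ), false)) : Edg) ∈ G := h (y + n) (by omega) (by push_cast; omega)
    have h3 : Adj G (x, y + (n:ℤ)) (x, y + ((n + 1 : ℕ) : ℤ)) := by
      refine ⟨(x, y + (n:ℤ), false), h2, Or.inl ⟨by simp, ?_⟩⟩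
      rw [tgt_false]
      push_cast
      rw [add_assoc]
    exact h1.trans h3.reach

/-- The vertices of a full rectangle are connected. -/
theorem box_conn {a b c d : ℤ} {G : Set Edg} (hG : ↑(RE a b c d) ⊆ G) (hab : a ≤ b) {y z : ℤ}
    (hy : c ≤ y ∧ y ≤ d) (hz : c ≤ z ∧ z ≤ d) : Reach G (a, y) (b, z) := by
  have h1 : Reach G (a, y) (a, z) := by
    rcases le_total y z with h | h
    · obtain ⟨n, hn⟩ := Int.eq_ofNat_of_zero_le (sub_nonneg.mpr h)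
      have e : z = y + (n:ℤ) := by omega
      rw [e]
      apply reach_v
      intro i h2 h3
      apply hG
      rw [Finset.mem_coe, mem_RE_false]
      omega
    · obtain ⟨n, hn⟩ := Int.eq_ofNat_of_zero_le (sub_nonneg.mpr h)
      have e : y = z + (n:ℤ) := by omega
      rw [e]
      apply Reach.symm
      apply reach_v
      intro i h2 h3
      apply hG
      rw [Finset.mem_coe, mem_RE_false]
      omega
  have h2 : Reach G (a, z) (b, z) := by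
    obtain ⟨n, hn⟩ := Int.eq_ofNat_of_zero_le (sub_nonneg.mpr hab)
    have e : b = a + (n:ℤ) := by omega
    rw [e]
    apply reach_h
    intro i h2 h3
    apply hG
    rw [Finset.mem_coe, mem_RE_true]
    omega
  exact h1.trans h2

/-- No crossing of the columns of the block when the block is removed. -/
theorem no_band {a b c d : ℤ} {p : ℤ × ℤ} {ρ : ℕ} (hρ : 1 ≤ ρ) (h1 : a ≤ p.1 - ρ)
    (h2 : p.1 + ρ ≤ b) (h3 : c ≤ p.2 - ρ) (h4 : p.2 + ρ ≤ d) {F : Finset Edg}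
    (hF : F ⊆ RE a b c d) (hu : ¬ LRc (p.1 - ρ) (p.1 + ρ) (p.2 + ρ) d F)
    (hl : ¬ LRc (p.1 - ρ) (p.1 + ρ) c (p.2 - ρ) F) :
    ¬ Cn (lsd a c d) (lsd b c d) ((↑F : Set Edg) \ ↑(blk p ρ)) := by
  rintro ⟨u, hu1, v, hv1, huv⟩
  have hρ' : (1:ℤ) ≤ ρ := by exact_mod_cast hρ
  obtain ⟨y1, y2, hy1, hy2, hr, -⟩ := sub_LR (G := (↑F : Set Edg) \ ↑(blk p ρ))
    (a := p.1 - ρ) (b := p.1 + ρ) (c := c) (d := d) (by omega)
    (fun x y hG _ _ => by
      have h4 := hF (Finset.mem_coe.mp hG.1)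
      rw [mem_RE_true] at h4
      omega)
    (fun x y hG _ _ => by
      have h4 := hF (Finset.mem_coe.mp hG.1)
      rw [mem_RE_false] at h4
      omega) huv (by have := hu1.1; omega) (by have := hv1.1; omega)
  obtain ⟨G, hG⟩ : ∃ G : Set Edg, G = ((↑F : Set Edg) \ ↑(blk p ρ)) ∩
    ↑(LRE (p.1 - ρ) (p.1 + ρ) c d) := ⟨_, rfl⟩
  rw [← hG] at hr
  have blkm : ∀ e : Edg, e ∈ G → e ∈ F ∧ e ∉ RE (p.1 - ρ) (p.1 + ρ) (p.2 - ρ) (p.2 + ρ) ∧
      e ∈ LRE (p.1 - ρ) (p.1 + ρ) c d := by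
    intro e he
    rw [hG] at he
    exact ⟨Finset.mem_coe.mp he.1.1, fun h => he.1.2 (Finset.mem_coe.mpr h),
      Finset.mem_coe.mp he.2⟩
  -- heights of the two ends of an edge
  have hts : ∀ e ∈ G, (p.2 + ρ ≤ (src e).2 ∧ p.2 + ρ ≤ (tgt e).2 ∧
      e ∈ LRE (p.1 - ρ) (p.1 + ρ) (p.2 + ρ) d) ∨
      ((src e).2 ≤ p.2 - ρ ∧ (tgt e).2 ≤ p.2 - ρ ∧ e ∈ LRE (p.1 - ρ) (p.1 + ρ) c (p.2 - ρ)) := by
    rintro ⟨x, y, _ | _⟩ he
    · obtain ⟨-, k1, k2⟩ := blkm _ he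
      rw [mem_RE_false] at k1
      rw [mem_LRE_false] at k2
      rw [mem_LRE_false, mem_LRE_false, src_mk, tgt_false]
      simp only
      omega
    · obtain ⟨-, k1, k2⟩ := blkm _ he
      rw [mem_RE_true] at k1
      rw [mem_LRE_true] at k2
      rw [mem_LRE_true, mem_LRE_true, src_mk, tgt_true]
      simp only
      omega
  rcases le_or_gt (p.2 + ρ) y1 with hc1 | hc1
  · -- above
    have key : ∀ w : Vtx, Reach G (p.1 - ρ, y1) w → p.2 + ρ ≤ w.2 ∧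
        Reach (↑F ∩ ↑(LRE (p.1 - ρ) (p.1 + ρ) (p.2 + ρ) d)) (p.1 - ρ, y1) w := by
      intro w hw
      induction hw with
      | refl => exact ⟨hc1, Reach.refl _ _⟩
      | tail _ hs ih =>
        obtain ⟨e, he, hcase⟩ := hs
        rcases hts e he with hh | hh
        · have hst : Adj (↑F ∩ ↑(LRE (p.1 - ρ) (p.1 + ρ) (p.2 + ρ) d)) _ _ :=
            ⟨e, ⟨Finset.mem_coe.mpr (blkm e he).1, Finset.mem_coe.mpr hh.2.2⟩, hcase⟩
          refine ⟨?_, ih.2.trans hst.reach⟩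
          rcases hcase with ⟨e1, e2⟩ | ⟨e1, e2⟩
          · rw [← e2]; exact hh.2.1
          · rw [← e1]; exact hh.1
        · exfalso
          have := ih.1
          rcases hcase with ⟨e1, e2⟩ | ⟨e1, e2⟩
          · rw [← e1] at this; omega
          · rw [← e2] at this; omega
    obtain ⟨k1, k2⟩ := key _ hr
    exact hu ⟨y1, y2, ⟨hc1, hy1.2⟩, ⟨k1, hy2.2⟩, k2⟩
  · rcases le_or_gt y1 (p.2 - ρ) with hc2 | hc2
    · have key : ∀ w : Vtx, Reach G (p.1 - ρ, y1) w → w.2 ≤ p.2 - ρ ∧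
          Reach (↑F ∩ ↑(LRE (p.1 - ρ) (p.1 + ρ) c (p.2 - ρ))) (p.1 - ρ, y1) w := by
        intro w hw
        induction hw with
        | refl => exact ⟨hc2, Reach.refl _ _⟩
        | tail _ hs ih =>
          obtain ⟨e, he, hcase⟩ := hs
          rcases hts e he with hh | hh
          · exfalso
            have := ih.1
            rcases hcase with ⟨e1, e2⟩ | ⟨e1, e2⟩
            · rw [← e1] at this; omega
            · rw [← e2] at this; omega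
          · have hst : Adj (↑F ∩ ↑(LRE (p.1 - ρ) (p.1 + ρ) c (p.2 - ρ))) _ _ :=
              ⟨e, ⟨Finset.mem_coe.mpr (blkm e he).1, Finset.mem_coe.mpr hh.2.2⟩, hcase⟩
            refine ⟨?_, ih.2.trans hst.reach⟩
            rcases hcase with ⟨e1, e2⟩ | ⟨e1, e2⟩
            · rw [← e2]; exact hh.2.1
            · rw [← e1]; exact hh.1
      obtain ⟨k1, k2⟩ := key _ hr
      exact hl ⟨y1, y2, ⟨hy1.1, hc2⟩, ⟨hy2.1, k1⟩, k2⟩
    · have key : ∀ w : Vtx, Reach G (p.1 - ρ, y1) w → w = (p.1 - ρ, y1) := by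
        intro w hw
        induction hw with
        | refl => rfl
        | tail _ hs ih =>
          obtain ⟨e, he, hcase⟩ := hs
          rw [ih] at hcase
          exfalso
          rcases hts e he with hh | hh
          · rcases hcase with ⟨e1, e2⟩ | ⟨e1, e2⟩
            · rw [e1] at hh; simp only at hh; omega
            · rw [e2] at hh; simp only at hh; omega
          · rcases hcase with ⟨e1, e2⟩ | ⟨e1, e2⟩
            · rw [e1] at hh; simp only at hh; omega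
            · rw [e2] at hh; simp only at hh; omega
      have := congrArg Prod.fst (key _ hr)
      simp only at this
      omega

theorem bpv_of {a b c d : ℤ} {p : ℤ × ℤ} {ρ : ℕ} (hρ : 1 ≤ ρ) (h1 : a ≤ p.1 - ρ)
    (h2 : p.1 + ρ ≤ b) (h3 : c ≤ p.2 - ρ) (h4 : p.2 + ρ ≤ d) {F : Finset Edg}
    (hF : F ⊆ RE a b c d) (k1 : LRc a (p.1 - ρ) (p.2 - ρ) (p.2 + ρ) F)
    (k2 : LRc (p.1 + ρ) b (p.2 - ρ) (p.2 + ρ) F)
    (hu : ¬ LRc (p.1 - ρ) (p.1 + ρ) (p.2 + ρ) d F)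
    (hl : ¬ LRc (p.1 - ρ) (p.1 + ρ) c (p.2 - ρ) F) :
    BPv (lsd a c d) (lsd b c d) (blk p ρ) (↑F : Set Edg) := by
  refine ⟨?_, no_band hρ h1 h2 h3 h4 hF hu hl⟩
  obtain ⟨y, z, hy, hz, m1⟩ := k1
  obtain ⟨y', z', hy', hz', m2⟩ := k2
  refine ⟨(a, y), ⟨rfl, by omega, by omega⟩, (b, z'), ⟨rfl, by omega, by omega⟩, ?_⟩
  have e1 : Reach ((↑F : Set Edg) ∪ ↑(blk p ρ)) (a, y) (p.1 - ρ, z) :=
    m1.mono (Set.inter_subset_left.trans Set.subset_union_left)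
  have e2 : Reach ((↑F : Set Edg) ∪ ↑(blk p ρ)) (p.1 + ρ, y') (b, z') :=
    m2.mono (Set.inter_subset_left.trans Set.subset_union_left)
  have e3 : Reach ((↑F : Set Edg) ∪ ↑(blk p ρ)) (p.1 - ρ, z) (p.1 + ρ, y') := by
    refine box_conn (c := p.2 - ρ) (d := p.2 + ρ) ?_ (by omega) hz hy'
    exact Set.subset_union_right
  exact e1.trans (e3.trans e2)

/-- The probability that a block is pivotal, from below. -/
theorem bpv_prob {q : ℝ} (h0 : 0 ≤ q) (hq1 : q ≤ 1) {a b c d : ℤ} {p : ℤ × ℤ} {ρ : ℕ}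
    (hρ : 1 ≤ ρ) (h1 : a < p.1 - ρ) (h2 : p.1 + ρ < b) (h3 : c < p.2 - ρ) (h4 : p.2 + ρ < d) :
    (hh q (p.1 - ρ - a) (2 * ρ) * hh q (b - (p.1 + ρ)) (2 * ρ)) *
      ((1 - hh q (2 * ρ) (d - (p.2 + ρ))) * (1 - hh q (2 * ρ) (p.2 - ρ - c))) ≤
    PQ q (RE a b c d) (fun F => BPv (lsd a c d) (lsd b c d) (blk p ρ) ↑F) := by
  classical
  have ok := okq h0 hq1
  have hρ' : (1:ℤ) ≤ ρ := by exact_mod_cast hρ
  obtain ⟨U, hU⟩ : ∃ U : Finset Edg, U = RE a b c d := ⟨_, rfl⟩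
  have sub : ∀ {a' b' c' d' : ℤ}, a ≤ a' → b' ≤ b → c ≤ c' → d' ≤ d →
      LRE a' b' c' d' ⊆ U := by
    intro a' b' c' d' g1 g2 g3 g4
    rw [hU]
    rintro ⟨x, y, _ | _⟩ he
    · rw [mem_LRE_false] at he
      rw [mem_RE_false]
      omega
    · rw [mem_LRE_true] at he
      rw [mem_RE_true]
      omega
  obtain ⟨S1, hS1⟩ : ∃ S : Finset Edg, S = LRE a (p.1 - ρ) (p.2 - ρ) (p.2 + ρ) := ⟨_, rfl⟩
  obtain ⟨S2, hS2⟩ : ∃ S : Finset Edg, S = LRE (p.1 + ρ) b (p.2 - ρ) (p.2 + ρ) := ⟨_, rfl⟩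
  obtain ⟨S3, hS3⟩ : ∃ S : Finset Edg, S = LRE (p.1 - ρ) (p.1 + ρ) (p.2 + ρ) d := ⟨_, rfl⟩
  obtain ⟨S4, hS4⟩ : ∃ S : Finset Edg, S = LRE (p.1 - ρ) (p.1 + ρ) c (p.2 - ρ) := ⟨_, rfl⟩
  have s1 : S1 ⊆ U := by rw [hS1]; exact sub le_rfl (by omega) (by omega) (by omega)
  have s2 : S2 ⊆ U := by rw [hS2]; exact sub (by omega) le_rfl (by omega) (by omega)
  have s3 : S3 ⊆ U := by rw [hS3]; exact sub (by omega) (by omega) (by omega) le_rfl
  have s4 : S4 ⊆ U := by rw [hS4]; exact sub (by omega) (by omega) le_rfl (by omega)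
  have hd : Disjoint (S1 ∪ S2) (S3 ∪ S4) := by
    rw [Finset.disjoint_left, hS1, hS2, hS3, hS4]
    rintro ⟨x, y, _ | _⟩ he he'
    · simp only [Finset.mem_union, mem_LRE_false] at he he'
      omega
    · simp only [Finset.mem_union, mem_LRE_true] at he he'
      omega
  have l1 : ∀ F, F ⊆ U → (LRc a (p.1 - ρ) (p.2 - ρ) (p.2 + ρ) F ↔
      LRc a (p.1 - ρ) (p.2 - ρ) (p.2 + ρ) (F ∩ (S1 ∪ S2))) := fun F _ =>
    LRc_local (by rw [hS1]; exact Finset.subset_union_left)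
  have l2 : ∀ F, F ⊆ U → (LRc (p.1 + ρ) b (p.2 - ρ) (p.2 + ρ) F ↔
      LRc (p.1 + ρ) b (p.2 - ρ) (p.2 + ρ) (F ∩ (S1 ∪ S2))) := fun F _ =>
    LRc_local (by rw [hS2]; exact Finset.subset_union_right)
  have l3 : ∀ F, F ⊆ U → (LRc (p.1 - ρ) (p.1 + ρ) (p.2 + ρ) d F ↔
      LRc (p.1 - ρ) (p.1 + ρ) (p.2 + ρ) d (F ∩ (S3 ∪ S4))) := fun F _ =>
    LRc_local (by rw [hS3]; exact Finset.subset_union_left)
  have l4 : ∀ F, F ⊆ U → (LRc (p.1 - ρ) (p.1 + ρ) c (p.2 - ρ) F ↔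
      LRc (p.1 - ρ) (p.1 + ρ) c (p.2 - ρ) (F ∩ (S3 ∪ S4))) := fun F _ =>
    LRc_local (by rw [hS4]; exact Finset.subset_union_right)
  have hind := Pr_indep (p := fun _ : Edg => q) (U := U) (Finset.union_subset s1 s2)
    (Finset.union_subset s3 s4) hd
    (A := fun F => LRc a (p.1 - ρ) (p.2 - ρ) (p.2 + ρ) F ∧
      LRc (p.1 + ρ) b (p.2 - ρ) (p.2 + ρ) F)
    (B := fun F => ¬ LRc (p.1 - ρ) (p.1 + ρ) (p.2 + ρ) d F ∧
      ¬ LRc (p.1 - ρ) (p.1 + ρ) c (p.2 - ρ) F)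
    (fun F hF => and_congr (l1 F hF) (l2 F hF))
    (fun F hF => and_congr (not_congr (l3 F hF)) (not_congr (l4 F hF)))
  have hA : hh q (p.1 - ρ - a) (2 * ρ) * hh q (b - (p.1 + ρ)) (2 * ρ) ≤
      Pr (fun _ => q) U (fun F => LRc a (p.1 - ρ) (p.2 - ρ) (p.2 + ρ) F ∧
        LRc (p.1 + ρ) b (p.2 - ρ) (p.2 + ρ) F) := by
    have e1 := pr_LRc q (a := a) (b := p.1 - ρ) (c := p.2 - ρ) (d := p.2 + ρ) (S := U)
      (by rw [← hS1]; exact s1)
    have e2 := pr_LRc q (a := p.1 + ρ) (b := b) (c := p.2 - ρ) (d := p.2 + ρ) (S := U)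
      (by rw [← hS2]; exact s2)
    have e3 : (p.2 + ρ - (p.2 - ρ) : ℤ) = 2 * ρ := by ring
    rw [e3] at e1 e2
    rw [← e1, ← e2]
    exact Pr_harris ok (LRc_incr U _ _ _ _) (LRc_incr U _ _ _ _)
  have hB : (1 - hh q (2 * ρ) (d - (p.2 + ρ))) * (1 - hh q (2 * ρ) (p.2 - ρ - c)) ≤
      Pr (fun _ => q) U (fun F => ¬ LRc (p.1 - ρ) (p.1 + ρ) (p.2 + ρ) d F ∧
        ¬ LRc (p.1 - ρ) (p.1 + ρ) c (p.2 - ρ) F) := by
    have e1 := pr_LRc q (a := p.1 - ρ) (b := p.1 + ρ) (c := p.2 + ρ) (d := d) (S := U)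
      (by rw [← hS3]; exact s3)
    have e2 := pr_LRc q (a := p.1 - ρ) (b := p.1 + ρ) (c := c) (d := p.2 - ρ) (S := U)
      (by rw [← hS4]; exact s4)
    have e3 : (p.1 + ρ - (p.1 - ρ) : ℤ) = 2 * ρ := by ring
    rw [e3] at e1 e2
    rw [← e1, ← e2]
    obtain ⟨X, hX⟩ : ∃ X : Finset Edg → Prop, X = LRc (p.1 - ρ) (p.1 + ρ) (p.2 + ρ) d := ⟨_, rfl⟩
    obtain ⟨Y, hY⟩ : ∃ Y : Finset Edg → Prop, Y = LRc (p.1 - ρ) (p.1 + ρ) c (p.2 - ρ) := ⟨_, rfl⟩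
    have hXi : IncrE U X := by rw [hX]; exact LRc_incr U _ _ _ _
    have hYi : IncrE U Y := by rw [hY]; exact LRc_incr U _ _ _ _
    rw [← hX, ← hY]
    have a1 := Pr_harris ok hXi hYi
    have a2 : Pr (fun _ => q) U (fun F => ¬ X F ∧ ¬ Y F) =
        1 - Pr (fun _ => q) U X - Pr (fun _ => q) U Y +
          Pr (fun _ => q) U (fun F => X F ∧ Y F) := by
      unfold Pr
      have : ∀ F : Finset Edg, ind (¬ X F ∧ ¬ Y F) = (1 - ind (X F)) - ind (Y F) +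
          ind (X F ∧ Y F) := by
        intro F
        rw [ind_and, ind_and, ind_not, ind_not]
        ring
      rw [Ex_congr (fun F _ => this F), Ex_add, Ex_sub, Ex_sub, Ex_const]
    rw [a2]
    nlinarith
  have hsum : Pr (fun _ => q) U (fun F => (LRc a (p.1 - ρ) (p.2 - ρ) (p.2 + ρ) F ∧
      LRc (p.1 + ρ) b (p.2 - ρ) (p.2 + ρ) F) ∧ (¬ LRc (p.1 - ρ) (p.1 + ρ) (p.2 + ρ) d F ∧
      ¬ LRc (p.1 - ρ) (p.1 + ρ) c (p.2 - ρ) F)) ≤
      PQ q (RE a b c d) (fun F => BPv (lsd a c d) (lsd b c d) (blk p ρ) ↑F) := by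
    unfold PQ
    rw [← hU]
    apply Pr_mono ok
    rintro F hF ⟨⟨g1, g2⟩, g3, g4⟩
    exact bpv_of hρ h1.le h2.le h3.le h4.le (by rw [← hU]; exact hF) g1 g2 g3 g4
  refine le_trans ?_ hsum
  rw [hind]
  refine mul_le_mul hA hB ?_ (Pr_nonneg ok _ _)
  exact mul_nonneg (by linarith [hh_le_one h0 hq1 (2 * ρ) (d - (p.2 + ρ))])
    (by linarith [hh_le_one h0 hq1 (2 * ρ) (p.2 - ρ - c)])

end TH291.NW
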