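import Pool.Agent.TH291.NW.Low1
import Pool.Agent.H973R3.NC.AsmB

/-!
The derivative of the crossing probability of a rectangle in the near-critical window, from below.
-/

set_option maxHeartbeats 1000000

namespace TH291.NW

open H974 H12S H973N Finset

/-- Crossing probabilities of rectangles of bounded aspect ratio in the window. -/
theorem rsw (K : ℕ) (hK : 1 ≤ K) : ∃ c : ℝ, 0 < c ∧ ∀ n : ℕ, 1 ≤ n → ∀ q : ℝ, 1/4 ≤ q →
    q ≤ 3/4 → |q - 1/2| ≤ (n:ℝ) ^ (-(3/4 : ℝ)) → ∀ w h : ℕ, 1 ≤ w → 1 ≤ h → w ≤ K * h →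
    h ≤ K * w → w ≤ K * n → c ≤ hh q w h ∧ c ≤ 1 - hh q w h := by
  obtain ⟨c1, C1, hc1, hC1, h1⟩ := Pool.Agent.W424.NC.win_lower K hK
  obtain ⟨c2, C2, hc2, hC2, h2⟩ := Pool.Agent.W424.NC.win_lower_dual K hK
  refine ⟨min (c1 * Real.exp (-(C1 * K))) (c2 * Real.exp (-(C2 * K))),
    lt_min (by positivity) (by positivity), ?_⟩
  intro n hn q hq1 hq2 hqn w h hw hh1 hwh hhw hwn
  have hn0 : (0:ℝ) < n := by exact_mod_cast hn
  have key : ∀ s : ℝ, 0 ≤ s → s ≤ |q - 1/2| → (w:ℝ) * s ^ (4/3 : ℝ) ≤ K := by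
    intro s hs0 hs
    have e1 : s ^ (4/3 : ℝ) ≤ ((n:ℝ) ^ (-(3/4 : ℝ))) ^ (4/3 : ℝ) :=
      Real.rpow_le_rpow hs0 (hs.trans hqn) (by norm_num)
    rw [← Real.rpow_mul hn0.le] at e1
    have e2 : (n:ℝ) ^ (-(3/4 : ℝ) * (4/3)) = (n:ℝ)⁻¹ := by
      rw [← Real.rpow_neg_one]
      congr 1
      norm_num
    rw [e2] at e1
    have e3 : (w:ℝ) ≤ K * n := by exact_mod_cast hwn
    calc (w:ℝ) * s ^ (4/3 : ℝ) ≤ (K * n) * (n:ℝ)⁻¹ :=
          mul_le_mul e3 e1 (Real.rpow_nonneg hs0 _) (by positivity)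
      _ = K := by field_simp
  have low : ∀ s : ℝ, 0 ≤ s → s ≤ |q - 1/2| →
      min (c1 * Real.exp (-(C1 * K))) (c2 * Real.exp (-(C2 * K))) ≤
        c1 * Real.exp (-(C1 * (w * s ^ (4/3 : ℝ)))) ∧
      min (c1 * Real.exp (-(C1 * K))) (c2 * Real.exp (-(C2 * K))) ≤
        c2 * Real.exp (-(C2 * (w * s ^ (4/3 : ℝ)))) := by
    intro s hs0 hs
    have k := key s hs0 hs
    constructor
    · refine (min_le_left _ _).trans (mul_le_mul_of_nonneg_left (Real.exp_le_exp.mpr ?_) hc1.le)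
      have := mul_le_mul_of_nonneg_left k hC1.le
      linarith
    · refine (min_le_right _ _).trans (mul_le_mul_of_nonneg_left (Real.exp_le_exp.mpr ?_) hc2.le)
      have := mul_le_mul_of_nonneg_left k hC2.le
      linarith
  have hhalf1 := h1 (1/2) (by norm_num) le_rfl w h hw hh1 hwh hhw
  have hhalf2 := h2 (1/2) (by norm_num) le_rfl w h hw hh1 hwh hhw
  have eh : (1:ℝ) - 1/2 = 1/2 := by norm_num
  rw [sub_self] at hhalf1 hhalf2
  rw [eh] at hhalf2
  have l0 := low 0 le_rfl (abs_nonneg _)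
  rcases le_total q (1/2) with hq | hq
  · constructor
    · have hs := low (1/2 - q) (by linarith) (by rw [abs_sub_comm, abs_of_nonneg (by linarith)])
      exact hs.1.trans (h1 q hq1 hq w h hw hh1 hwh hhw)
    · have m := hh_mono_param (p := q) (q := 1/2) (by linarith) hq (by norm_num) (w:ℤ) h
      linarith [l0.2]
  · constructor
    · have m := hh_mono_param (p := 1/2) (q := q) (by norm_num) hq (by linarith) (w:ℤ) h
      linarith [l0.1]
    · have hs := low (q - 1/2) (by linarith) (le_abs_self _)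
      have e := h2 (1 - q) (by linarith) (by linarith) w h hw hh1 hwh hhw
      have e1 : (1:ℝ)/2 - (1 - q) = q - 1/2 := by ring
      have e2 : (1:ℝ) - (1 - q) = q := by ring
      rw [e1, e2] at e
      exact hs.2.trans e

/-- The derivative of the probability of an increasing event is at least its variance. -/
theorem poinc {E : Type*} [DecidableEq E] (S : Finset E) :
    ∀ f : Finset E → Prop, (∀ F G : Finset E, F ⊆ G → f F → f G) → ∀ q : ℝ, 0 ≤ q → q ≤ 1 →
      ∀ d : ℝ, HasDerivAt (fun q : ℝ => Pr (fun _ => q) S f) d q →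
      Pr (fun _ => q) S f * (1 - Pr (fun _ => q) S f) ≤ d := by
  induction S using Finset.induction_on with
  | empty =>
    intro f hf q h0 h1 d hd
    have e : (fun q : ℝ => Pr (fun _ : E => q) ∅ f) = fun _ => ind (f ∅) := by
      funext q
      unfold Pr
      rw [Ex_empty]
    rw [e] at hd
    have hd0 : d = 0 := hd.unique (hasDerivAt_const q _)
    have e2 : Pr (fun _ : E => q) ∅ f = ind (f ∅) := by
      unfold Pr
      rw [Ex_empty]
    rw [hd0, e2]
    have := ind_sq (f ∅)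
    nlinarith
  | insert a S ha ih =>
    intro f hf q h0 h1 d hd
    have ok : Ok (fun _ : E => q) := fun _ => ⟨h0, h1⟩
    have hg : ∀ F G : Finset E, F ⊆ G → f (insert a F) → f (insert a G) := fun F G hFG h =>
      hf _ _ (Finset.insert_subset_insert a hFG) h
    have dA := deriv_f S (fun F => f (insert a F)) hg q
    have dB := deriv_f S f hf q
    obtain ⟨A', hA'⟩ : ∃ A' : ℝ, A' = ∑ e ∈ S, Pr (fun _ => q) S (Pf (fun F => f (insert a F)) e) :=
      ⟨_, rfl⟩
    obtain ⟨B', hB'⟩ : ∃ B' : ℝ, B' = ∑ e ∈ S, Pr (fun _ => q) S (Pf f e) := ⟨_, rfl⟩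
    rw [← hA'] at dA
    rw [← hB'] at dB
    obtain ⟨A, hA⟩ : ∃ A : ℝ, A = Pr (fun _ => q) S (fun F => f (insert a F)) := ⟨_, rfl⟩
    obtain ⟨B, hB⟩ : ∃ B : ℝ, B = Pr (fun _ => q) S f := ⟨_, rfl⟩
    have iA := ih _ hg q h0 h1 _ dA
    have iB := ih f hf q h0 h1 _ dB
    have e : (fun q : ℝ => Pr (fun _ : E => q) (insert a S) f) = fun q : ℝ =>
        q * Pr (fun _ => q) S (fun F => f (insert a F)) + (1 - q) * Pr (fun _ => q) S f := by
      funext q
      unfold Pr
      rw [Ex_insert _ ha]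
    have hd2 : HasDerivAt (fun q : ℝ => Pr (fun _ : E => q) (insert a S) f)
        (1 * A + q * A' + ((0 - 1) * B + (1 - q) * B')) q := by
      rw [e, hA, hB]
      exact ((hasDerivAt_id q).mul dA).add (((hasDerivAt_const q (1:ℝ)).sub
        (hasDerivAt_id q)).mul dB)
    have hdd := hd.unique hd2
    have ev := congrFun e q
    rw [hdd, ev, ← hA, ← hB]
    rw [← hA] at iA
    rw [← hB] at iB
    have hAB : B ≤ A := by
      rw [hA, hB]
      apply Pr_mono ok
      intro F _ hF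
      exact hf _ _ (Finset.subset_insert a F) hF
    have hA1 : A ≤ 1 := by rw [hA]; exact Pr_le_one ok _ _
    have hB0 : 0 ≤ B := by rw [hB]; exact Pr_nonneg ok _ _
    have h3 : (q * A + (1 - q) * B) * (1 - (q * A + (1 - q) * B)) =
        q * (A * (1 - A)) + (1 - q) * (B * (1 - B)) + q * (1 - q) * (A - B)^2 := by ring
    rw [h3]
    have h4 : q * (A * (1 - A)) ≤ q * A' := mul_le_mul_of_nonneg_left iA h0
    have h5 : (1 - q) * (B * (1 - B)) ≤ (1 - q) * B' :=
      mul_le_mul_of_nonneg_left iB (by linarith)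
    have h6 : q * (1 - q) * (A - B)^2 ≤ A - B := by
      have i1 : (A - B)^2 ≤ A - B := by nlinarith
      have i2 : q * (1 - q) ≤ 1 := by nlinarith
      have i3 : 0 ≤ q * (1 - q) := mul_nonneg h0 (by linarith)
      calc q * (1 - q) * (A - B)^2 ≤ 1 * (A - B)^2 :=
            mul_le_mul_of_nonneg_right i2 (sq_nonneg _)
        _ ≤ A - B := by linarith
    linarith

/-- The derivative of the crossing probability of a rectangle. -/
theorem hh_piv (q : ℝ) {a b c d : ℤ} (hab : a < b) :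
    HasDerivAt (fun q : ℝ => hh q (b - a) (d - c))
      (∑ e ∈ RE a b c d, PQ q (RE a b c d) (fun F => Pv (lsd a c d) (lsd b c d) e ↑F)) q := by
  have e : (fun q : ℝ => hh q (b - a) (d - c)) =
      fun q : ℝ => Pr (fun _ => q) (RE a b c d) (fun F => Cn (lsd a c d) (lsd b c d) (↑F : Set Edg))
      := by
    funext q
    rw [← pr_LRc q (LRE_subset_RE (a := a) (b := b) (c := c) (d := d))]
    apply Pr_congr
    intro F hF
    exact (cn_lr hab hF).symm
  rw [e]
  have h := Ex_hasDerivAt (fun (q : ℝ) (_ : Edg) => q) (fun _ => 1) q (fun _ => hasDerivAt_id q)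
    (RE a b c d) (fun F => ind (Cn (lsd a c d) (lsd b c d) (↑F : Set Edg)))
  simp only [one_mul] at h
  have h2 : (∑ e ∈ RE a b c d, Ex (fun _ => q) ((RE a b c d).erase e) fun F =>
      ind (Cn (lsd a c d) (lsd b c d) (↑(insert e F) : Set Edg)) -
        ind (Cn (lsd a c d) (lsd b c d) (↑F : Set Edg))) =
      ∑ e ∈ RE a b c d, PQ q (RE a b c d) (fun F => Pv (lsd a c d) (lsd b c d) e ↑F) :=
    Finset.sum_congr rfl fun e he => FBB_pv q _ _ _ e he
  rw [h2] at h
  exact h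

theorem hh_poinc {q : ℝ} (h0 : 0 ≤ q) (h1 : q ≤ 1) {w h : ℤ} {d : ℝ}
    (hd : HasDerivAt (fun q : ℝ => hh q w h) d q) : hh q w h * (1 - hh q w h) ≤ d := by
  have e : ∀ q : ℝ, hh q w h = Pr (fun _ => q) (RE 0 w 0 h) (LRc 0 w 0 h) := by
    intro q
    rw [pr_LRc q (LRE_subset_RE (a := 0) (b := w) (c := 0) (d := h)), sub_zero, sub_zero]
  have e2 : (fun q : ℝ => hh q w h) = fun q => Pr (fun _ => q) (RE 0 w 0 h) (LRc 0 w 0 h) :=
    funext e
  rw [e2] at hd
  rw [e]
  exact poinc (RE 0 w 0 h) (LRc 0 w 0 h) (fun F G hFG hF => hF.mono hFG) q h0 h1 d hd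

end TH291.NW
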