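import Pool.Agent.TH291.NW.Low3

/-!
The scaling window of the crossing probabilities of rectangles, lower bound.
-/

set_option maxHeartbeats 2000000

namespace TH291.NW

open H974 H12S H973N Finset Pool.Agent.W424.NC

theorem deriv_low (K : ℕ) (hK : 1 ≤ K) : ∃ b c : ℝ, 0 < b ∧ b ≤ 1/4 ∧ 0 < c ∧
    ∀ w h : ℕ, 1 ≤ w → 1 ≤ h → w ≤ K * h → h ≤ K * w → ∀ q : ℝ,
      |q - 1/2| ≤ b * (w:ℝ) ^ (-(3/4 : ℝ)) →
      ∃ d : ℝ, HasDerivAt (fun q : ℝ => hh q w h) d q ∧ c * (w:ℝ) ^ (3/4 : ℝ) ≤ d := by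
  obtain ⟨κ, b0, c0, C0, hκ, hb0, hc0, hC0, hnear⟩ := nearS
  obtain ⟨b, hb⟩ : ∃ b : ℝ, b = min b0 (1/4) := ⟨_, rfl⟩
  have hbpos : 0 < b := by rw [hb]; exact lt_min hb0 (by norm_num)
  have hbb0 : b ≤ b0 := by rw [hb]; exact min_le_left _ _
  have hb4 : b ≤ 1/4 := by rw [hb]; exact min_le_right _ _
  have hN : NearP b c0 C0 := fun n hn q hq => (hnear n hn q (hq.trans
    (mul_le_mul_of_nonneg_right hbb0 (by positivity)))).2
  have hWn : ∀ n : ℕ, 1 ≤ n → ∀ q : ℝ, |q - 1/2| ≤ b * (n:ℝ) ^ (-(3/4 : ℝ)) →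
      H12S.Win q κ n := fun n hn q hq => (hnear n hn q (hq.trans
    (mul_le_mul_of_nonneg_right hbb0 (by positivity)))).1
  obtain ⟨c1, hc1, hrsw⟩ := rsw (32 * K) (by omega)
  obtain ⟨δ, hδ⟩ : ∃ δ : ℝ, δ = c1^4 / 2 := ⟨_, rfl⟩
  have hδ0 : 0 < δ := by rw [hδ]; positivity
  obtain ⟨B, Mr, Ci, hB, hMr, hCi, hin⟩ := inward_scale hκ hbpos hc0 hN hWn hδ0
  have hBr : (2:ℝ) ≤ B := by exact_mod_cast hB
  have hKr : (1:ℝ) ≤ K := by exact_mod_cast hK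
  have hMrr : (1:ℝ) ≤ Mr := by exact_mod_cast hMr
  refine ⟨b, min (δ / (Ci * (32 * K * B))) (c1^2 / (16 * K * B * Mr)), hbpos, hb4,
    lt_min (by positivity) (by positivity), ?_⟩
  intro w h hw hh1 hwh hhw q hq
  have hwr : (1:ℝ) ≤ w := by exact_mod_cast hw
  have hw0 : (0:ℝ) < w := by linarith
  have hwn1 : (w:ℝ) ^ (-(3/4 : ℝ)) ≤ 1 := Real.rpow_le_one_of_one_le_of_nonpos hwr (by norm_num)
  have hwn0 : 0 < (w:ℝ) ^ (-(3/4 : ℝ)) := by positivity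
  have hq4 : |q - 1/2| ≤ 1/4 := by
    refine hq.trans ?_
    calc b * (w:ℝ) ^ (-(3/4 : ℝ)) ≤ 1/4 * 1 := mul_le_mul hb4 hwn1 hwn0.le (by norm_num)
      _ = 1/4 := by norm_num
  have hq1' : |q - 1/2| ≤ (w:ℝ) ^ (-(3/4 : ℝ)) := by
    refine hq.trans ?_
    nlinarith
  obtain ⟨hql, hqu⟩ := abs_le.mp hq4
  have hqa : 1/4 ≤ q := by linarith
  have hqb : q ≤ 3/4 := by linarith
  have h0 : 0 ≤ q := by linarith
  have h1 : q ≤ 1 := by linarith
  have hpiv := hh_piv q (a := 0) (b := w) (c := 0) (d := h) (by exact_mod_cast hw)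
  obtain ⟨Sg, hSg⟩ : ∃ Sg : ℝ, Sg = ∑ e ∈ RE 0 (w:ℤ) 0 h, PQ q (RE 0 (w:ℤ) 0 h)
    (fun F => Pv (lsd 0 0 h) (lsd (w:ℤ) 0 h) e ↑F) := ⟨_, rfl⟩
  rw [← hSg, sub_zero, sub_zero] at hpiv
  refine ⟨Sg, hpiv, ?_⟩
  have hw34 : 0 < (w:ℝ) ^ (3/4 : ℝ) := by positivity
  obtain ⟨μ, hμ⟩ : ∃ μ : ℕ, μ = min w h := ⟨_, rfl⟩
  have hμw : μ ≤ w := by rw [hμ]; exact min_le_left _ _
  have hμh : μ ≤ h := by rw [hμ]; exact min_le_right _ _
  have hwμ : w ≤ K * μ := by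
    rcases le_total w h with g | g
    · rw [hμ, min_eq_left g]; exact Nat.le_mul_of_pos_left _ (by omega)
    · rw [hμ, min_eq_right g]; exact hwh
  have hhμ : h ≤ K * μ := by
    rcases le_total w h with g | g
    · rw [hμ, min_eq_left g]; exact hhw
    · rw [hμ, min_eq_right g]; exact Nat.le_mul_of_pos_left _ (by omega)
  obtain ⟨r, hr⟩ : ∃ r : ℕ, r = μ / (16 * B) := ⟨_, rfl⟩
  have hB16 : 0 < 16 * B := by omega
  have hμr : μ < 16 * B * (r + 1) := by rw [hr]; exact Nat.lt_mul_div_succ _ hB16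
  have hrμ : 16 * B * r ≤ μ := by rw [hr]; exact Nat.mul_div_le μ (16 * B)
  rcases le_or_gt Mr r with hc | hc
  · -- large rectangles
    have hr1 : 1 ≤ r := hMr.trans hc
    obtain ⟨s, hs⟩ : ∃ s : ℕ, s = B * r := ⟨_, rfl⟩
    have hs16 : 16 * s ≤ μ := by rw [hs]; rw [mul_assoc] at hrμ; exact hrμ
    have hμs : μ < 32 * s := by
      have e1 : 16 * B * (r + 1) ≤ 16 * B * (2 * r) := Nat.mul_le_mul_left _ (by omega)
      have e2 : 16 * B * (2 * r) = 32 * s := by rw [hs]; ring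
      omega
    have hs2 : 2 ≤ s := by
      rw [hs]
      calc 2 = 2 * 1 := rfl
        _ ≤ B * r := Nat.mul_le_mul hB hr1
    obtain ⟨ρ, hρ⟩ : ∃ ρ : ℕ, ρ = s - 1 := ⟨_, rfl⟩
    have hρ1 : 1 ≤ ρ := by omega
    have hKs : K * μ ≤ 32 * K * (2 * ρ) := by
      have e1 : K * μ ≤ K * (32 * (2 * ρ)) := Nat.mul_le_mul_left _ (by omega)
      calc K * μ ≤ K * (32 * (2 * ρ)) := e1
        _ = _ := by ring
    have hK32 : ∀ x : ℕ, x ≤ 32 * K * x := fun x => Nat.le_mul_of_pos_left _ (by omega)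
    -- the four rectangles
    have r1 := hrsw w hw q hqa hqb hq1' (w / 2 - ρ) (2 * ρ) (by omega) (by omega)
      (by omega) (le_trans (by omega) (hK32 (w / 2 - ρ))) (le_trans (by omega) (hK32 w))
    have r2 := hrsw w hw q hqa hqb hq1' (w - (w / 2 + ρ)) (2 * ρ) (by omega) (by omega)
      (by omega) (le_trans (by omega) (hK32 (w - (w / 2 + ρ)))) (le_trans (by omega) (hK32 w))
    have r3 := hrsw w hw q hqa hqb hq1' (2 * ρ) (h - (h / 2 + ρ)) (by omega) (by omega)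
      (le_trans (by omega) (hK32 (h - (h / 2 + ρ)))) (by omega) (le_trans (by omega) (hK32 w))
    have r4 := hrsw w hw q hqa hqb hq1' (2 * ρ) (h / 2 - ρ) (by omega) (by omega)
      (le_trans (by omega) (hK32 (h / 2 - ρ))) (by omega) (le_trans (by omega) (hK32 w))
    obtain ⟨p, hp⟩ : ∃ p : ℤ × ℤ, p = (((w / 2 : ℕ) : ℤ), ((h / 2 : ℕ) : ℤ)) := ⟨_, rfl⟩
    have hp1 : p.1 = ((w / 2 : ℕ) : ℤ) := by rw [hp]
    have hp2 : p.2 = ((h / 2 : ℕ) : ℤ) := by rw [hp]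
    have hbp := bpv_prob h0 h1 (a := 0) (b := w) (c := 0) (d := h) (p := p) (ρ := ρ) hρ1
      (by rw [hp1]; omega) (by rw [hp1]; omega) (by rw [hp2]; omega) (by rw [hp2]; omega)
    have t1 : p.1 - ρ - 0 = ((w / 2 - ρ : ℕ) : ℤ) := by rw [hp1]; omega
    have t2 : (w:ℤ) - (p.1 + ρ) = ((w - (w / 2 + ρ) : ℕ) : ℤ) := by rw [hp1]; omega
    have t3 : (h:ℤ) - (p.2 + ρ) = ((h - (h / 2 + ρ) : ℕ) : ℤ) := by rw [hp2]; omega
    have t4 : p.2 - ρ - 0 = ((h / 2 - ρ : ℕ) : ℤ) := by rw [hp2]; omega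
    have t5 : (2 * (ρ:ℤ)) = ((2 * ρ : ℕ) : ℤ) := by push_cast; ring
    rw [t1, t2, t3, t4, t5] at hbp
    obtain ⟨P, hP⟩ : ∃ P : ℝ, P = PQ q (RE 0 (w:ℤ) 0 h)
      (fun F => BPv (lsd 0 0 h) (lsd (w:ℤ) 0 h) (blk p ρ) ↑F) := ⟨_, rfl⟩
    rw [← hP] at hbp
    have hPlow : c1^4 ≤ P := by
      refine le_trans ?_ hbp
      have e : c1^4 = (c1 * c1) * (c1 * c1) := by ring
      rw [e]
      refine mul_le_mul ?_ ?_ (by positivity) ?_
      · exact mul_le_mul r1.1 r2.1 hc1.le (hc1.le.trans r1.1)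
      · exact mul_le_mul r3.2 r4.2 hc1.le (hc1.le.trans r3.2)
      · exact mul_nonneg (hc1.le.trans r1.1) (hc1.le.trans r2.1)
    have hmain := hin w hw q hq r hc (by rw [← hs]; omega) 0 w 0 h p
      (by rw [← hs, hp1]; omega) (by rw [← hs, hp1]; omega) (by rw [← hs, hp2]; omega)
      (by rw [← hs, hp2]; omega)
    rw [← hs, ← hρ, ← hP, ← hSg] at hmain
    have hPδ : δ ≤ P - δ := by rw [hδ]; linarith
    have hr34 : (w:ℝ) ^ (3/4 : ℝ) ≤ (32 * K * B) * (r:ℝ) ^ (3/4 : ℝ) := by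
      have e1 : (w:ℝ) ≤ (32 * K * B) * r := by
        have : w ≤ K * (32 * s) := hwμ.trans (Nat.mul_le_mul_left _ hμs.le)
        have e2 : (w:ℝ) ≤ ((K * (32 * s) : ℕ) : ℝ) := by exact_mod_cast this
        rw [hs] at e2
        push_cast at e2
        linarith
      have e2 := Real.rpow_le_rpow hw0.le e1 (by norm_num : (0:ℝ) ≤ 3/4)
      rw [Real.mul_rpow (by positivity) (by positivity)] at e2
      refine e2.trans (mul_le_mul_of_nonneg_right ?_ (by positivity))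
      have e3 : (1:ℝ) ≤ 32 * K * B := by nlinarith
      calc (32 * (K:ℝ) * B) ^ (3/4 : ℝ) ≤ (32 * (K:ℝ) * B) ^ (1:ℝ) :=
            Real.rpow_le_rpow_of_exponent_le e3 (by norm_num)
        _ = _ := Real.rpow_one _
    have hr0 : 0 ≤ (r:ℝ) ^ (3/4 : ℝ) := by positivity
    have e5 : δ * (r:ℝ) ^ (3/4 : ℝ) ≤ Ci * Sg :=
      (mul_le_mul_of_nonneg_right hPδ hr0).trans hmain
    calc min (δ / (Ci * (32 * K * B))) (c1^2 / (16 * K * B * Mr)) * (w:ℝ) ^ (3/4 : ℝ)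
        ≤ δ / (Ci * (32 * K * B)) * ((32 * K * B) * (r:ℝ) ^ (3/4 : ℝ)) :=
          mul_le_mul (min_le_left _ _) hr34 hw34.le (by positivity)
      _ = (δ * (r:ℝ) ^ (3/4 : ℝ)) / Ci := by field_simp
      _ ≤ Sg := by rw [div_le_iff₀ hCi]; linarith
  · -- small rectangles
    have hw16 : (w:ℝ) ≤ 16 * K * B * Mr := by
      have e1 : w ≤ K * (16 * B * Mr) := by
        refine hwμ.trans (Nat.mul_le_mul_left _ ?_)
        exact hμr.le.trans (Nat.mul_le_mul_left _ (by omega))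
      have e2 : (w:ℝ) ≤ ((K * (16 * B * Mr) : ℕ) : ℝ) := by exact_mod_cast e1
      push_cast at e2
      linarith
    have hr := hrsw w hw q hqa hqb hq1' w h hw hh1
      (hwh.trans (Nat.mul_le_mul_right _ (by omega)))
      (hhw.trans (Nat.mul_le_mul_right _ (by omega))) (Nat.le_mul_of_pos_left _ (by omega))
    have hpo := hh_poinc h0 h1 (w := w) (h := h) hpiv
    have e3 : c1^2 ≤ Sg := by
      refine le_trans ?_ hpo
      rw [sq]
      exact mul_le_mul hr.1 hr.2 hc1.le (hc1.le.trans hr.1)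
    have e4 : (w:ℝ) ^ (3/4 : ℝ) ≤ 16 * K * B * Mr := by
      refine le_trans ?_ hw16
      calc (w:ℝ) ^ (3/4 : ℝ) ≤ (w:ℝ) ^ (1:ℝ) :=
            Real.rpow_le_rpow_of_exponent_le hwr (by norm_num)
        _ = _ := Real.rpow_one _
    calc min (δ / (Ci * (32 * K * B))) (c1^2 / (16 * K * B * Mr)) * (w:ℝ) ^ (3/4 : ℝ)
        ≤ c1^2 / (16 * K * B * Mr) * (16 * K * B * Mr) :=
          mul_le_mul (min_le_right _ _) e4 hw34.le (by positivity)
      _ = c1^2 := by field_simp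
      _ ≤ Sg := e3

/-- The crossing probabilities of rectangles move by at least `min 1 (|q - 1/2| w^(3/4))`. -/
theorem cross_low (K : ℕ) (hK : 1 ≤ K) : ∃ c : ℝ, 0 < c ∧
    ∀ w h : ℕ, 1 ≤ w → 1 ≤ h → w ≤ K * h → h ≤ K * w → ∀ q : ℝ, 0 ≤ q → q ≤ 1 →
      c * min 1 (|q - 1/2| * (w:ℝ) ^ (3/4 : ℝ)) ≤ |hh q w h - hh (1/2) w h| := by
  obtain ⟨b, c, hb, hb4, hc, hder⟩ := deriv_low K hK
  refine ⟨min c (c * b), lt_min hc (by positivity), ?_⟩
  intro w h hw hh1 hwh hhw q h0 h1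
  have hwr : (1:ℝ) ≤ w := by exact_mod_cast hw
  have hw0 : (0:ℝ) < w := by linarith
  have hwn1 : (w:ℝ) ^ (-(3/4 : ℝ)) ≤ 1 := Real.rpow_le_one_of_one_le_of_nonpos hwr (by norm_num)
  have hwn0 : 0 < (w:ℝ) ^ (-(3/4 : ℝ)) := by positivity
  have hww : (w:ℝ) ^ (-(3/4 : ℝ)) * (w:ℝ) ^ (3/4 : ℝ) = 1 := by
    rw [← Real.rpow_add hw0]; norm_num
  have hder' := hder w h hw hh1 hwh hhw
  -- in the window, above and below
  have key : ∀ x y : ℝ, x ≤ y → |x - 1/2| ≤ b * (w:ℝ) ^ (-(3/4 : ℝ)) →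
      |y - 1/2| ≤ b * (w:ℝ) ^ (-(3/4 : ℝ)) →
      c * (w:ℝ) ^ (3/4 : ℝ) * (y - x) ≤ hh y w h - hh x w h := by
    intro x y hxy hx hy
    have hin : ∀ t ∈ Set.Icc x y, |t - 1/2| ≤ b * (w:ℝ) ^ (-(3/4 : ℝ)) := by
      intro t ht
      rw [abs_le] at hx hy ⊢
      exact ⟨by linarith [ht.1], by linarith [ht.2]⟩
    have hmono : MonotoneOn (fun t : ℝ => hh t w h - c * (w:ℝ) ^ (3/4 : ℝ) * t)
        (Set.Icc x y) := by
      have hD : ∀ t ∈ Set.Icc x y, ∃ d : ℝ,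
          HasDerivAt (fun t : ℝ => hh t w h - c * (w:ℝ) ^ (3/4 : ℝ) * t) d t ∧ 0 ≤ d := by
        intro t ht
        obtain ⟨d, hd1, hd2⟩ := hder' t (hin t ht)
        have e := hd1.sub ((hasDerivAt_id t).const_mul (c * (w:ℝ) ^ (3/4 : ℝ)))
        refine ⟨_, e, ?_⟩
        rw [mul_one]
        linarith
      apply monotoneOn_of_deriv_nonneg (convex_Icc x y)
      · intro t ht
        obtain ⟨d, hd1, -⟩ := hD t ht
        exact hd1.continuousAt.continuousWithinAt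
      · intro t ht
        obtain ⟨d, hd1, -⟩ := hD t (interior_subset ht)
        exact hd1.differentiableAt.differentiableWithinAt
      · intro t ht
        obtain ⟨d, hd1, hd2⟩ := hD t (interior_subset ht)
        rw [hd1.deriv]
        exact hd2
    have := hmono (Set.left_mem_Icc.mpr hxy) (Set.right_mem_Icc.mpr hxy) hxy
    simp only at this
    linarith
  have hhalf : |(1/2 : ℝ) - 1/2| ≤ b * (w:ℝ) ^ (-(3/4 : ℝ)) := by
    rw [sub_self, abs_zero]; positivity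
  have hmin : min c (c * b) ≤ c := min_le_left _ _
  have hmin2 : min c (c * b) ≤ c * b := min_le_right _ _
  have hmin0 : 0 < min c (c * b) := lt_min hc (by positivity)
  have bnd : b * (w:ℝ) ^ (-(3/4 : ℝ)) ≤ 1/4 := by
    calc b * (w:ℝ) ^ (-(3/4 : ℝ)) ≤ 1/4 * 1 := mul_le_mul hb4 hwn1 hwn0.le (by norm_num)
      _ = 1/4 := by norm_num
  have hx0 : 0 < b * (w:ℝ) ^ (-(3/4 : ℝ)) := by positivity
  have hcb : c * b = c * (w:ℝ) ^ (3/4 : ℝ) * (b * (w:ℝ) ^ (-(3/4 : ℝ))) := by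
    calc c * b = c * b * ((w:ℝ) ^ (-(3/4 : ℝ)) * (w:ℝ) ^ (3/4 : ℝ)) := by rw [hww, mul_one]
      _ = _ := by ring
  rcases le_total q (1/2) with hq | hq
  · -- below
    have hab : |q - 1/2| = 1/2 - q := by rw [abs_sub_comm, abs_of_nonneg (by linarith)]
    have hm : hh q w h ≤ hh (1/2) w h := hh_mono_param h0 hq (by norm_num) _ _
    have hab2 : |hh q w h - hh (1/2) w h| = hh (1/2) w h - hh q w h := by
      rw [abs_sub_comm]
      exact abs_of_nonneg (by linarith)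
    rw [hab2]
    rcases le_or_gt |q - 1/2| (b * (w:ℝ) ^ (-(3/4 : ℝ))) with hin | hout
    · have k := key q (1/2) hq hin hhalf
      calc min c (c * b) * min 1 (|q - 1/2| * (w:ℝ) ^ (3/4 : ℝ))
          ≤ c * (|q - 1/2| * (w:ℝ) ^ (3/4 : ℝ)) :=
            mul_le_mul hmin (min_le_right _ _) (by positivity) hc.le
        _ = c * (w:ℝ) ^ (3/4 : ℝ) * (1/2 - q) := by rw [hab]; ring
        _ ≤ _ := k
    · obtain ⟨x, hx⟩ : ∃ x : ℝ, x = 1/2 - b * (w:ℝ) ^ (-(3/4 : ℝ)) := ⟨_, rfl⟩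
      have hxin : |x - 1/2| ≤ b * (w:ℝ) ^ (-(3/4 : ℝ)) := by
        rw [hx]
        have : (1/2 - b * (w:ℝ) ^ (-(3/4 : ℝ)) - 1/2 : ℝ) = -(b * (w:ℝ) ^ (-(3/4 : ℝ))) := by ring
        rw [this, abs_neg, abs_of_pos hx0]
      have k := key x (1/2) (by rw [hx]; linarith) hxin hhalf
      have hm2 : hh q w h ≤ hh x w h := by
        apply hh_mono_param h0 _ (by rw [hx]; linarith)
        rw [hx]
        rw [hab] at hout
        linarith
      have hk2 : c * (w:ℝ) ^ (3/4 : ℝ) * (1/2 - x) = c * b := by rw [hx, hcb]; ring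
      rw [hk2] at k
      calc min c (c * b) * min 1 (|q - 1/2| * (w:ℝ) ^ (3/4 : ℝ))
          ≤ (c * b) * 1 := mul_le_mul hmin2 (min_le_left _ _) (by positivity) (by positivity)
        _ ≤ _ := by linarith
  · -- above
    have hab : |q - 1/2| = q - 1/2 := abs_of_nonneg (by linarith)
    have hm : hh (1/2) w h ≤ hh q w h := hh_mono_param (by norm_num) hq h1 _ _
    rw [abs_of_nonneg (by linarith : 0 ≤ hh q w h - hh (1/2) w h)]
    rcases le_or_gt |q - 1/2| (b * (w:ℝ) ^ (-(3/4 : ℝ))) with hin | hout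
    · have k := key (1/2) q hq hhalf hin
      calc min c (c * b) * min 1 (|q - 1/2| * (w:ℝ) ^ (3/4 : ℝ))
          ≤ c * (|q - 1/2| * (w:ℝ) ^ (3/4 : ℝ)) :=
            mul_le_mul hmin (min_le_right _ _) (by positivity) hc.le
        _ = c * (w:ℝ) ^ (3/4 : ℝ) * (q - 1/2) := by rw [hab]; ring
        _ ≤ _ := k
    · obtain ⟨x, hx⟩ : ∃ x : ℝ, x = 1/2 + b * (w:ℝ) ^ (-(3/4 : ℝ)) := ⟨_, rfl⟩
      have hxin : |x - 1/2| ≤ b * (w:ℝ) ^ (-(3/4 : ℝ)) := by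
        rw [hx]
        have : (1/2 + b * (w:ℝ) ^ (-(3/4 : ℝ)) - 1/2 : ℝ) = b * (w:ℝ) ^ (-(3/4 : ℝ)) := by ring
        rw [this, abs_of_pos hx0]
      have k := key (1/2) x (by rw [hx]; linarith) hhalf hxin
      have hm2 : hh x w h ≤ hh q w h := by
        apply hh_mono_param (by rw [hx]; linarith) _ h1
        rw [hx]
        rw [hab] at hout
        linarith
      have hk2 : c * (w:ℝ) ^ (3/4 : ℝ) * (x - 1/2) = c * b := by rw [hx, hcb]; ring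
      rw [hk2] at k
      calc min c (c * b) * min 1 (|q - 1/2| * (w:ℝ) ^ (3/4 : ℝ))
          ≤ (c * b) * 1 := mul_le_mul hmin2 (min_le_left _ _) (by positivity) (by positivity)
        _ ≤ _ := by linarith

end TH291.NW
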