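import Pool.Agent.TH291.NW.Stb
import Pool.Agent.TH291.NW.Low4

/-!
Near-critical stability in rectangles and in slit rectangles.
-/

set_option maxHeartbeats 1000000

namespace TH291.NW

open H974 H12S H973N H973N.WHX Finset

theorem Cov.mono {B B' : Set (ℝ × ℝ)} {M M' s : ℝ} (h : B' ⊆ B) (hM : M ≤ M') (hB : Cov B M s) :
    Cov B' M' s := by
  intro r hr hr1
  obtain ⟨F, h1, h2⟩ := hB r hr hr1
  exact ⟨F, h1.trans (mul_le_mul_of_nonneg_right hM (Real.rpow_nonneg hr.le _)),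
    fun x hx => h2 x (h hx)⟩

theorem Cov.union {B B' : Set (ℝ × ℝ)} {M M' s : ℝ} (hB : Cov B M s) (hB' : Cov B' M' s) :
    Cov (B ∪ B') (M + M') s := by
  classical
  intro r hr hr1
  obtain ⟨F, h1, h2⟩ := hB r hr hr1
  obtain ⟨F', h1', h2'⟩ := hB' r hr hr1
  refine ⟨F ∪ F', ?_, ?_⟩
  · have h3 : ((F ∪ F').card : ℝ) ≤ F.card + F'.card := by
      exact_mod_cast Finset.card_union_le F F'
    rw [add_mul]
    linarith
  · rintro x (hx | hx)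
    · obtain ⟨y, hy, hd⟩ := h2 x hx
      exact ⟨y, Finset.mem_union_left _ hy, hd⟩
    · obtain ⟨y, hy, hd⟩ := h2' x hx
      exact ⟨y, Finset.mem_union_right _ hy, hd⟩

/-- Curves of finite length. -/
theorem cov_param {f : ℝ → ℝ × ℝ} (hf : ∀ s t, dist (f s) (f t) ≤ |s - t|) {b c ℓ : ℝ}
    (hℓ : c - b ≤ ℓ) (hℓ0 : 0 ≤ ℓ) : Cov (f '' Set.Icc b c) (ℓ + 1) 1 := by
  classical
  intro r hr hr1
  refine ⟨(Finset.range (⌊ℓ / r⌋₊ + 1)).image (fun k : ℕ => f (b + k * r)), ?_, ?_⟩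
  · have h1 : (((Finset.range (⌊ℓ / r⌋₊ + 1)).image (fun k : ℕ => f (b + k * r))).card : ℝ) ≤
        ((⌊ℓ / r⌋₊ + 1 : ℕ) : ℝ) := by
      have := Finset.card_image_le (s := Finset.range (⌊ℓ / r⌋₊ + 1))
        (f := fun k : ℕ => f (b + k * r))
      rw [Finset.card_range] at this
      exact_mod_cast this
    refine h1.trans ?_
    push_cast
    have h2 : (⌊ℓ / r⌋₊ : ℝ) ≤ ℓ / r := Nat.floor_le (by positivity)
    have h3 : (1:ℝ) ≤ 1 / r := by rw [le_div_iff₀ hr]; linarith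
    rw [Real.rpow_neg_one, ← div_eq_mul_inv, add_div]
    linarith
  · rintro x ⟨t, ht, rfl⟩
    have h0 : 0 ≤ (t - b) / r := div_nonneg (by linarith [ht.1]) hr.le
    refine ⟨f (b + (⌊(t - b) / r⌋₊ : ℕ) * r), ?_, ?_⟩
    · rw [Finset.mem_image]
      refine ⟨⌊(t - b) / r⌋₊, ?_, rfl⟩
      rw [Finset.mem_range, Nat.lt_succ_iff]
      apply Nat.floor_le_floor
      apply div_le_div_of_nonneg_right _ hr.le
      linarith [ht.2]
    · refine (hf _ _).trans ?_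
      have h1 : (⌊(t - b) / r⌋₊ : ℝ) ≤ (t - b) / r := Nat.floor_le h0
      have h2 : (t - b) / r < ⌊(t - b) / r⌋₊ + 1 := Nat.lt_floor_add_one _
      rw [le_div_iff₀ hr] at h1
      rw [div_lt_iff₀ hr] at h2
      rw [abs_le]
      constructor <;> linarith

/-- The domain: a rectangle with sides parallel to the diagonals, with a slit. Coordinates in units
of the mesh `1/W`; the slit is between the columns `σ` and `σ + 1`, above the height `η`. -/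
def Dm (W : ℕ) (c1 c2 h1 h2 σ η : ℤ) : Set (ℝ × ℝ) :=
  {x | (c1 - 1/2 < W * (x.1 - x.2) ∧ W * (x.1 - x.2) < c2 + 1/2) ∧
    (h1 - 1/2 < W * (x.1 + x.2) ∧ W * (x.1 + x.2) < h2 + 1/2) ∧
    ¬ (W * (x.1 - x.2) = σ + 1/2 ∧ (η:ℝ) ≤ W * (x.1 + x.2))}

/-- Points with given column, param. by the height. -/
noncomputable def fc (W : ℕ) (c : ℝ) (t : ℝ) : ℝ × ℝ := ((c + t) / (2 * W), (t - c) / (2 * W))

/-- Points with given height, param. by the column. -/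
noncomputable def fh (W : ℕ) (c : ℝ) (t : ℝ) : ℝ × ℝ := ((c + t) / (2 * W), (c - t) / (2 * W))

/-- A set which contains the frontier of `Dm`. -/
def Bm (W : ℕ) (c1 c2 h1 h2 σ η : ℤ) : Set (ℝ × ℝ) :=
  {x | ((W * (x.1 - x.2) = (c1:ℝ) - 1/2 ∨ W * (x.1 - x.2) = (c2:ℝ) + 1/2) ∧
      ((h1:ℝ) - 1/2 ≤ W * (x.1 + x.2) ∧ W * (x.1 + x.2) ≤ (h2:ℝ) + 1/2)) ∨
    ((W * (x.1 + x.2) = (h1:ℝ) - 1/2 ∨ W * (x.1 + x.2) = (h2:ℝ) + 1/2) ∧
      ((c1:ℝ) - 1/2 ≤ W * (x.1 - x.2) ∧ W * (x.1 - x.2) ≤ (c2:ℝ) + 1/2)) ∨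
    (W * (x.1 - x.2) = (σ:ℝ) + 1/2 ∧
      ((h1:ℝ) - 1/2 ≤ W * (x.1 + x.2) ∧ W * (x.1 + x.2) ≤ (h2:ℝ) + 1/2))}

theorem fr_Dm (W : ℕ) (c1 c2 h1 h2 σ η : ℤ) :
    frontier (Dm W c1 c2 h1 h2 σ η) ⊆ Bm W c1 c2 h1 h2 σ η := by
  intro x hx
  have cu : Continuous fun x : ℝ × ℝ => (W:ℝ) * (x.1 - x.2) := by fun_prop
  have cv : Continuous fun x : ℝ × ℝ => (W:ℝ) * (x.1 + x.2) := by fun_prop
  -- the closed rectangle contains the closure
  have hcl : x ∈ {x : ℝ × ℝ | ((c1:ℝ) - 1/2 ≤ W * (x.1 - x.2) ∧ W * (x.1 - x.2) ≤ (c2:ℝ) + 1/2) ∧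
      ((h1:ℝ) - 1/2 ≤ W * (x.1 + x.2) ∧ W * (x.1 + x.2) ≤ (h2:ℝ) + 1/2)} := by
    have hclosed : IsClosed {x : ℝ × ℝ | ((c1:ℝ) - 1/2 ≤ W * (x.1 - x.2) ∧
        W * (x.1 - x.2) ≤ (c2:ℝ) + 1/2) ∧
        ((h1:ℝ) - 1/2 ≤ W * (x.1 + x.2) ∧ W * (x.1 + x.2) ≤ (h2:ℝ) + 1/2)} :=
      ((isClosed_le continuous_const cu).inter (isClosed_le cu continuous_const)).inter
        ((isClosed_le continuous_const cv).inter (isClosed_le cv continuous_const))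
    refine closure_minimal ?_ hclosed hx.1
    rintro y ⟨⟨k1, k2⟩, ⟨k3, k4⟩, -⟩
    exact ⟨⟨k1.le, k2.le⟩, ⟨k3.le, k4.le⟩⟩
  obtain ⟨⟨k1, k2⟩, k3, k4⟩ := hcl
  by_contra hB
  unfold Bm at hB
  rw [Set.mem_setOf_eq] at hB
  push Not at hB
  obtain ⟨b1, b2, b3⟩ := hB
  have s1 : (c1:ℝ) - 1/2 < W * (x.1 - x.2) := lt_of_le_of_ne k1 (fun e => by
    have := b1 (Or.inl e.symm) k3
    linarith)
  have s2 : W * (x.1 - x.2) < (c2:ℝ) + 1/2 := lt_of_le_of_ne k2 (fun e => by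
    have := b1 (Or.inr e) k3
    linarith)
  have s3 : (h1:ℝ) - 1/2 < W * (x.1 + x.2) := lt_of_le_of_ne k3 (fun e => by
    have := b2 (Or.inl e.symm) k1
    linarith)
  have s4 : W * (x.1 + x.2) < (h2:ℝ) + 1/2 := lt_of_le_of_ne k4 (fun e => by
    have := b2 (Or.inr e) k1
    linarith)
  have s5 : W * (x.1 - x.2) ≠ (σ:ℝ) + 1/2 := fun e => by
    have := b3 e k3
    linarith
  apply hx.2
  have hopen : IsOpen {x : ℝ × ℝ | (((c1:ℝ) - 1/2 < W * (x.1 - x.2) ∧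
      W * (x.1 - x.2) < (c2:ℝ) + 1/2) ∧
      ((h1:ℝ) - 1/2 < W * (x.1 + x.2) ∧ W * (x.1 + x.2) < (h2:ℝ) + 1/2)) ∧
      W * (x.1 - x.2) ≠ (σ:ℝ) + 1/2} :=
    (((isOpen_lt continuous_const cu).inter (isOpen_lt cu continuous_const)).inter
      ((isOpen_lt continuous_const cv).inter (isOpen_lt cv continuous_const))).inter
      (isOpen_ne.preimage cu)
  rw [mem_interior]
  refine ⟨_, ?_, hopen, ⟨⟨⟨s1, s2⟩, ⟨s3, s4⟩⟩, s5⟩⟩
  rintro y ⟨⟨⟨k1, k2⟩, ⟨k3, k4⟩⟩, k5⟩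
  exact ⟨⟨k1, k2⟩, ⟨k3, k4⟩, fun k => k5 k.1⟩

/-- A segment of slope one, in units of the mesh, is short in the plane. -/
theorem cov_seg {W : ℕ} (hW : 1 ≤ W) {f : ℝ → ℝ × ℝ}
    (hf : ∀ s t, dist (f s) (f t) ≤ |s - t| / (2 * W)) {b c ℓ : ℝ} (hℓ : c - b ≤ ℓ * W)
    (hℓ0 : 0 ≤ ℓ) : Cov (f '' Set.Icc b c) (ℓ + 1) 1 := by
  have hWr : (1:ℝ) ≤ W := by exact_mod_cast hW
  have h := cov_param (f := fun u => f (u * W)) (b := b / W) (c := c / W) (ℓ := ℓ)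
    (fun s t => by
      refine (hf _ _).trans ?_
      rw [← sub_mul, abs_mul, abs_of_pos (by linarith : (0:ℝ) < W), div_le_iff₀ (by linarith)]
      nlinarith [mul_nonneg (abs_nonneg (s - t)) (by linarith : (0:ℝ) ≤ W)])
    (by rw [← sub_div, div_le_iff₀ (by linarith)]; exact hℓ) hℓ0
  refine Cov.mono ?_ le_rfl h
  rintro x ⟨t, ht, rfl⟩
  refine ⟨t / W, ⟨?_, ?_⟩, ?_⟩
  · exact div_le_div_of_nonneg_right ht.1 (by linarith)
  · exact div_le_div_of_nonneg_right ht.2 (by linarith)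
  · simp only
    rw [div_mul_cancel₀ _ (by linarith)]

theorem lip_fc' {W : ℕ} (hW : 1 ≤ W) (c : ℝ) (s t : ℝ) :
    dist (fc W c s) (fc W c t) ≤ |s - t| / (2 * W) := by
  have hWr : (1:ℝ) ≤ W := by exact_mod_cast hW
  have key : |(s - t) / (2 * (W:ℝ))| ≤ |s - t| / (2 * W) := by
    rw [abs_div, abs_of_pos (by linarith : (0:ℝ) < 2 * W)]
  rw [Prod.dist_eq, max_le_iff, Real.dist_eq, Real.dist_eq]
  constructor
  · have e : (fc W c s).1 - (fc W c t).1 = (s - t) / (2 * (W:ℝ)) := by unfold fc; ring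
    rw [e]; exact key
  · have e : (fc W c s).2 - (fc W c t).2 = (s - t) / (2 * (W:ℝ)) := by unfold fc; ring
    rw [e]; exact key

theorem lip_fh' {W : ℕ} (hW : 1 ≤ W) (c : ℝ) (s t : ℝ) :
    dist (fh W c s) (fh W c t) ≤ |s - t| / (2 * W) := by
  have hWr : (1:ℝ) ≤ W := by exact_mod_cast hW
  have key : |(s - t) / (2 * (W:ℝ))| ≤ |s - t| / (2 * W) := by
    rw [abs_div, abs_of_pos (by linarith : (0:ℝ) < 2 * W)]
  rw [Prod.dist_eq, max_le_iff, Real.dist_eq, Real.dist_eq]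
  constructor
  · have e : (fh W c s).1 - (fh W c t).1 = (s - t) / (2 * (W:ℝ)) := by unfold fh; ring
    rw [e]; exact key
  · have e : (fh W c s).2 - (fh W c t).2 = -((s - t) / (2 * (W:ℝ))) := by unfold fh; ring
    rw [e, abs_neg]; exact key

theorem cov_Bm {W : ℕ} (hW : 1 ≤ W) {c1 c2 h1 h2 σ η : ℤ} {L : ℕ} (hc : c2 - c1 + 1 ≤ L * W)
    (hh : h2 - h1 + 1 ≤ L * W) : Cov (Bm W c1 c2 h1 h2 σ η) (5 * (L + 1)) 1 := by
  have hWr : (1:ℝ) ≤ W := by exact_mod_cast hW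
  have hcr : (c2:ℝ) - c1 + 1 ≤ L * W := by exact_mod_cast hc
  have hhr : (h2:ℝ) - h1 + 1 ≤ L * W := by exact_mod_cast hh
  have s1 : ∀ c : ℝ, Cov (fc W c '' Set.Icc ((h1:ℝ) - 1/2) ((h2:ℝ) + 1/2)) (L + 1) 1 := fun c =>
    cov_seg hW (lip_fc' hW c) (by linarith) (Nat.cast_nonneg L)
  have s2 : ∀ c : ℝ, Cov (fh W c '' Set.Icc ((c1:ℝ) - 1/2) ((c2:ℝ) + 1/2)) (L + 1) 1 := fun c =>
    cov_seg hW (lip_fh' hW c) (by linarith) (Nat.cast_nonneg L)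
  have hall := ((((s1 ((c1:ℝ) - 1/2)).union (s1 ((c2:ℝ) + 1/2))).union
    (s2 ((h1:ℝ) - 1/2))).union (s2 ((h2:ℝ) + 1/2))).union (s1 ((σ:ℝ) + 1/2))
  have hW2 : (2 * (W:ℝ)) ≠ 0 := by linarith
  have efc : ∀ x : ℝ × ℝ, fc W (W * (x.1 - x.2)) (W * (x.1 + x.2)) = x := by
    intro x
    unfold fc
    refine Prod.ext ?_ ?_
    · simp only
      field_simp
      ring
    · simp only
      field_simp
      ring
  have efh : ∀ x : ℝ × ℝ, fh W (W * (x.1 + x.2)) (W * (x.1 - x.2)) = x := by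
    intro x
    unfold fh
    refine Prod.ext ?_ ?_
    · simp only
      field_simp
      ring
    · simp only
      field_simp
      ring
  refine hall.mono ?_ (by ring_nf; exact le_rfl)
  rintro x (⟨h | h, h'⟩ | ⟨h | h, h'⟩ | ⟨h, h'⟩)
  · exact Or.inl (Or.inl (Or.inl (Or.inl ⟨_, h', by rw [← h]; exact efc x⟩)))
  · exact Or.inl (Or.inl (Or.inl (Or.inr ⟨_, h', by rw [← h]; exact efc x⟩)))
  · exact Or.inl (Or.inl (Or.inr ⟨_, h', by rw [← h]; exact efh x⟩))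
  · exact Or.inl (Or.inr ⟨_, h', by rw [← h]; exact efh x⟩)
  · exact Or.inr ⟨_, h', by rw [← h]; exact efc x⟩

/-- The marked vertices of the domain are near the frontier. -/
theorem near_Bm {W : ℕ} (hW : 1 ≤ W) {c1 c2 h1 h2 σ η : ℤ} {v : ℤ × ℤ}
    (hv1 : c1 ≤ v.1 - v.2 ∧ v.1 - v.2 ≤ c2) (hv2 : h1 ≤ v.1 + v.2 ∧ v.1 + v.2 ≤ h2)
    (hv : v.1 - v.2 = c1 ∨ v.1 - v.2 = c2 ∨ v.1 + v.2 = h1 ∨ v.1 + v.2 = h2 ∨ v.1 - v.2 = σ) :
    ∃ x ∈ Bm W c1 c2 h1 h2 σ η, dist x (pt (1 / W) v) ≤ 1 * (1 / (W:ℝ)) := by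
  have hWr : (1:ℝ) ≤ W := by exact_mod_cast hW
  have hW0 : (W:ℝ) ≠ 0 := by linarith
  obtain ⟨u, hu⟩ : ∃ u : ℝ, u = (v.1:ℝ) - v.2 := ⟨_, rfl⟩
  obtain ⟨t, ht⟩ : ∃ t : ℝ, t = (v.1:ℝ) + v.2 := ⟨_, rfl⟩
  have a1 : (c1:ℝ) ≤ u := by rw [hu]; exact_mod_cast hv1.1
  have a2 : u ≤ c2 := by rw [hu]; exact_mod_cast hv1.2
  have a3 : (h1:ℝ) ≤ t := by rw [ht]; exact_mod_cast hv2.1
  have a4 : t ≤ h2 := by rw [ht]; exact_mod_cast hv2.2
  have key : ∀ u' t' : ℝ, |u' - u| ≤ 1/2 → |t' - t| ≤ 1/2 →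
      dist (fc W u' t') (pt (1 / W) v) ≤ 1 * (1 / (W:ℝ)) := by
    intro u' t' hu' ht'
    rw [abs_le] at hu' ht'
    rw [dist_pt, one_mul]
    unfold fc
    simp only
    constructor
    · have e : (u' + t') / (2 * (W:ℝ)) - 1 / W * v.1 = ((u' - u) + (t' - t)) / 2 * (1 / W) := by
        rw [hu, ht]; field_simp; ring
      rw [e, abs_mul, abs_of_pos (by positivity : (0:ℝ) < 1 / W)]
      apply mul_le_of_le_one_left (by positivity)
      rw [abs_le]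
      constructor <;> linarith
    · have e : (t' - u') / (2 * (W:ℝ)) - 1 / W * v.2 = ((t' - t) - (u' - u)) / 2 * (1 / W) := by
        rw [hu, ht]; field_simp; ring
      rw [e, abs_mul, abs_of_pos (by positivity : (0:ℝ) < 1 / W)]
      apply mul_le_of_le_one_left (by positivity)
      rw [abs_le]
      constructor <;> linarith
  have m1 : ∀ u' t' : ℝ, (W:ℝ) * ((fc W u' t').1 - (fc W u' t').2) = u' := by
    intro u' t'; unfold fc; simp only; field_simp; ring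
  have m2 : ∀ u' t' : ℝ, (W:ℝ) * ((fc W u' t').1 + (fc W u' t').2) = t' := by
    intro u' t'; unfold fc; simp only; field_simp; ring
  have z0 : |t - t| ≤ 1/2 := by rw [sub_self, abs_zero]; norm_num
  have z0' : |u - u| ≤ 1/2 := by rw [sub_self, abs_zero]; norm_num
  rcases hv with h | h | h | h | h
  · have e : u = c1 := by rw [hu]; exact_mod_cast h
    refine ⟨fc W (c1 - 1/2) t, ?_, key _ _ (by rw [e, abs_le]; constructor <;> linarith) z0⟩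
    left
    rw [m1, m2]
    exact ⟨Or.inl rfl, by linarith, by linarith⟩
  · have e : u = c2 := by rw [hu]; exact_mod_cast h
    refine ⟨fc W (c2 + 1/2) t, ?_, key _ _ (by rw [e, abs_le]; constructor <;> linarith) z0⟩
    left
    rw [m1, m2]
    exact ⟨Or.inr rfl, by linarith, by linarith⟩
  · have e : t = h1 := by rw [ht]; exact_mod_cast h
    refine ⟨fc W u (h1 - 1/2), ?_, key _ _ z0' (by rw [e, abs_le]; constructor <;> linarith)⟩
    right; left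
    rw [m1, m2]
    exact ⟨Or.inl rfl, by linarith, by linarith⟩
  · have e : t = h2 := by rw [ht]; exact_mod_cast h
    refine ⟨fc W u (h2 + 1/2), ?_, key _ _ z0' (by rw [e, abs_le]; constructor <;> linarith)⟩
    right; left
    rw [m1, m2]
    exact ⟨Or.inr rfl, by linarith, by linarith⟩
  · have e : u = σ := by rw [hu]; exact_mod_cast h
    refine ⟨fc W (σ + 1/2) t, ?_, key _ _ (by rw [e, abs_le]; constructor <;> linarith) z0⟩
    right; right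
    rw [m1, m2]
    exact ⟨rfl, by linarith, by linarith⟩

end TH291.NW
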