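import Pool.Agent.TH291.NW.Poly

/-!
Near-critical stability in diagonal rectangles with a slit.
-/

set_option maxHeartbeats 1000000

namespace TH291.NW

open H974 H12S H973N H973N.WHX Finset

/-- The vertex is in the diagonal rectangle. -/
def InS (c1 c2 h1 h2 : ℤ) (v : ℤ × ℤ) : Prop :=
  (c1 ≤ v.1 - v.2 ∧ v.1 - v.2 ≤ c2) ∧ (h1 ≤ v.1 + v.2 ∧ v.1 + v.2 ≤ h2)

/-- The edge between the vertices crosses the slit. -/
def Slit (σ η : ℤ) (u v : ℤ × ℤ) : Prop :=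
  ((u.1 - u.2 = σ ∧ v.1 - v.2 = σ + 1) ∨ (u.1 - u.2 = σ + 1 ∧ v.1 - v.2 = σ)) ∧
    η ≤ u.1 + u.2 ∧ η ≤ v.1 + v.2

theorem seg_iff {D : Set (ℝ × ℝ)} {p r : ℝ × ℝ} : segment ℝ p r ⊆ D ↔
    ∀ θ : ℝ, 0 ≤ θ → θ ≤ 1 → ((1 - θ) * p.1 + θ * r.1, (1 - θ) * p.2 + θ * r.2) ∈ D := by
  rw [segment_eq_image]
  constructor
  · intro h θ h0 h1
    exact h ⟨θ, ⟨h0, h1⟩, rfl⟩
  · rintro h _ ⟨θ, ⟨h0, h1⟩, rfl⟩
    exact h θ h0 h1

theorem lt_half {a b : ℤ} : (a:ℝ) - 1/2 < b ↔ a ≤ b := by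
  constructor
  · intro h
    have h1 : (a:ℝ) < ((b + 1 : ℤ) : ℝ) := by push_cast; linarith
    have h2 : a < b + 1 := by exact_mod_cast h1
    omega
  · intro h
    have : (a:ℝ) ≤ b := by exact_mod_cast h
    linarith

theorem lt_half' {a b : ℤ} : (a:ℝ) < b + 1/2 ↔ a ≤ b := by
  constructor
  · intro h
    have h1 : (a:ℝ) < ((b + 1 : ℤ) : ℝ) := by push_cast; linarith
    have h2 : a < b + 1 := by exact_mod_cast h1
    omega
  · intro h
    have : (a:ℝ) ≤ b := by exact_mod_cast h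
    linarith

theorem mem_Dm_edge {W : ℕ} (hW : 1 ≤ W) {c1 c2 h1 h2 σ η : ℤ} (e : Edg) :
    segment ℝ (pt (1 / W) (src e)) (pt (1 / W) (tgt e)) ⊆ Dm W c1 c2 h1 h2 σ η ↔
      InS c1 c2 h1 h2 (src e) ∧ InS c1 c2 h1 h2 (tgt e) ∧ ¬ Slit σ η (src e) (tgt e) := by
  have hWr : (1:ℝ) ≤ W := by exact_mod_cast hW
  have hW0 : (W:ℝ) ≠ 0 := by linarith
  rw [seg_iff]
  obtain ⟨x, y, b⟩ := e
  -- the values of the coordinates
  obtain ⟨ε, hε, hcase⟩ : ∃ ε : ℤ, (ε = 1 ∨ ε = -1) ∧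
      ((src ((x, y, b) : Edg)).1 - (src ((x, y, b) : Edg)).2 = x - y ∧
       (src ((x, y, b) : Edg)).1 + (src ((x, y, b) : Edg)).2 = x + y ∧
       (tgt ((x, y, b) : Edg)).1 - (tgt ((x, y, b) : Edg)).2 = x - y + ε ∧
       (tgt ((x, y, b) : Edg)).1 + (tgt ((x, y, b) : Edg)).2 = x + y + 1) := by
    cases b
    · refine ⟨-1, Or.inr rfl, ?_, ?_, ?_, ?_⟩
      · rw [src_mk]
      · rw [src_mk]
      · rw [tgt_false]; ring
      · rw [tgt_false]; ring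
    · refine ⟨1, Or.inl rfl, ?_, ?_, ?_, ?_⟩
      · rw [src_mk]
      · rw [src_mk]
      · rw [tgt_true]; ring
      · rw [tgt_true]; ring
  obtain ⟨k1, k2, k3, k4⟩ := hcase
  obtain ⟨u, hu⟩ : ∃ u : ℤ × ℤ, u = src ((x, y, b) : Edg) := ⟨_, rfl⟩
  obtain ⟨v, hv⟩ : ∃ v : ℤ × ℤ, v = tgt ((x, y, b) : Edg) := ⟨_, rfl⟩
  rw [← hu] at k1 k2
  rw [← hv] at k3 k4
  rw [← hu, ← hv]
  obtain ⟨m, hm⟩ : ∃ m : ℤ, m = x - y := ⟨_, rfl⟩
  obtain ⟨t, ht⟩ : ∃ t : ℤ, t = x + y := ⟨_, rfl⟩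
  rw [← hm] at k1 k3
  rw [← ht] at k2 k4
  have r1 : (u.1:ℝ) - u.2 = m := by exact_mod_cast k1
  have r2 : (u.1:ℝ) + u.2 = t := by exact_mod_cast k2
  have r3 : (v.1:ℝ) - v.2 = m + ε := by exact_mod_cast k3
  have r4 : (v.1:ℝ) + v.2 = t + 1 := by exact_mod_cast k4
  have e1 : ∀ θ : ℝ, (W:ℝ) * (((1 - θ) * (pt (1 / W) u).1 + θ * (pt (1 / W) v).1) -
      ((1 - θ) * (pt (1 / W) u).2 + θ * (pt (1 / W) v).2)) = m + θ * ε := by
    intro θ
    unfold pt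
    simp only
    have : (W:ℝ) * (((1 - θ) * (1 / W * u.1) + θ * (1 / W * v.1)) -
      ((1 - θ) * (1 / W * u.2) + θ * (1 / W * v.2))) =
      (1 - θ) * ((u.1:ℝ) - u.2) + θ * ((v.1:ℝ) - v.2) := by
      field_simp; ring
    rw [this, r1, r3]
    ring
  have e2 : ∀ θ : ℝ, (W:ℝ) * (((1 - θ) * (pt (1 / W) u).1 + θ * (pt (1 / W) v).1) +
      ((1 - θ) * (pt (1 / W) u).2 + θ * (pt (1 / W) v).2)) = t + θ := by
    intro θ
    unfold pt
    simp only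
    have : (W:ℝ) * (((1 - θ) * (1 / W * u.1) + θ * (1 / W * v.1)) +
      ((1 - θ) * (1 / W * u.2) + θ * (1 / W * v.2))) =
      (1 - θ) * ((u.1:ℝ) + u.2) + θ * ((v.1:ℝ) + v.2) := by
      field_simp; ring
    rw [this, r2, r4]
    ring
  have e3 : ∀ θ : ℝ, (((1 - θ) * (pt (1 / W) u).1 + θ * (pt (1 / W) v).1,
      (1 - θ) * (pt (1 / W) u).2 + θ * (pt (1 / W) v).2) : ℝ × ℝ) ∈ Dm W c1 c2 h1 h2 σ η ↔
      ((c1:ℝ) - 1/2 < m + θ * ε ∧ (m:ℝ) + θ * ε < c2 + 1/2) ∧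
      ((h1:ℝ) - 1/2 < t + θ ∧ (t:ℝ) + θ < h2 + 1/2) ∧
      ¬ ((m:ℝ) + θ * ε = σ + 1/2 ∧ (η:ℝ) ≤ t + θ) := by
    intro θ
    unfold Dm
    rw [Set.mem_ofPred_eq, e1 θ, e2 θ]
  constructor
  · intro h
    have q0 := (e3 0).mp (h 0 le_rfl (by norm_num))
    have q1 := (e3 1).mp (h 1 (by norm_num) le_rfl)
    obtain ⟨⟨a1, a2⟩, ⟨a3, a4⟩, -⟩ := q0
    obtain ⟨⟨b1, b2⟩, ⟨b3, b4⟩, -⟩ := q1
    rw [zero_mul, add_zero] at a1 a2
    rw [add_zero] at a3 a4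
    rw [one_mul] at b1 b2
    have a1' : c1 ≤ m := lt_half.mp a1
    have a2' : m ≤ c2 := lt_half'.mp a2
    have a3' : h1 ≤ t := lt_half.mp a3
    have a4' : t ≤ h2 := lt_half'.mp a4
    have b1' : c1 ≤ m + ε := lt_half.mp (by push_cast; exact b1)
    have b2' : m + ε ≤ c2 := lt_half'.mp (by push_cast; exact b2)
    have b3' : h1 ≤ t + 1 := lt_half.mp (by push_cast; exact b3)
    have b4' : t + 1 ≤ h2 := lt_half'.mp (by push_cast; exact b4)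
    refine ⟨⟨⟨by omega, by omega⟩, by omega, by omega⟩,
      ⟨⟨by omega, by omega⟩, by omega, by omega⟩, ?_⟩
    rintro ⟨hs, hη1, hη2⟩
    have qh := (e3 (1/2)).mp (h (1/2) (by norm_num) (by norm_num))
    apply qh.2.2
    have hη : (η:ℝ) ≤ t := by
      have : η ≤ t := by omega
      exact_mod_cast this
    refine ⟨?_, by linarith⟩
    rcases hs with ⟨g1, g2⟩ | ⟨g1, g2⟩
    · have i1 : m = σ := by omega
      have i2 : ε = 1 := by omega
      rw [i1, i2]; push_cast; ring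
    · have i1 : m = σ + 1 := by omega
      have i2 : ε = -1 := by omega
      rw [i1, i2]; push_cast; ring
  · rintro ⟨⟨⟨a1, a2⟩, a3, a4⟩, ⟨⟨b1, b2⟩, b3, b4⟩, hs⟩ θ h0 h1'
    rw [e3]
    have a1' : (c1:ℝ) ≤ m := by have : c1 ≤ m := by omega
                                exact_mod_cast this
    have a2' : (m:ℝ) ≤ c2 := by have : m ≤ c2 := by omega
                                exact_mod_cast this
    have a3' : (h1:ℝ) ≤ t := by have : h1 ≤ t := by omega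
                                exact_mod_cast this
    have b4' : (t:ℝ) + 1 ≤ h2 := by have : t + 1 ≤ h2 := by omega
                                    exact_mod_cast this
    have b1' : (c1:ℝ) ≤ m + ε := by have : c1 ≤ m + ε := by omega
                                    exact_mod_cast this
    have b2' : (m:ℝ) + ε ≤ c2 := by have : m + ε ≤ c2 := by omega
                                    exact_mod_cast this
    refine ⟨⟨?_, ?_⟩, ⟨by linarith, by linarith⟩, ?_⟩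
    · nlinarith
    · nlinarith
    · rintro ⟨g1, g2⟩
      apply hs
      -- `θ = 1/2`
      rcases hε with hε | hε
      · have g3 : θ = ((σ - m : ℤ) : ℝ) + 1/2 := by rw [hε] at g1; push_cast at g1 ⊢; linarith
        have i1 : -1 < σ - m := by
          have : ((-1 : ℤ) : ℝ) < ((σ - m : ℤ) : ℝ) := by push_cast; push_cast at g3; linarith
          exact_mod_cast this
        have i2 : σ - m < 1 := by
          have : ((σ - m : ℤ) : ℝ) < ((1 : ℤ) : ℝ) := by push_cast; push_cast at g3; linarith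
          exact_mod_cast this
        have i3 : σ = m := by omega
        have g4 : θ = 1/2 := by rw [g3, i3]; simp
        have i4 : η ≤ t := by
          rw [g4] at g2
          have : (η:ℝ) < ((t + 1 : ℤ) : ℝ) := by push_cast; linarith
          have : η < t + 1 := by exact_mod_cast this
          omega
        exact ⟨Or.inl ⟨by omega, by omega⟩, by omega, by omega⟩
      · have g3 : θ = ((m - σ : ℤ) : ℝ) - 1/2 := by rw [hε] at g1; push_cast at g1 ⊢; linarith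
        have i1 : 0 < m - σ := by
          have : ((0 : ℤ) : ℝ) < ((m - σ : ℤ) : ℝ) := by push_cast; push_cast at g3; linarith
          exact_mod_cast this
        have i2 : m - σ < 2 := by
          have : ((m - σ : ℤ) : ℝ) < ((2 : ℤ) : ℝ) := by push_cast; push_cast at g3; linarith
          exact_mod_cast this
        have i3 : m = σ + 1 := by omega
        have g4 : θ = 1/2 := by rw [g3, i3]; push_cast; ring
        have i4 : η ≤ t := by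
          rw [g4] at g2
          have : (η:ℝ) < ((t + 1 : ℤ) : ℝ) := by push_cast; linarith
          have : η < t + 1 := by exact_mod_cast this
          omega
        exact ⟨Or.inr ⟨by omega, by omega⟩, by omega, by omega⟩

/-- The edges of the slit rectangle. -/
theorem mem_SE_Dm {W : ℕ} (hW : 1 ≤ W) {c1 c2 h1 h2 σ η : ℤ} {N : ℕ}
    (n1 : -(N:ℤ) ≤ c1) (n2 : c2 ≤ N) (n3 : -(N:ℤ) ≤ h1) (n4 : h2 ≤ N) (e : Edg) :
    e ∈ SE (Dm W c1 c2 h1 h2 σ η) (1 / W) N ↔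
      InS c1 c2 h1 h2 (src e) ∧ InS c1 c2 h1 h2 (tgt e) ∧ ¬ Slit σ η (src e) (tgt e) := by
  rw [mem_SE, mem_Dm_edge hW]
  constructor
  · exact fun h => h.2
  · intro h
    refine ⟨?_, h⟩
    obtain ⟨⟨⟨a1, a2⟩, a3, a4⟩, ⟨⟨b1, b2⟩, b3, b4⟩, -⟩ := h
    obtain ⟨x, y, _ | _⟩ := e
    · rw [mem_RE_false]
      rw [src_mk] at a1 a2 a3 a4
      rw [tgt_false] at b1 b2 b3 b4
      simp only at a1 a2 a3 a4 b1 b2 b3 b4
      omega
    · rw [mem_RE_true]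
      rw [src_mk] at a1 a2 a3 a4
      rw [tgt_true] at b1 b2 b3 b4
      simp only at a1 a2 a3 a4 b1 b2 b3 b4
      omega

theorem stU : StIn := Pool.Agent.W424.NC.stabU

/-- Near-critical stability in slit rectangles. -/
theorem slab_stab (L : ℕ) : ∃ C : ℝ, 0 < C ∧ ∀ W : ℕ, 1 ≤ W → ∀ c1 c2 h1 h2 σ η : ℤ,
    -((L * W : ℕ) : ℤ) ≤ c1 → c2 ≤ (L * W : ℕ) → -((L * W : ℕ) : ℤ) ≤ h1 → h2 ≤ (L * W : ℕ) →
    ∀ I J : Set Vtx, (∀ v ∈ I ∪ J, InS c1 c2 h1 h2 v ∧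
      (v.1 - v.2 = c1 ∨ v.1 - v.2 = c2 ∨ v.1 + v.2 = h1 ∨ v.1 + v.2 = h2 ∨ v.1 - v.2 = σ)) →
    ∀ q : ℝ, 0 ≤ q → q ≤ 1 →
      |Pr (fun _ => q) (SE (Dm W c1 c2 h1 h2 σ η) (1 / W) ((L + 2) * W)) (fun F => Cn I J ↑F) -
        Pr (fun _ => 1/2) (SE (Dm W c1 c2 h1 h2 σ η) (1 / W) ((L + 2) * W))
          (fun F => Cn I J ↑F)| ≤ C * |q - 1/2| * (W:ℝ) ^ (3/4 : ℝ) := by
  obtain ⟨C, hC, h⟩ := dom_stab stU ((L:ℝ) + 1) (5 * ((2 * L + 1 : ℕ) + 1)) 1 1 (by positivity)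
    (by norm_num) (by norm_num) (by norm_num)
  refine ⟨C, hC, ?_⟩
  intro W hW c1 c2 h1 h2 σ η n1 n2 n3 n4 I J hIJ q h0 h1'
  have hWr : (1:ℝ) ≤ W := by exact_mod_cast hW
  have hW0 : (0:ℝ) < W := by linarith
  have hW1 : (1:ℝ) / W ≤ 1 := by rw [div_le_iff₀ hW0]; linarith
  have m1 : -((L:ℝ) * W) ≤ c1 := by exact_mod_cast n1
  have m2 : (c2:ℝ) ≤ L * W := by exact_mod_cast n2
  have m3 : -((L:ℝ) * W) ≤ h1 := by exact_mod_cast n3
  have m4 : (h2:ℝ) ≤ L * W := by exact_mod_cast n4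
  have hW' : ((W:ℕ):ℤ) ≥ 1 := by exact_mod_cast hW
  have hLW : ((2 * L + 1 : ℕ) : ℤ) * W = 2 * ((L * W : ℕ) : ℤ) + W := by push_cast; ring
  have hmain := h (Dm W c1 c2 h1 h2 σ η) (Bm W c1 c2 h1 h2 σ η) (fr_Dm W c1 c2 h1 h2 σ η) ?_
    (cov_Bm hW (L := 2 * L + 1) (by rw [hLW]; linarith) (by rw [hLW]; linarith)) (1 / W)
    (by positivity) hW1 ((L + 2) * W) ?_ I J ?_ q h0 h1'
  · refine hmain.trans (le_of_eq ?_)
    have e : ((1:ℝ) / W) ^ (-(3/4 : ℝ)) = (W:ℝ) ^ (3/4 : ℝ) := by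
      rw [one_div, Real.inv_rpow hW0.le, Real.rpow_neg hW0.le, inv_inv]
    rw [e]
  · rintro x ⟨⟨k1, k2⟩, ⟨k3, k4⟩, -⟩
    have e1 : x.1 = (W * (x.1 - x.2) + W * (x.1 + x.2)) / (2 * W) := by field_simp; ring
    have e2 : x.2 = (W * (x.1 + x.2) - W * (x.1 - x.2)) / (2 * W) := by field_simp; ring
    have key : ∀ z : ℝ, -(2 * ((L:ℝ) * W) + 1) ≤ z → z ≤ 2 * ((L:ℝ) * W) + 1 →
        |z / (2 * W)| ≤ (L:ℝ) + 1 := by
      intro z z1 z2
      rw [abs_div, abs_of_pos (by positivity : (0:ℝ) < 2 * W), div_le_iff₀ (by positivity), abs_le]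
      constructor <;> nlinarith
    constructor
    · rw [e1]
      exact key _ (by linarith) (by linarith)
    · rw [e2]
      exact key _ (by linarith) (by linarith)
  · push_cast
    have : (1:ℝ) / W * ((L + 2) * W) = L + 2 := by field_simp
    rw [this]
    linarith
  · intro v hv
    obtain ⟨⟨g1, g2⟩, g3⟩ := hIJ v hv
    exact near_Bm hW g1 g2 g3

end TH291.NW
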