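import Pool.Agent.TH291.NW.Dom

/-!
Near-critical stability of connection probabilities in planar domains, from the sharp bounds in
the window.
-/

set_option maxHeartbeats 1000000

namespace TH291.NW

open H974 H12S H973N H973N.WHX Finset

/-- The near-critical input. -/
def StIn : Prop := ∃ κ C : ℝ, 0 < κ ∧ 1 ≤ C ∧ ∀ n : ℕ, 1 ≤ n → ∀ q : ℝ,
  |q - 1/2| ≤ (n:ℝ) ^ (-(3/4 : ℝ)) / C → Win q κ n ∧ A4le q C 0 n

/-- The set `B` is covered by `M r ^ (-s)` boxes of size `r`. -/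
def Cov (B : Set (ℝ × ℝ)) (M s : ℝ) : Prop := ∀ r : ℝ, 0 < r → r ≤ 1 →
  ∃ F : Finset (ℝ × ℝ), (F.card : ℝ) ≤ M * r ^ (-s) ∧ ∀ x ∈ B, ∃ y ∈ F, dist x y ≤ r

theorem exists_scale {δ : ℝ} (h0 : 0 < δ) (h1 : δ ≤ 1) :
    ∃ K : ℕ, (2:ℝ)^K * δ ≤ 1 ∧ 1 ≤ 2 * ((2:ℝ)^K * δ) := by
  have h2 : 1 ≤ 1 / δ := by rw [le_div_iff₀ h0]; linarith
  obtain ⟨m, hm⟩ : ∃ m : ℕ, m = ⌊1 / δ⌋₊ := ⟨_, rfl⟩
  have hm1 : 1 ≤ m := by rw [hm]; exact Nat.le_floor (by exact_mod_cast h2)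
  refine ⟨Nat.log 2 m, ?_, ?_⟩
  · have h3 : 2 ^ Nat.log 2 m ≤ m := Nat.pow_log_le_self 2 (by omega)
    have h4 : ((2 ^ Nat.log 2 m : ℕ) : ℝ) ≤ m := by exact_mod_cast h3
    have h5 : (m:ℝ) ≤ 1 / δ := by rw [hm]; exact Nat.floor_le (by positivity)
    push_cast at h4
    have h6 := h4.trans h5
    rwa [le_div_iff₀ h0] at h6
  · have h3 : m < 2 ^ (Nat.log 2 m + 1) := Nat.lt_pow_succ_log_self (by norm_num) m
    have h4 : ((m + 1 : ℕ) : ℝ) ≤ ((2 ^ (Nat.log 2 m + 1) : ℕ) : ℝ) := by exact_mod_cast h3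
    have h5 : 1 / δ < m + 1 := by rw [hm]; exact Nat.lt_floor_add_one _
    push_cast at h4
    rw [div_lt_iff₀ h0] at h5
    rw [pow_succ] at h4
    nlinarith

/-- The bound for the sum over the scales. -/
theorem scales_sum {α x : ℝ} (hα : 0 < α) (K : ℕ) (hK : (2:ℝ)^K ≤ x) :
    ∑ k ∈ Finset.range K, ((2:ℝ)^k) ^ α ≤ x ^ α / ((2:ℝ) ^ α - 1) := by
  have h2 : (1:ℝ) < (2:ℝ) ^ α := Real.one_lt_rpow (by norm_num) hα
  have e : ∀ k : ℕ, ((2:ℝ)^k) ^ α = ((2:ℝ) ^ α) ^ k := by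
    intro k
    rw [← Real.rpow_natCast, ← Real.rpow_natCast, ← Real.rpow_mul (by norm_num),
      ← Real.rpow_mul (by norm_num), mul_comm]
  rw [Finset.sum_congr rfl (fun k _ => e k), geom_sum_eq h2.ne']
  apply div_le_div_of_nonneg_right _ (by linarith)
  rw [← e K]
  have : ((2:ℝ)^K) ^ α ≤ x ^ α := Real.rpow_le_rpow (by positivity) hK hα.le
  linarith

theorem deriv_bound {κ C0 : ℝ} (hκ : 0 < κ) (hC0 : 1 ≤ C0)
    {D Bs : Set (ℝ × ℝ)} (hfr : frontier D ⊆ Bs) {ρ0 M s A : ℝ} (hM : 0 ≤ M) (hs0 : 0 ≤ s)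
    (hs : s < 3/2) (hA : 0 ≤ A)
    (hbd : ∀ x ∈ D, |x.1| ≤ ρ0 ∧ |x.2| ≤ ρ0) (hcov : Cov Bs M s)
    {δ : ℝ} (hδ : 0 < δ) (hδ1 : δ ≤ 1) {K : ℕ} (hK1 : (2:ℝ)^K * δ ≤ 1)
    (hK2 : 1 ≤ 2 * ((2:ℝ)^K * δ)) {q : ℝ} (hW : Win q κ (4 * 2^K)) (h4 : A4le q C0 0 (4 * 2^K))
    {N : ℕ} (hN : ρ0 + δ ≤ δ * N) {I J : Set Vtx}
    (hIJ : ∀ v ∈ I ∪ J, ∃ x ∈ Bs, dist x (pt δ v) ≤ A * δ) :
    ∑ g ∈ SE D δ N, PQ q (SE D δ N) (Pf (CO I J ∅) g) ≤
      (6 * ((17 + 2 * A) * Real.sqrt M) + 784 * κ⁻¹ ^ 4 * (C0 * ((17 + 2 * A) * Real.sqrt M) /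
        ((2:ℝ) ^ (3/4 - s/2) - 1) + C0 * (2 * (⌈ρ0 + 1⌉₊ : ℝ) + 1))) * δ ^ (-(3/4 : ℝ)) := by
  classical
  obtain ⟨B, hB⟩ : ∃ B : ℝ, B = 17 + 2 * A := ⟨_, rfl⟩
  have hB0 : 0 < B := by rw [hB]; linarith
  have hBe : 2 * (8 + A) + 1 = B := by rw [hB]; ring
  rw [← hB]
  choose! F hF1 hF2 using hcov
  have h0 : 0 ≤ q := by linarith [hW.lo]
  have h1 : q ≤ 1 := by linarith [hW.hi]
  have hbdN : ∀ x ∈ D, |x.1| ≤ δ * N - δ ∧ |x.2| ≤ δ * N - δ := fun x hx =>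
    ⟨(hbd x hx).1.trans (by linarith), (hbd x hx).2.trans (by linarith)⟩
  obtain ⟨L, hL⟩ : ∃ L : ℕ, L = ⌈ρ0 + 1⌉₊ := ⟨_, rfl⟩
  have hLr : ρ0 + 1 ≤ L := by rw [hL]; exact Nat.le_ceil _
  rw [← hL]
  obtain ⟨R, hR⟩ : ∃ R : Finset Edg, R = ((nearPts (F δ) δ (8 + A)) ×ˢ
    (Finset.univ : Finset Bool)).image (fun p => ((p.1.1, p.1.2, p.2) : Edg)) := ⟨_, rfl⟩
  obtain ⟨T, hT⟩ : ∃ T : ℕ → Finset (ℤ × ℤ), T = fun k => if k = K then
    Finset.Icc (-(L:ℤ)) L ×ˢ Finset.Icc (-(L:ℤ)) L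
    else nearPts (F (2^k * δ)) (2 * 2^k * δ) (8 + A) := ⟨_, rfl⟩
  have hmain := gen_sum hW (SE D δ N) I J K le_rfl T R ?_ ?_
  · -- the estimate
    have hd34 : 0 < δ ^ (-(3/4 : ℝ)) := Real.rpow_pos_of_pos hδ _
    -- the rest
    have hRc : Real.sqrt R.card ≤ 2 * (B * Real.sqrt M) * δ ^ (-(3/4 : ℝ)) := by
      have c1 : (R.card : ℝ) ≤ 2 * (M * δ ^ (-s) * B^2) := by
        have e1 : R.card ≤ (nearPts (F δ) δ (8 + A)).card * 2 := by
          rw [hR]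
          refine Finset.card_image_le.trans ?_
          rw [Finset.card_product]
          simp
        have e2 : (R.card : ℝ) ≤ (nearPts (F δ) δ (8 + A)).card * 2 := by exact_mod_cast e1
        have e3 := card_nearPts (F δ) δ (8 + A) (by linarith)
        rw [hBe] at e3
        have e4 : ((F δ).card : ℝ) * B^2 ≤ M * δ ^ (-s) * B^2 :=
          mul_le_mul_of_nonneg_right (hF1 δ hδ hδ1) (by positivity)
        linarith
      have c2 : δ ^ (-s) ≤ (δ ^ (-(3/4 : ℝ)))^2 := by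
        rw [← Real.rpow_natCast, ← Real.rpow_mul hδ.le]
        apply Real.rpow_le_rpow_of_exponent_ge hδ hδ1
        push_cast
        linarith
      have c3 : (R.card : ℝ) ≤ (2 * (B * Real.sqrt M) * δ ^ (-(3/4 : ℝ)))^2 := by
        have : (2 * (B * Real.sqrt M) * δ ^ (-(3/4 : ℝ)))^2 =
            4 * (M * (δ ^ (-(3/4 : ℝ)))^2 * B^2) := by
          rw [mul_pow, mul_pow, mul_pow, Real.sq_sqrt hM]
          ring
        rw [this]
        have e5 : M * δ ^ (-s) * B^2 ≤ M * (δ ^ (-(3/4 : ℝ)))^2 * B^2 :=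
          mul_le_mul_of_nonneg_right (mul_le_mul_of_nonneg_left c2 hM) (by positivity)
        have e6 : 0 ≤ M * (δ ^ (-(3/4 : ℝ)))^2 * B^2 := by positivity
        linarith
      exact (Real.sqrt_le_sqrt c3).trans (le_of_eq (Real.sqrt_sq (by positivity)))
    -- the scales
    have hTc : ∀ k, k < K → Real.sqrt (T k).card ≤
        B * Real.sqrt M * ((2:ℝ)^k * δ) ^ (-(s/2)) := by
      intro k hk
      have hr0 : 0 < (2:ℝ)^k * δ := by positivity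
      have hr1 : (2:ℝ)^k * δ ≤ 1 := by
        refine le_trans ?_ hK1
        exact mul_le_mul_of_nonneg_right (pow_le_pow_right₀ (by norm_num) hk.le) hδ.le
      have e1 : T k = nearPts (F (2^k * δ)) (2 * 2^k * δ) (8 + A) := by
        rw [hT]
        simp only [if_neg (by omega : ¬ k = K)]
      have e3 := card_nearPts (F (2^k * δ)) (2 * 2^k * δ) (8 + A) (by linarith)
      rw [hBe, ← e1] at e3
      have e4 : ((F (2^k * δ)).card : ℝ) * B^2 ≤ M * ((2:ℝ)^k * δ) ^ (-s) * B^2 :=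
        mul_le_mul_of_nonneg_right (hF1 _ hr0 hr1) (by positivity)
      have e5 : M * ((2:ℝ)^k * δ) ^ (-s) * B^2 =
          (B * Real.sqrt M * ((2:ℝ)^k * δ) ^ (-(s/2)))^2 := by
        rw [mul_pow, mul_pow, Real.sq_sqrt hM]
        have : (((2:ℝ)^k * δ) ^ (-(s/2)))^2 = ((2:ℝ)^k * δ) ^ (-s) := by
          rw [← Real.rpow_natCast, ← Real.rpow_mul hr0.le]
          congr 1
          push_cast
          ring
        rw [this]
        ring
      have e6 : 0 ≤ B * Real.sqrt M * ((2:ℝ)^k * δ) ^ (-(s/2)) := by positivity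
      rw [← Real.sqrt_sq e6, ← e5]
      exact Real.sqrt_le_sqrt (e3.trans e4)
    have hTK : Real.sqrt (T K).card = 2 * (L:ℝ) + 1 := by
      have e1 : (T K).card = (2 * L + 1)^2 := by
        rw [hT]
        simp only [if_true]
        rw [Finset.card_product, Int.card_Icc]
        have : ((L:ℤ) + 1 - -(L:ℤ)).toNat = 2 * L + 1 := by omega
        rw [this, sq]
      rw [e1]
      push_cast
      exact Real.sqrt_sq (by positivity)
    have ha : ∀ k ≤ K, a4 q (2^k) ≤ C0 * ((2:ℝ)^k) ^ (-(5/4 : ℝ)) := by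
      intro k hk
      have := a4le_dyadic (q := q) (A := C0) (ε := 0) (by linarith) (by norm_num) h4
        (K := K) (by omega) k hk
      rwa [add_zero] at this
    have ha0 : ∀ k, 0 ≤ a4 q (2^k) := fun k => a4_nonneg' h0 h1 _
    obtain ⟨α, hα⟩ : ∃ α : ℝ, α = 3/4 - s/2 := ⟨_, rfl⟩
    have hα0 : 0 < α := by rw [hα]; linarith
    have h2α : (1:ℝ) < (2:ℝ) ^ α := Real.one_lt_rpow (by norm_num) hα0
    rw [← hα]
    have hpow : ∀ k : ℕ, (4:ℝ)^k * ((2:ℝ)^k) ^ (-(5/4 : ℝ)) = ((2:ℝ)^k) ^ (3/4 : ℝ) := by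
      intro k
      have hp : (0:ℝ) < (2:ℝ)^k := by positivity
      have e4 : (4:ℝ)^k = ((2:ℝ)^k) ^ (2:ℝ) := by
        rw [Real.rpow_two, ← pow_mul, mul_comm k 2, pow_mul]
        norm_num
      rw [e4, ← Real.rpow_add hp]
      congr 1
      norm_num
    have hlow : ∀ k ∈ Finset.range K, (4:ℝ)^k * a4 q (2^k) * Real.sqrt (T k).card ≤
        C0 * (B * Real.sqrt M) * δ ^ (-(s/2)) * ((2:ℝ)^k) ^ α := by
      intro k hk
      rw [Finset.mem_range] at hk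
      have hp : (0:ℝ) < (2:ℝ)^k := by positivity
      have e1 : (4:ℝ)^k * a4 q (2^k) ≤ C0 * ((2:ℝ)^k) ^ (3/4 : ℝ) := by
        rw [← hpow k]
        have := mul_le_mul_of_nonneg_left (ha k hk.le) (by positivity : (0:ℝ) ≤ (4:ℝ)^k)
        linarith
      have e2 := mul_le_mul e1 (hTc k hk) (Real.sqrt_nonneg _) (by positivity)
      refine e2.trans (le_of_eq ?_)
      rw [Real.mul_rpow hp.le hδ.le, hα]
      have e3 : ((2:ℝ)^k) ^ (3/4 - s/2) = ((2:ℝ)^k) ^ (3/4 : ℝ) * ((2:ℝ)^k) ^ (-(s/2)) := by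
        rw [← Real.rpow_add hp]
        congr 1
      rw [e3]
      ring
    have hinv : (2:ℝ)^K ≤ δ⁻¹ := by
      rw [le_inv_comm₀ (by positivity) hδ, ← one_div, le_div_iff₀ (by positivity)]
      linarith
    have hsum : ∑ k ∈ Finset.range K, (4:ℝ)^k * a4 q (2^k) * Real.sqrt (T k).card ≤
        C0 * (B * Real.sqrt M) / ((2:ℝ) ^ α - 1) * δ ^ (-(3/4 : ℝ)) := by
      refine (Finset.sum_le_sum hlow).trans ?_
      rw [← Finset.mul_sum]
      have e1 := scales_sum hα0 K hinv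
      have e2 : 0 ≤ C0 * (B * Real.sqrt M) * δ ^ (-(s/2)) := by positivity
      refine (mul_le_mul_of_nonneg_left e1 e2).trans (le_of_eq ?_)
      have e3 : δ ^ (-(3/4 : ℝ)) = δ ^ (-(s/2)) * (δ⁻¹) ^ α := by
        rw [Real.inv_rpow hδ.le, ← Real.rpow_neg hδ.le, ← Real.rpow_add hδ, hα]
        congr 1
        ring
      rw [e3]
      field_simp
    have htop : (4:ℝ)^K * a4 q (2^K) * Real.sqrt (T K).card ≤
        C0 * (2 * (L:ℝ) + 1) * δ ^ (-(3/4 : ℝ)) := by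
      rw [hTK]
      have e1 : (4:ℝ)^K * a4 q (2^K) ≤ C0 * ((2:ℝ)^K) ^ (3/4 : ℝ) := by
        rw [← hpow K]
        have := mul_le_mul_of_nonneg_left (ha K le_rfl) (by positivity : (0:ℝ) ≤ (4:ℝ)^K)
        linarith
      have e2 : ((2:ℝ)^K) ^ (3/4 : ℝ) ≤ δ ^ (-(3/4 : ℝ)) := by
        rw [Real.rpow_neg hδ.le, ← Real.inv_rpow hδ.le]
        exact Real.rpow_le_rpow (by positivity) hinv (by norm_num)
      have e3 : C0 * ((2:ℝ)^K) ^ (3/4 : ℝ) ≤ C0 * δ ^ (-(3/4 : ℝ)) :=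
        mul_le_mul_of_nonneg_left e2 (by linarith)
      have e4 := mul_le_mul_of_nonneg_right (e1.trans e3) (by positivity : 0 ≤ 2 * (L:ℝ) + 1)
      linarith
    rw [Finset.sum_range_succ] at hmain
    have hκ4 : 0 < 784 * κ⁻¹ ^ 4 := by positivity
    have hfin := mul_le_mul_of_nonneg_left (add_le_add hsum htop) hκ4.le
    refine hmain.trans ?_
    have e7 : (6 * (B * Real.sqrt M) + 784 * κ⁻¹ ^ 4 * (C0 * (B * Real.sqrt M) /
        ((2:ℝ) ^ α - 1) + C0 * (2 * (L : ℝ) + 1))) * δ ^ (-(3/4 : ℝ)) =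
        3 * (2 * (B * Real.sqrt M) * δ ^ (-(3/4 : ℝ))) + 784 * κ⁻¹ ^ 4 *
        (C0 * (B * Real.sqrt M) / ((2:ℝ) ^ α - 1) * δ ^ (-(3/4 : ℝ)) +
          C0 * (2 * (L:ℝ) + 1) * δ ^ (-(3/4 : ℝ))) := by ring
    rw [e7]
    linarith
  · -- the edges near the frontier
    intro g hg hng
    obtain ⟨x, hx, hxd⟩ := near_of_not_good hfr hδ hA hbdN hIJ hg hng
    obtain ⟨y, hy, hyd⟩ := hF2 δ hδ hδ1 x hx
    rw [hR, Finset.mem_image]
    refine ⟨((g.1, g.2.1), g.2.2), ?_, rfl⟩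
    rw [Finset.mem_product]
    refine ⟨?_, Finset.mem_univ _⟩
    have hd : dist y (pt δ (src g)) ≤ δ * (8 + A) := by
      have := dist_triangle y x (pt δ (src g))
      rw [dist_comm y x] at this
      rw [pow_zero, mul_one] at hxd
      nlinarith
    rw [dist_pt] at hd
    apply mem_nearPts hδ hy
    · rw [abs_sub_comm]; exact hd.1
    · rw [abs_sub_comm]; exact hd.2
  · -- the tiles
    intro g hg k hk hgood hnext
    have hρ : 1 ≤ 2^k := Nat.one_le_two_pow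
    have hnear := til_near hρ g
    push_cast at hnear
    have hrpos : 0 < (2:ℝ)^k * δ := by positivity
    -- the tile is near the edge
    have htile : ∀ a t : ℤ, a - 2^k ≤ 2 * 2^k * t - 0 → 2 * 2^k * t ≤ a + 2^k →
        |2 * 2^k * δ * (t:ℝ) - δ * a| ≤ 2^k * δ := by
      intro a t h5 h6
      have h7 : (a:ℝ) - 2^k ≤ 2 * 2^k * t - 0 := by exact_mod_cast h5
      have h8 : 2 * 2^k * (t:ℝ) ≤ a + 2^k := by exact_mod_cast h6
      rw [abs_le]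
      constructor <;> nlinarith
    have t1 := htile g.1 (til (2^k) g).1 hnear.1.1 hnear.1.2.1
    have t2 := htile g.2.1 (til (2^k) g).2 hnear.2.1 hnear.2.2.1
    rcases Nat.lt_or_ge k K with hlt | hge
    · have hr1 : (2:ℝ)^k * δ ≤ 1 := by
        refine le_trans ?_ hK1
        exact mul_le_mul_of_nonneg_right (pow_le_pow_right₀ (by norm_num) hlt.le) hδ.le
      obtain ⟨x, hx, hxd⟩ := near_of_not_good hfr hδ hA hbdN hIJ hg (hnext hlt)
      obtain ⟨y, hy, hyd⟩ := hF2 (2^k * δ) hrpos hr1 x hx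
      have e1 : T k = nearPts (F (2^k * δ)) (2 * 2^k * δ) (8 + A) := by
        rw [hT]
        simp only [if_neg (by omega : ¬ k = K)]
      rw [e1]
      have hd : dist y (pt δ (src g)) ≤ (15 + 2 * A) * (2^k * δ) := by
        have := dist_triangle y x (pt δ (src g))
        rw [dist_comm y x] at this
        rw [pow_succ] at hxd
        nlinarith
      rw [dist_pt] at hd
      have hw : 0 < 2 * 2^k * δ := by positivity
      have e2 : 2 * 2^k * δ * (8 + A) = (15 + 2 * A) * (2^k * δ) + 2^k * δ := by ring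
      apply mem_nearPts hw hy
      · have h9 := abs_sub_le (2 * 2^k * δ * ((til (2^k) g).1 : ℝ)) (δ * (src g).1) y.1
        have h10 := hd.1
        rw [abs_sub_comm] at h10
        rw [e2]
        have h11 : |2 * 2^k * δ * ((til (2^k) g).1 : ℝ) - δ * (src g).1| ≤ 2^k * δ := t1
        linarith
      · have h9 := abs_sub_le (2 * 2^k * δ * ((til (2^k) g).2 : ℝ)) (δ * (src g).2) y.2
        have h10 := hd.2
        rw [abs_sub_comm] at h10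
        rw [e2]
        have h11 : |2 * 2^k * δ * ((til (2^k) g).2 : ℝ) - δ * (src g).2| ≤ 2^k * δ := t2
        linarith
    · have hkK : k = K := le_antisymm hk hge
      subst hkK
      rw [hT]
      simp only [if_true]
      have hgD : pt δ (src g) ∈ D := (mem_SE.mp hg).2 (left_mem_segment ℝ _ _)
      obtain ⟨b1, b2⟩ := hbd _ hgD
      have key : ∀ a t : ℤ, |δ * (a:ℝ)| ≤ ρ0 → |2 * 2^k * δ * (t:ℝ) - δ * a| ≤ 2^k * δ →
          t ∈ Finset.Icc (-(L:ℤ)) L := by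
        intro a t h5 h6
        have h7 : |2 * 2^k * δ * (t:ℝ)| ≤ ρ0 + 1 := by
          have := abs_sub_abs_le_abs_sub (2 * 2^k * δ * (t:ℝ)) (δ * a)
          linarith
        have h8 : |(t:ℝ)| ≤ ρ0 + 1 := by
          rw [abs_mul, abs_of_pos (by positivity : 0 < 2 * 2^k * δ)] at h7
          have h9 : 1 * |(t:ℝ)| ≤ 2 * 2^k * δ * |(t:ℝ)| :=
            mul_le_mul_of_nonneg_right (by linarith) (abs_nonneg _)
          linarith
        have h10 : ((|t| : ℤ) : ℝ) ≤ ((L:ℤ) : ℝ) := by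
          push_cast
          linarith
        have h11 : |t| ≤ (L:ℤ) := by exact_mod_cast h10
        rw [abs_le] at h11
        rw [Finset.mem_Icc]
        exact h11
      rw [Finset.mem_product]
      exact ⟨key _ _ b1 t1, key _ _ b2 t2⟩

/-- **Near-critical stability in planar domains.** -/
theorem dom_stab (hst : StIn) (ρ0 M s A : ℝ) (hM : 0 ≤ M) (hs0 : 0 ≤ s)
    (hs : s < 3/2) (hA : 0 ≤ A) : ∃ C : ℝ, 0 < C ∧ ∀ D Bs : Set (ℝ × ℝ), frontier D ⊆ Bs →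
    (∀ x ∈ D, |x.1| ≤ ρ0 ∧ |x.2| ≤ ρ0) → Cov Bs M s →
    ∀ δ : ℝ, 0 < δ → δ ≤ 1 → ∀ N : ℕ, ρ0 + δ ≤ δ * N → ∀ I J : Set Vtx,
      (∀ v ∈ I ∪ J, ∃ x ∈ Bs, dist x (pt δ v) ≤ A * δ) → ∀ q : ℝ, 0 ≤ q → q ≤ 1 →
      |Pr (fun _ => q) (SE D δ N) (fun F => Cn I J ↑F) -
        Pr (fun _ => 1/2) (SE D δ N) (fun F => Cn I J ↑F)| ≤
        C * |q - 1/2| * δ ^ (-(3/4 : ℝ)) := by
  obtain ⟨κ, C0, hκ, hC0, hwin⟩ := hst
  obtain ⟨C1, hC1⟩ : ∃ C1 : ℝ, C1 = 6 * ((17 + 2 * A) * Real.sqrt M) + 784 * κ⁻¹ ^ 4 *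
    (C0 * ((17 + 2 * A) * Real.sqrt M) / ((2:ℝ) ^ (3/4 - s/2) - 1) +
      C0 * (2 * (⌈ρ0 + 1⌉₊ : ℝ) + 1)) := ⟨_, rfl⟩
  have h2α : (1:ℝ) < (2:ℝ) ^ (3/4 - s/2) := Real.one_lt_rpow (by norm_num) (by linarith)
  have hC10 : 0 ≤ C1 := by
    rw [hC1]
    have : 0 < (2:ℝ) ^ (3/4 - s/2) - 1 := by linarith
    positivity
  refine ⟨C1 + 4 * C0, by linarith, ?_⟩
  intro D Bs hfr hbd hcov δ hδ hδ1 N hN I J hIJ q h0 h1
  obtain ⟨K, hK1, hK2⟩ := exists_scale hδ hδ1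
  obtain ⟨n, hn⟩ : ∃ n : ℕ, n = 4 * 2^K := ⟨_, rfl⟩
  have hn1 : 1 ≤ n := by
    rw [hn]
    have : 1 ≤ 2^K := Nat.one_le_two_pow
    omega
  have hd34 : 0 < δ ^ (-(3/4 : ℝ)) := Real.rpow_pos_of_pos hδ _
  have hmono : ∀ F F' : Finset Edg, F ⊆ F' → CO I J ∅ F → CO I J ∅ F' := by
    intro F F' hF h
    refine BS_Cn_mono ?_ h
    exact Set.union_subset_union_left _ (by exact_mod_cast hF)
  rw [CO_empty]
  by_cases hq : |q - 1/2| ≤ (n:ℝ) ^ (-(3/4 : ℝ)) / C0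
  · have hl := lip (f := fun q => Pr (fun _ => q) (SE D δ N) (CO I J ∅))
      (B := C1 * δ ^ (-(3/4 : ℝ))) (a := 1/2) (b := q) ?_
    · refine hl.trans ?_
      have : 0 ≤ 4 * C0 * (|q - 1/2| * δ ^ (-(3/4 : ℝ))) := by positivity
      nlinarith
    · intro t ht
      have htq : |t - 1/2| ≤ |q - 1/2| := by
        have := Set.abs_sub_left_of_mem_uIcc ht
        exact this
      obtain ⟨hW, h4⟩ := hwin n hn1 t (htq.trans hq)
      refine ⟨_, deriv_f (SE D δ N) (CO I J ∅) hmono t, ?_⟩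
      have ht0 : 0 ≤ t := by linarith [hW.lo]
      have ht1 : t ≤ 1 := by linarith [hW.hi]
      rw [abs_of_nonneg (Finset.sum_nonneg (fun e _ => Pr_nonneg (fun _ => ⟨ht0, ht1⟩) _ _)),
        hC1]
      rw [hn] at hW h4
      exact deriv_bound hκ hC0 hfr hM hs0 hs hA hbd hcov hδ hδ1 hK1 hK2 hW h4 hN hIJ
  · push Not at hq
    have ok : ∀ t : ℝ, 0 ≤ t → t ≤ 1 → Ok (fun _ : Edg => t) := fun t a b _ => ⟨a, b⟩
    have p1 := Pr_nonneg (ok q h0 h1) (SE D δ N) (CO I J ∅)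
    have p2 := Pr_le_one (ok q h0 h1) (SE D δ N) (CO I J ∅)
    have p3 := Pr_nonneg (ok (1/2) (by norm_num) (by norm_num)) (SE D δ N) (CO I J ∅)
    have p4 := Pr_le_one (ok (1/2) (by norm_num) (by norm_num)) (SE D δ N) (CO I J ∅)
    have hle : |Pr (fun _ => q) (SE D δ N) (CO I J ∅) -
        Pr (fun _ => 1/2) (SE D δ N) (CO I J ∅)| ≤ 1 := by
      rw [abs_le]
      constructor <;> linarith
    refine hle.trans ?_
    have hnr : (0:ℝ) < n := by exact_mod_cast hn1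
    have hnδ : (n:ℝ) ≤ 4 * δ⁻¹ := by
      rw [hn]
      push_cast
      have : (2:ℝ)^K ≤ δ⁻¹ := by
        rw [le_inv_comm₀ (by positivity) hδ, ← one_div, le_div_iff₀ (by positivity)]
        linarith
      linarith
    have hn34 : (n:ℝ) ^ (3/4 : ℝ) ≤ 4 * δ ^ (-(3/4 : ℝ)) := by
      have e1 : (n:ℝ) ^ (3/4 : ℝ) ≤ (4 * δ⁻¹) ^ (3/4 : ℝ) :=
        Real.rpow_le_rpow hnr.le hnδ (by norm_num)
      rw [Real.mul_rpow (by norm_num) (by positivity), Real.inv_rpow hδ.le,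
        ← Real.rpow_neg hδ.le] at e1
      have e2 : (4:ℝ) ^ (3/4 : ℝ) ≤ 4 := by
        calc (4:ℝ) ^ (3/4 : ℝ) ≤ (4:ℝ) ^ (1:ℝ) :=
              Real.rpow_le_rpow_of_exponent_le (by norm_num) (by norm_num)
          _ = 4 := Real.rpow_one _
      have e3 := mul_le_mul_of_nonneg_right e2 hd34.le
      linarith
    have hn34p : 0 < (n:ℝ) ^ (3/4 : ℝ) := Real.rpow_pos_of_pos hnr _
    have e5 : (n:ℝ) ^ (-(3/4 : ℝ)) / C0 * ((n:ℝ) ^ (3/4 : ℝ) * C0) = 1 := by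
      rw [Real.rpow_neg hnr.le]
      have : C0 ≠ 0 := by linarith
      field_simp
    have e6 : 1 ≤ |q - 1/2| * ((n:ℝ) ^ (3/4 : ℝ) * C0) := by
      exact e5.symm.le.trans (mul_le_mul_of_nonneg_right hq.le (by positivity))
    have e7 : |q - 1/2| * ((n:ℝ) ^ (3/4 : ℝ) * C0) ≤
        |q - 1/2| * ((4 * δ ^ (-(3/4 : ℝ))) * C0) := by
      apply mul_le_mul_of_nonneg_left _ (abs_nonneg _)
      exact mul_le_mul_of_nonneg_right hn34 (by linarith)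
    have e8 : 0 ≤ C1 * (|q - 1/2| * δ ^ (-(3/4 : ℝ))) := by positivity
    nlinarith

end TH291.NW
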